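import Pool.Agent.LibER34.Defs
import Pool.Agent.LibAC34.StmtC
import Pool.Agent.LibAC34.HG
import Pool.Agent.LibMul34.Fin

/-!
The numbers and vectors of the cycles given by matrices over orders: definitions.
-/

open WeierstrassCurve Pool.Agent.LibBH2 Pool.Agent.LibIG50 Pool.Agent.LibCHd Pool.Agent.LibGG
  Pool.Agent.LibAC34 Pool.Agent.LibAF11
open scoped Classical ComplexConjugate

namespace Pool.Agent.LibER34

/-! ### linear algebra -/

section alg

/-- the complex number `x + y ω` -/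
noncomputable def tc (ω : ℂ) (p : ℤ × ℤ) : ℂ := p.1 + p.2 * ω

variable {r D : ℕ}

/-- the subsets of `Fin r` with `D` elements -/
abbrev Sb (r D : ℕ) : Type := {I : Finset (Fin r) // I.card = D}

/-- the minor with the rows in `I` -/
noncomputable def mI {r D : ℕ} (N : Matrix (Fin r) (Fin D) ℂ) (I : Sb r D) : ℂ :=
  (N.submatrix (I.1.orderEmbOfFin I.2) id).det

/-- the minor of `(N | v)` with the rows in `J` -/
noncomputable def mJ {r D : ℕ} (N : Matrix (Fin r) (Fin D) ℂ) (v : Fin r → ℂ) (J : Sb r (D + 1)) :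
    ℂ :=
  ((Matrix.fromCols N (Matrix.replicateCol Unit v)).submatrix
    (J.1.orderEmbOfFin J.2 ∘ LibMul34.ix D) id).det

/-- the vector of the numbers `conj (minor_I N) * minor_J (N | v)` -/
noncomputable def Xv {r D : ℕ} (N : Matrix (Fin r) (Fin D) ℂ) (v : Fin r → ℂ) :
    Sb r D × Sb r (D + 1) → ℂ :=
  fun s => conj (mI N s.1) * mJ N v s.2

end alg

/-! ### cycles -/

section cycles

/-- pairs of matrices over the order and points -/
abbrev PC (E : WeierstrassCurve Qb) (r D : ℕ) : Type :=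
  Matrix (Fin r) (Fin D) (ℤ × ℤ) × Pts (fun _ : Fin r => E)

/-- the class of a formal combination -/
noncomputable def clCF (c : CM) {E : WeierstrassCurve Qb} {D : ℕ} (r : ℕ) {F : Type} [Field F]
    [Algebra Qb F] (ξ : ∀ _ : Fin D, (E⁄F).toAffine.Point) :
    (PC E r D →₀ ℤ) →+ CH (fun _ : Fin r => E) (pt0 Qb) D :=
  Finsupp.liftAddHom fun p => zmultiplesHom _
    (clC c.w (Algebra.ofId Qb F) D (fun _ => Hm.id E) ξ (org _) p.1 p.2)

/-- the number which is the degree of the intersection with the kernel of `Mᵀ` -/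
noncomputable def nmb (c : CM) {E : WeierstrassCurve Qb} {r D : ℕ}
    (M : Matrix (Fin r) (Fin D) (ℤ × ℤ)) : (PC E r D →₀ ℤ) →+ ℝ :=
  Finsupp.liftAddHom fun p => zmultiplesHom _
    (Complex.normSq ((cx c (fun _ => E) M).transpose * cx c (fun _ => E) p.1).det)

variable {K : Type} [Field K] [Algebra K Qb]

/-- the action on the pairs -/
def pc (t : ℤ) (ε : Bool) (p : ℤ × ℤ) : ℤ × ℤ := if ε then (p.1 + t * p.2, -p.2) else p

/-- the action of `σ` on matrices and points -/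
noncomputable def ac (c : CM) (E : WeierstrassCurve K) {r D : ℕ} (ε : Bool) (σ : Qb ≃ₐ[K] Qb)
    (p : PC (E⁄Qb) r D) : PC (E⁄Qb) r D :=
  (p.1.map (pc (c.t (E⁄Qb)) ε), fun i => gal σ (p.2 i))

/-- `σ` maps `w` to `w` or to its conjugate `t - w` according to the value of `e` -/
def GalW (c : CM) (E : WeierstrassCurve K) (e : (Qb ≃ₐ[K] Qb) → Bool) : Prop :=
  ∀ (σ : Qb ≃ₐ[K] Qb) (P : (E⁄Qb).toAffine.Point), gal σ ((c.w (E⁄Qb)).k0 P) =
    smk (c.w (E⁄Qb)) (pc (c.t (E⁄Qb)) (e σ) (0, 1)) (gal σ P)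

/-- the homologically trivial combinations over `K`, given by matrices over the order -/
noncomputable def ZC0 (Γ : Grid) (c : CM) (E : WeierstrassCurve K) (e : (Qb ≃ₐ[K] Qb) → Bool)
    (r D : ℕ) :
    AddSubgroup (PC (E⁄Qb) r D →₀ ℤ) where
  carrier := {b | (∀ p ∈ b.support,
      MatC c (fun _ : Fin D => E⁄Qb) (fun _ : Fin r => E⁄Qb) p.1 ∧ ∀ i, p.2 i ∈ Γ (E⁄Qb)) ∧
    (∀ σ : Qb ≃ₐ[K] Qb, b.mapDomain (ac c E (e σ) σ) = b) ∧
    ∀ M, MatC c (fun _ : Fin D => E⁄Qb) (fun _ : Fin r => E⁄Qb) M → nmb c M b = 0}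
  zero_mem' := ⟨fun p hp => absurd hp (by simp), fun σ => Finsupp.mapDomain_zero,
    fun M _ => map_zero _⟩
  add_mem' := by
    rintro b b' ⟨h1, h2, h3⟩ ⟨h1', h2', h3'⟩
    refine ⟨fun p hp => ?_, fun σ => ?_, fun M hM => ?_⟩
    · rcases Finset.mem_union.1 (Finsupp.support_add hp) with h | h
      · exact h1 p h
      · exact h1' p h
    · rw [Finsupp.mapDomain_add, h2, h2']
    · rw [map_add, h3 M hM, h3' M hM, add_zero]
  neg_mem' := by
    rintro b ⟨h1, h2, h3⟩
    refine ⟨fun p hp => h1 p (by rwa [Finsupp.support_neg] at hp), fun σ => ?_, fun M hM => ?_⟩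
    · have h4 := (Finsupp.mapDomain.addMonoidHom (M := ℤ)
        (ac c E (e σ) σ : PC (E⁄Qb) r D → PC (E⁄Qb) r D)).map_neg b
      change Finsupp.mapDomain _ (-b) = -Finsupp.mapDomain _ b at h4
      rw [h4, h2]
    · rw [map_neg, h3 M hM, neg_zero]

/-- the rank of the group of the classes of the combinations in `ZC0` -/
noncomputable def rkC (Γ : Grid) (c : CM) (E : WeierstrassCurve K) (e : (Qb ≃ₐ[K] Qb) → Bool)
    {D : ℕ} (r : ℕ) {F : Type} [Field F] [Algebra Qb F]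
    (ξ : ∀ _ : Fin D, ((E⁄Qb)⁄F).toAffine.Point) : Cardinal :=
  Module.rank ℤ ((clCF c r ξ).comp (ZC0 Γ c E e r D).subtype).range

end cycles

end Pool.Agent.LibER34
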