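import Pool.Agent.LibER34.Tst
import Pool.Agent.LibAF11.Bridge
import Pool.Agent.LibAF11.Red2

/-!
Curves without complex multiplications.
-/

open WeierstrassCurve Pool.Agent.LibBH2 Pool.Agent.LibIG50 Pool.Agent.LibCHd Pool.Agent.LibGG
  Pool.Agent.LibAC34 Pool.Agent.LibAF11
open scoped Classical ComplexConjugate

namespace Pool.Agent.LibER34

theorem noCM_iff {c : CM} (hc : Full c) (E : WeierstrassCurve Qb) [hE : E.IsElliptic] :
    NoCM E ↔ (c.ω E).im = 0 := by
  constructor
  · intro h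
    obtain ⟨q, n, hq, h⟩ := h (ofHm (c.w E))
    have h1 : ∀ P : E.toAffine.Point, q • (c.w E).k0 P = n • P := by
      intro P
      apply constPt_inj (F := Qb)
      rw [HG_const_zsmul, HG_const_zsmul, ← (c.w E).const]
      exact h Qb (constPt Qb P)
    obtain ⟨P, hP⟩ := exists_nontors E
    have h2 : (n ^ 2 - q * c.t E * n + q ^ 2 * c.n E) • P = 0 := by
      have e1 : q ^ 2 • (c.w E).k0 ((c.w E).k0 P) = n ^ 2 • P := by
        have e0 : q • q • (c.w E).k0 ((c.w E).k0 P) = n • n • P := by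
          rw [h1 ((c.w E).k0 P), smul_comm, h1]
        rw [pow_two, mul_smul, e0, pow_two, mul_smul]
      have e2 : q ^ 2 • (c.w E).k0 ((c.w E).k0 P) = (q * c.t E * n) • P -
          (q ^ 2 * c.n E) • P := by
        rw [c.k0_quad, smul_sub, smul_smul, smul_smul]
        congr 1
        rw [show q ^ 2 * c.t E = (q * c.t E) * q by ring, mul_smul, h1, smul_smul]
      have e3 : (n ^ 2 - q * c.t E * n + q ^ 2 * c.n E) • P =
          n ^ 2 • P - (q * c.t E * n) • P + (q ^ 2 * c.n E) • P := by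
        rw [add_zsmul, sub_zsmul, sub_eq_add_neg]
      rw [e3, ← e1, e2]
      abel
    have h3 : n ^ 2 - q * c.t E * n + q ^ 2 * c.n E = 0 := by
      by_contra h4
      exact hP _ h4 h2
    have h4 : ((n : ℂ) - q * c.ω E) * conj ((n : ℂ) - q * c.ω E) = 0 := by
      rw [map_sub, map_mul, map_intCast, map_intCast]
      have h5 : ((n : ℂ) ^ 2 - q * c.t E * n + q ^ 2 * c.n E) = 0 := by exact_mod_cast h3
      rw [← c.trace, ← c.norm] at h5
      linear_combination h5
    have h5 : (n : ℂ) - q * c.ω E = 0 := by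
      rcases mul_eq_zero.1 h4 with h5 | h5
      · exact h5
      · exact (map_eq_zero _).1 h5
    have h6 := congrArg Complex.im h5
    simp only [Complex.sub_im, Complex.intCast_im, Complex.mul_im, Complex.intCast_re,
      Complex.zero_im, zero_mul, add_zero, zero_sub, neg_eq_zero] at h6
    rcases mul_eq_zero.1 h6 with h7 | h7
    · exact absurd (by exact_mod_cast h7) hq
    · exact h7
  · intro h φ
    obtain ⟨Q, x, y, hQ, hy, hf⟩ := hc E hE φ.toHm
    refine ⟨Q, x, by exact_mod_cast hQ.ne', fun F _ _ P => ?_⟩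
    have h1 := hf F P
    rw [hy h, zero_smul, add_zero, ← natCast_zsmul] at h1
    exact h1

theorem k0_mem_of_stb {Γ : Grid} {E E' : WeierstrassCurve Qb} (h : Stb Γ E E') (φ : Hm E E')
    (P : E.toAffine.Point) (hP : P ∈ Γ E) : φ.k0 P ∈ Γ E' :=
  h (ofHm φ) P (φ.k0 P) hP (φ.const Qb P)

theorem stb_of_fun {Γ : Grid} (h : Fun Γ) (E E' : WeierstrassCurve Qb) : Stb Γ E E' := by
  intro φ P Q hP hQ
  have h1 := h E E' φ.toHm P hP
  have h2 : φ.toHm.k0 P = Q := k0_of_f φ.toHm P Q hQ
  rwa [h2] at h1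

end Pool.Agent.LibER34
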