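import Pool.Agent.LibER34.Tst
import Pool.Agent.LibAF11.Bridge
import Pool.Agent.LibAF11.Red1

/-!
Elements of the order are determined by their action on points.
-/

open WeierstrassCurve Pool.Agent.LibBH2 Pool.Agent.LibIG50 Pool.Agent.LibCHd Pool.Agent.LibGG
  Pool.Agent.LibAC34 Pool.Agent.LibAF11
open scoped Classical ComplexConjugate

namespace Pool.Agent.LibER34

theorem norm_step {A : Type} [AddCommGroup A] (a b t n : ℤ) (x y z : A) (hz : z = t • y - n • x) :
    (a + t * b) • (a • x + b • y) + (-b) • (a • y + b • z) =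
      (a ^ 2 + a * b * t + b ^ 2 * n) • x := by
  subst hz
  simp only [smul_add, smul_sub, smul_smul]
  have e1 : ((a + t * b) * a) • x + ((a + t * b) * b) • y +
      ((-b * a) • y + ((-b * (b * t)) • y - (-b * (b * n)) • x)) =
      ((a + t * b) * a - -b * (b * n)) • x + ((a + t * b) * b + -b * a + -b * (b * t)) • y := by
    rw [sub_smul, add_smul ((a + t * b) * b + -b * a), add_smul ((a + t * b) * b)]
    abel
  rw [e1]
  have e2 : (a + t * b) * b + -b * a + -b * (b * t) = 0 := by ring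
  have e3 : (a + t * b) * a - -b * (b * n) = a ^ 2 + a * b * t + b ^ 2 * n := by ring
  rw [e2, e3, zero_smul, add_zero]

/-- the norm -/
theorem smk_norm (c : CM) (E : WeierstrassCurve Qb) (p : ℤ × ℤ) (P : E.toAffine.Point) :
    smk (c.w E) (pc (c.t E) true p) (smk (c.w E) p P) =
      (p.1 ^ 2 + p.1 * p.2 * c.t E + p.2 ^ 2 * c.n E) • P := by
  have h1 : (c.w E).k0 (smk (c.w E) p P) =
      p.1 • (c.w E).k0 P + p.2 • (c.w E).k0 ((c.w E).k0 P) := by
    rw [smk, (c.w E).k0_add, k0_zsmul, k0_zsmul]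
  rw [pc_true, smk, h1]
  exact norm_step _ _ _ _ _ _ _ (c.k0_quad E P)

theorem norm_ne (c : CM) (E : WeierstrassCurve Qb) {a b : ℤ} (h : (c.ω E).im = 0 → b = 0)
    (h0 : a ^ 2 + a * b * c.t E + b ^ 2 * c.n E = 0) : a = 0 ∧ b = 0 := by
  have h1 : ((a : ℂ) + b * c.ω E) * conj ((a : ℂ) + b * c.ω E) = 0 := by
    rw [map_add, map_mul, map_intCast, map_intCast]
    have h5 : ((a : ℂ) ^ 2 + a * b * c.t E + b ^ 2 * c.n E) = 0 := by exact_mod_cast h0
    rw [← c.trace, ← c.norm] at h5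
    linear_combination h5
  have h2 : (a : ℂ) + b * c.ω E = 0 := by
    rcases mul_eq_zero.1 h1 with h5 | h5
    · exact h5
    · exact (map_eq_zero _).1 h5
  have h3 : b = 0 := by
    by_cases h4 : (c.ω E).im = 0
    · exact h h4
    · have h6 := congrArg Complex.im h2
      simp only [Complex.add_im, Complex.intCast_im, Complex.mul_im, Complex.intCast_re,
        Complex.zero_im, zero_mul, add_zero, zero_add] at h6
      rcases mul_eq_zero.1 h6 with h7 | h7
      · exact_mod_cast h7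
      · exact absurd h7 h4
  refine ⟨?_, h3⟩
  rw [h3] at h2
  simp only [Int.cast_zero, zero_mul, add_zero] at h2
  exact_mod_cast h2

theorem smk_sub (c : CM) (E : WeierstrassCurve Qb) (p q : ℤ × ℤ) (P : E.toAffine.Point) :
    smk (c.w E) (p - q) P = smk (c.w E) p P - smk (c.w E) q P := by
  have h : ∀ {A : Type} [AddCommGroup A] (a b a' b' : ℤ) (x y : A),
      (a - a') • x + (b - b') • y = (a • x + b • y) - (a' • x + b' • y) := by
    intro A _ a b a' b' x y
    rw [sub_smul, sub_smul]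
    abel
  exact h _ _ _ _ _ _

/-- the elements of the order are determined by their action on points -/
theorem pair_unique (c : CM) (E : WeierstrassCurve Qb) [E.IsElliptic] {p q : ℤ × ℤ}
    (hp : (c.ω E).im = 0 → p.2 = 0) (hq : (c.ω E).im = 0 → q.2 = 0)
    (h : ∀ P : E.toAffine.Point, smk (c.w E) p P = smk (c.w E) q P) : p = q := by
  obtain ⟨P, hP⟩ := exists_nontors E
  have h1 : smk (c.w E) (p - q) P = 0 := by rw [smk_sub, h, sub_self]
  have h2 := smk_norm c E (p - q) P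
  rw [h1] at h2
  have h3 : smk (c.w E) (pc (c.t E) true (p - q)) (0 : E.toAffine.Point) = 0 := by
    have h4 : (c.w E).k0 (0 : E.toAffine.Point) = 0 := map_zero (c.w E).k0H
    rw [smk, h4, smul_zero, smul_zero, add_zero]
  rw [h3] at h2
  have h4 : (p - q).1 ^ 2 + (p - q).1 * (p - q).2 * c.t E + (p - q).2 ^ 2 * c.n E = 0 := by
    by_contra h5
    exact hP _ h5 h2.symm
  obtain ⟨h5, h6⟩ := norm_ne c E (a := (p - q).1) (b := (p - q).2)
    (fun h => by rw [Prod.snd_sub, hp h, hq h, sub_zero]) h4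
  refine Prod.ext ?_ ?_
  · rw [Prod.fst_sub] at h5
    omega
  · rw [Prod.snd_sub] at h6
    omega

section gal

variable {K : Type} [Field K] [Algebra K Qb] {E : WeierstrassCurve K}

theorem gal_symm (σ : Qb ≃ₐ[K] Qb) (P : (E⁄Qb).toAffine.Point) : gal σ (gal σ.symm P) = P := by
  rcases P with _ | ⟨x, y, h⟩
  · rfl
  · change Affine.Point.map (σ : Qb →ₐ[K] Qb) (Affine.Point.map (σ.symm : Qb →ₐ[K] Qb)
      (Affine.Point.some _ _ _)) = _
    rw [Affine.Point.map_some, Affine.Point.map_some]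
    have h1 : ∀ z : Qb, (σ : Qb →ₐ[K] Qb) ((σ.symm : Qb →ₐ[K] Qb) z) = z := fun z =>
      σ.apply_symm_apply z
    simp only [h1]

/-- the pairs of conjugate homomorphisms -/
theorem pair_conj {c : CM} (hE : (E⁄Qb).IsElliptic) {e : (Qb ≃ₐ[K] Qb) → Bool}
    (he : GalW c E e) (σ : Qb ≃ₐ[K] Qb) (f f' : Hom (E⁄Qb) (E⁄Qb))
    (h : ∀ P Q : (E⁄Qb).toAffine.Point, f.f Qb (constPt Qb P) = constPt Qb Q →
      f'.f Qb (constPt Qb (gal σ P)) = constPt Qb (gal σ Q)) {Q : ℤ} {p p' : ℤ × ℤ}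
    (hp : (c.ω (E⁄Qb)).im = 0 → p.2 = 0) (hp' : (c.ω (E⁄Qb)).im = 0 → p'.2 = 0)
    (h1 : ∀ P : ((E⁄Qb)⁄Qb).toAffine.Point, Q • f.f Qb P = sm (c.w (E⁄Qb)) Qb p P)
    (h2 : ∀ P : ((E⁄Qb)⁄Qb).toAffine.Point, Q • f'.f Qb P = sm (c.w (E⁄Qb)) Qb p' P) :
    pc (c.t (E⁄Qb)) (e σ) p = p' := by
  refine pair_unique c (E⁄Qb) (fun h0 => pc_snd _ _ _ (hp h0)) hp' fun P' => ?_
  obtain ⟨P, rfl⟩ : ∃ P, P' = gal σ P := ⟨gal σ.symm P', (gal_symm σ P').symm⟩
  have e1 : f.f Qb (constPt Qb P) = constPt Qb (f.toHm.k0 P) := f.toHm.const Qb P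
  have e2 := h P _ e1
  have e3 : Q • f.toHm.k0 P = smk (c.w (E⁄Qb)) p P := by
    apply constPt_inj (F := Qb)
    rw [HG_const_zsmul, ← e1, h1, sm_const]
  have e4 : Q • gal σ (f.toHm.k0 P) = smk (c.w (E⁄Qb)) p' (gal σ P) := by
    apply constPt_inj (F := Qb)
    rw [HG_const_zsmul, ← e2, h2, sm_const]
  rw [← e4, ← gal_smk he, ← e3, map_zsmul]

end gal

/-- a map which preserves a finitely supported function permutes its support -/
theorem mem_of_mapDomain {α : Type 1} {c : α →₀ ℤ} {φ : α → α} (h : c.mapDomain φ = c) {p : α}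
    (hp : p ∈ c.support) : φ p ∈ c.support := by
  have h1 : c.support ⊆ c.support.image φ := by
    conv_lhs => rw [← h]
    exact Finsupp.mapDomain_support
  rw [Finset.eq_of_subset_of_card_le h1 Finset.card_image_le]
  exact Finset.mem_image_of_mem φ hp

end Pool.Agent.LibER34
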