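import Pool.Agent.LibER34.NoCM
import Pool.Agent.LibER34.Un
import Pool.Agent.LibCy66.Cyc
import Pool.Agent.LibAC34.CFin

/-!
Curves of small rank.
-/

open WeierstrassCurve Pool.Agent.LibBH2 Pool.Agent.LibIG50 Pool.Agent.LibCHd Pool.Agent.LibGG
  Pool.Agent.LibAC34 Pool.Agent.LibAF11
open scoped Classical

namespace Pool.Agent.LibER34

theorem gal_const {K : Type} [Field K] [Algebra K Qb] {E : WeierstrassCurve K}
    (σ : Qb ≃ₐ[K] Qb) (P : E.toAffine.Point) : gal σ (constPt Qb P) = constPt Qb P := by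
  rcases P with _ | ⟨x, y, h⟩
  · rfl
  · have h1 : ∀ z : K, (σ : Qb →ₐ[K] Qb) (algebraMap K Qb z) = algebraMap K Qb z :=
      fun z => (σ : Qb →ₐ[K] Qb).commutes z
    change Affine.Point.map (σ : Qb →ₐ[K] Qb) (Affine.Point.some _ _ _) = _
    rw [Affine.Point.map_some]
    simp only [h1]
    rfl

theorem rk_GK_eq (K : Type) [Field K] [NumberField K] [Algebra K Qb] (E : WeierstrassCurve K)
    {Γ : Grid} (h : ∀ P : E.toAffine.Point, constPt Qb P ∈ Γ (E⁄Qb)) :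
    rk (GK Γ E) = Module.rank ℤ E.toAffine.Point := by
  have h1 : GK Γ E = (constHom Qb E).range := by
    ext R
    constructor
    · rintro ⟨-, hR⟩
      obtain ⟨P, hP⟩ := exists_of_fixed K E R hR
      exact ⟨P, hP⟩
    · rintro ⟨P, rfl⟩
      exact ⟨h P, fun σ => gal_const σ P⟩
  rw [rk, h1, AddSubgroup.closure_eq]
  exact (AddMonoidHom.ofInjective (LibBH2.constPt_injective Qb E)).toIntLinearEquiv.rank_eq.symm

theorem relation3 {A : Type} [AddCommGroup A] (h : Module.rank ℤ A ≤ 2) (x y z : A) :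
    ∃ a b d : ℤ, ¬ (a = 0 ∧ b = 0 ∧ d = 0) ∧ a • x + b • y + d • z = 0 := by
  by_contra hc
  have h1 : LinearIndependent ℤ ![x, y, z] := by
    rw [Fintype.linearIndependent_iff]
    intro g hg
    rw [Fin.sum_univ_three] at hg
    by_contra h3
    refine hc ⟨g 0, g 1, g 2, fun h4 => h3 fun i => ?_, hg⟩
    fin_cases i
    · exact h4.1
    · exact h4.2.1
    · exact h4.2.2
  have h2 := h1.cardinal_le_rank.trans h
  rw [Cardinal.mk_fin, ← Nat.cast_two, Nat.cast_le] at h2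
  exact absurd h2 (by norm_num)

theorem cyc_of_cm (K : Type) [Field K] [NumberField K] [Algebra K Qb] (E : WeierstrassCurve K)
    [E.IsElliptic] (h1 : ¬ NoCM (E⁄Qb)) (h2 : EndK E)
    (h3 : Module.rank ℤ E.toAffine.Point ≤ 2) : LibCy66.Cyc E := by
  have hE' : (E⁄Qb).IsElliptic := inferInstanceAs (E.map (algebraMap K Qb)).IsElliptic
  obtain ⟨c, hc⟩ := exists_CM
  have him : (c.ω (E⁄Qb)).im ≠ 0 := fun h4 => h1 ((noCM_iff hc (E⁄Qb)).2 h4)
  by_cases ht : ∀ P : E.toAffine.Point, IsOfFinAddOrder P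
  · refine LibCy66.cyc_of_rank E ?_
    by_contra h4
    push Not at h4
    have h5 : (0 : Cardinal) < Module.rank ℤ E.toAffine.Point :=
      zero_lt_one.trans h4
    obtain ⟨s, hs, hli⟩ := exists_set_linearIndependent ℤ E.toAffine.Point
    have h6 : Nonempty s := by
      rw [← Cardinal.mk_ne_zero_iff, hs]
      exact h5.ne'
    obtain ⟨x⟩ := h6
    obtain ⟨n, hn, h7⟩ := isOfFinAddOrder_iff_zsmul_eq_zero.1 (ht x.1)
    exact hn ((linearIndependent_iff'.1 hli) {x} (fun _ => n) (by simpa using h7) x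
      (Finset.mem_singleton_self x))
  · push Not at ht
    obtain ⟨P₀, hP₀⟩ := ht
    have hw : ∀ (σ : Qb ≃ₐ[K] Qb) (P : (E⁄Qb).toAffine.Point),
        (c.w (E⁄Qb)).k0 (gal σ P) = gal σ ((c.w (E⁄Qb)).k0 P) := by
      intro σ P
      have h4 := h2 (ofHm (c.w (E⁄Qb))) σ P ((c.w (E⁄Qb)).k0 P) ((c.w (E⁄Qb)).const Qb P)
      have h5 := (c.w (E⁄Qb)).const Qb (gal σ P)
      exact constPt_inj (F := Qb) (h5.symm.trans h4)
    obtain ⟨P₁, hP₁⟩ := exists_of_fixed K E ((c.w (E⁄Qb)).k0 (constPt Qb P₀)) fun σ => by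
      rw [← hw, gal_const]
    refine ⟨P₀, fun P => ?_⟩
    obtain ⟨a, b, d, hne, h4⟩ := relation3 h3 P₀ P₁ P
    have h5 : ∀ x y z : ℤ, constPt Qb (x • P₀ + y • P₁ + z • P) =
        smk (c.w (E⁄Qb)) (x, y) (constPt Qb P₀) + z • (constPt Qb P : (E⁄Qb).toAffine.Point) := by
      intro x y z
      show constHom Qb E (x • P₀ + y • P₁ + z • P) = _
      rw [map_add, map_add, map_zsmul, map_zsmul, map_zsmul, smk]
      have h6 : constHom Qb E P₁ = (c.w (E⁄Qb)).k0 (constPt Qb P₀) := hP₁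
      rw [h6]
      rfl
    have hd : d ≠ 0 := by
      rintro rfl
      have h6 := h5 a b 0
      rw [h4] at h6
      have h7 : smk (c.w (E⁄Qb)) (a, b) (constPt Qb P₀) = 0 := by
        have h8 : (constPt Qb (0 : E.toAffine.Point) : (E⁄Qb).toAffine.Point) = 0 := rfl
        rw [h8, zero_smul, add_zero] at h6
        exact h6.symm
      have h8 := smk_norm c (E⁄Qb) (a, b) (constPt Qb P₀)
      rw [h7] at h8
      have h9 : smk (c.w (E⁄Qb)) (pc (c.t (E⁄Qb)) true (a, b)) (0 : (E⁄Qb).toAffine.Point) = 0 := by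
        have h10 : (c.w (E⁄Qb)).k0 (0 : (E⁄Qb).toAffine.Point) = 0 := map_zero (c.w (E⁄Qb)).k0H
        rw [smk, h10, smul_zero, smul_zero, add_zero]
      rw [h9] at h8
      have h10 : a ^ 2 + a * b * c.t (E⁄Qb) + b ^ 2 * c.n (E⁄Qb) = 0 := by
        by_contra h11
        apply hP₀
        refine isOfFinAddOrder_iff_zsmul_eq_zero.2 ⟨_, h11, ?_⟩
        apply LibBH2.constPt_injective Qb E
        show constHom Qb E (_ • P₀) = constHom Qb E 0
        rw [map_zsmul, map_zero]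
        exact h8.symm
      obtain ⟨h11, h12⟩ := norm_ne c (E⁄Qb) (fun h => absurd h him) h10
      exact hne ⟨h11, h12, rfl⟩
    refine ⟨d, ofHm (pr (c.w (E⁄Qb)) (-a, -b)), hd, ?_⟩
    show sm (c.w (E⁄Qb)) Qb (-a, -b) (tr (E⁄Qb) (E⁄Qb) (constPt Qb (constPt Qb P₀))) = _
    rw [tr_self, sm_const]
    congr 1
    have h6 := h5 (-a) (-b) 0
    rw [zero_smul, zero_smul, add_zero, add_zero] at h6
    rw [← h6]
    congr 1
    have h7 : d • P = -a • P₀ + -b • P₁ := by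
      have h8 : d • P = (a • P₀ + b • P₁ + d • P) - a • P₀ - b • P₁ := by abel
      rw [h8, h4, neg_smul, neg_smul]
      abel
    rw [h7]

theorem exists_one (K : Type) [Field K] [NumberField K] [Algebra K Qb] (E : WeierstrassCurve K)
    [E.IsElliptic] (h : Module.rank ℤ E.toAffine.Point ≤ 1 ∨
      (¬ NoCM (E⁄Qb) ∧ EndK E ∧ Module.rank ℤ E.toAffine.Point ≤ 2)) :
    ∃ Γ : Grid, PwC Γ ∧ (∀ E E' : WeierstrassCurve Qb, Stb Γ E E') ∧
      rk (GK Γ E) = Module.rank ℤ E.toAffine.Point ∧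
      ∀ P : E.toAffine.Point, constPt Qb P ∈ Γ (E⁄Qb) := by
  have h1 : LibCy66.Cyc E := by
    rcases h with h | ⟨h, h', h''⟩
    · exact LibCy66.cyc_of_rank E h
    · exact cyc_of_cm K E h h' h''
  obtain ⟨Γ, h2, h3, -, h4⟩ := LibCy66.exists_cyc E h1
  exact ⟨Γ, pwC_of_pw h2, fun V W φ P Q hP hQ => h3 V W φ P Q hP hQ, rk_GK_eq K E h4, h4⟩

end Pool.Agent.LibER34
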