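import Pool.Agent.LibER34.LA
import Pool.Agent.LibAC34.CFin
import Pool.Agent.LibAC84H.Main
import Pool.Agent.LibAC84C.CB

/-!
The tests: the points `tS`.
-/

open WeierstrassCurve Pool.Agent.LibBH2 Pool.Agent.LibIG50 Pool.Agent.LibCHd Pool.Agent.LibGG
  Pool.Agent.LibAC34 Pool.Agent.LibAF11
open scoped Classical ComplexConjugate

namespace Pool.Agent.LibER34

variable {r D : ℕ}

theorem tc_add (ω : ℂ) (p q : ℤ × ℤ) : tc ω (p + q) = tc ω p + tc ω q := by
  unfold tc
  push_cast [Prod.fst_add, Prod.snd_add]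
  ring

theorem tc_neg (ω : ℂ) (p : ℤ × ℤ) : tc ω (-p) = -tc ω p := by
  unfold tc
  push_cast [Prod.fst_neg, Prod.snd_neg]
  ring

theorem tc_conj {ω : ℂ} {t : ℤ} (ht : ω + conj ω = t) (p : ℤ × ℤ) :
    conj (tc ω p) = tc ω (p.1 + t * p.2, -p.2) := by
  unfold tc
  have h : conj ω = t - ω := by rw [← ht]; ring
  rw [map_add, map_mul, h, map_intCast, map_intCast]
  push_cast
  ring

theorem tc_mul {ω : ℂ} {t n : ℤ} (ht : ω + conj ω = t) (hn : ω * conj ω = n) (p q : ℤ × ℤ) :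
    tc ω p * tc ω q =
      tc ω (p.1 * q.1 - n * (p.2 * q.2), p.1 * q.2 + p.2 * q.1 + t * (p.2 * q.2)) := by
  unfold tc
  push_cast
  linear_combination (p.2 : ℂ) * q.2 * ω * ht - (p.2 : ℂ) * q.2 * hn

/-- the order, as a subring -/
noncomputable def RR {ω : ℂ} {t n : ℤ} (ht : ω + conj ω = t) (hn : ω * conj ω = n) : Subring ℂ where
  carrier := Set.range (tc ω)
  mul_mem' := by
    rintro _ _ ⟨p, rfl⟩ ⟨q, rfl⟩
    exact ⟨_, (tc_mul ht hn p q).symm⟩
  one_mem' := ⟨(1, 0), by simp [tc]⟩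
  add_mem' := by
    rintro _ _ ⟨p, rfl⟩ ⟨q, rfl⟩
    exact ⟨p + q, tc_add ω p q⟩
  zero_mem' := ⟨0, by simp [tc]⟩
  neg_mem' := by
    rintro _ ⟨p, rfl⟩
    exact ⟨-p, tc_neg ω p⟩

theorem det_mem {ι : Type} [Fintype ι] [DecidableEq ι] (R : Subring ℂ) (M : Matrix ι ι ℂ)
    (h : ∀ i j, M i j ∈ R) : M.det ∈ R := by
  have h1 : M = (R.subtype).mapMatrix (Matrix.of fun i j => (⟨M i j, h i j⟩ : R)) := rfl
  rw [h1, ← RingHom.map_det]
  exact Subtype.mem _

/-- the numbers `Xv N e_i` belong to the order -/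
theorem exists_coef (ω : ℂ) {t n : ℤ} (ht : ω + conj ω = t) (hn : ω * conj ω = n)
    (N : Matrix (Fin r) (Fin D) (ℤ × ℤ)) (s : Sb r D × Sb r (D + 1)) (i : Fin r) :
    ∃ p : ℤ × ℤ, tc ω p = Xv (N.map (tc ω)) (Pi.single i 1) s := by
  have h1 : mI (N.map (tc ω)) s.1 ∈ RR ht hn := det_mem _ _ fun x y => ⟨_, rfl⟩
  have h2 : mJ (N.map (tc ω)) (Pi.single i 1) s.2 ∈ RR ht hn := by
    refine det_mem _ _ fun x y => ?_
    rcases y with y | y
    · exact ⟨_, rfl⟩
    · rw [Matrix.submatrix_apply, id_eq, Matrix.fromCols_apply_inr, Matrix.replicateCol_apply]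
      rcases eq_or_ne ((s.2.1.orderEmbOfFin s.2.2 ∘ LibMul34.ix D) x) i with h | h
      · rw [h, Pi.single_eq_same]
        exact one_mem _
      · rw [Pi.single_eq_of_ne h]
        exact zero_mem _
  obtain ⟨p, hp⟩ := h1
  have h3 : conj (mI (N.map (tc ω)) s.1) ∈ RR ht hn := by
    rw [← hp, tc_conj ht]
    exact ⟨_, rfl⟩
  exact (RR ht hn).mul_mem h3 h2

/-- the pair of the number `Xv N e_i` -/
noncomputable def coef (c : CM) (E : WeierstrassCurve Qb) (N : Matrix (Fin r) (Fin D) (ℤ × ℤ))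
    (s : Sb r D × Sb r (D + 1)) (i : Fin r) : ℤ × ℤ :=
  (exists_coef (c.ω E) (c.trace E) (c.norm E) N s i).choose

theorem coef_spec (c : CM) (E : WeierstrassCurve Qb) (N : Matrix (Fin r) (Fin D) (ℤ × ℤ))
    (s : Sb r D × Sb r (D + 1)) (i : Fin r) :
    tc (c.ω E) (coef c E N s i) = Xv (N.map (tc (c.ω E))) (Pi.single i 1) s :=
  (exists_coef (c.ω E) (c.trace E) (c.norm E) N s i).choose_spec

/-- the test `s` -/
noncomputable def tS (c : CM) (E : WeierstrassCurve Qb) (s : Sb r D × Sb r (D + 1)) :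
    (PC E r D →₀ ℤ) →+ E.toAffine.Point :=
  Finsupp.liftAddHom fun p => zmultiplesHom _ (∑ i, smk (c.w E) (coef c E p.1 s i) (p.2 i))

theorem tS_single (c : CM) (E : WeierstrassCurve Qb) (s : Sb r D × Sb r (D + 1)) (p : PC E r D)
    (m : ℤ) : tS c E s (Finsupp.single p m) =
      m • ∑ i, smk (c.w E) (coef c E p.1 s i) (p.2 i) := by
  rw [tS, Finsupp.liftAddHom_apply_single]
  rfl

theorem lam_smk (c : CM) {E : WeierstrassCurve Qb} (lam : E.toAffine.Point →+ ℂ)
    (hlam : ∀ P, lam ((c.w E).k0 P) = c.ω E * lam P) (p : ℤ × ℤ) (P : E.toAffine.Point) :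
    lam (smk (c.w E) p P) = tc (c.ω E) p * lam P := by
  rw [smk, map_add, map_zsmul, map_zsmul, hlam, zsmul_eq_mul, zsmul_eq_mul, tc]
  ring

/-- the values of the linear maps at the points `tS` -/
theorem lam_tS (c : CM) (E : WeierstrassCurve Qb) (s : Sb r D × Sb r (D + 1))
    (lam : E.toAffine.Point →+ ℂ) (hlam : ∀ P, lam ((c.w E).k0 P) = c.ω E * lam P)
    (b : PC E r D →₀ ℤ) : lam (tS c E s b) =
      b.sum fun p m => (m : ℂ) * Xv (p.1.map (tc (c.ω E))) (fun i => lam (p.2 i)) s := by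
  induction b using Finsupp.induction_linear with
  | zero => rw [map_zero, map_zero, Finsupp.sum_zero_index]
  | add b b' h h' =>
    rw [map_add, map_add, h, h', Finsupp.sum_add_index' (fun _ => by simp)
      (fun _ _ _ => by push_cast; ring)]
  | single p m =>
    rw [tS_single, map_zsmul, map_sum, Finsupp.sum_single_index (by simp), zsmul_eq_mul, Xv_lin]
    congr 1
    refine Finset.sum_congr rfl fun i _ => ?_
    rw [lam_smk c lam hlam, coef_spec, mul_comm]

/-- the linear maps separate the points modulo torsion -/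
theorem sep (c : CM) (E : WeierstrassCurve Qb) (x : E.toAffine.Point)
    (h : ∀ lam : E.toAffine.Point →+ ℂ, (∀ P, lam ((c.w E).k0 P) = c.ω E * lam P) → lam x = 0) :
    IsOfFinAddOrder x := by
  by_contra hx
  obtain ⟨μ, hμ⟩ := LibAC84H.exists_hom x hx
  let ν : E.toAffine.Point →+ ℂ := (algebraMap ℚ ℂ).toAddMonoidHom.comp μ
  have hν : ∀ P, ν P = (μ P : ℂ) := fun P => rfl
  by_cases h0 : (c.ω E).im = 0
  · have h1 := h ν fun P => by
      rw [c.k0_real E h0, (c.real E h0).1, map_zero, zero_mul]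
    rw [hν] at h1
    exact hμ (by exact_mod_cast h1)
  · let lam : E.toAffine.Point →+ ℂ :=
      AddMonoidHom.mk' (fun P => ν ((c.w E).k0H P) - conj (c.ω E) * ν P) fun P Q => by
        rw [map_add, map_add, map_add]
        ring
    have hlam : ∀ P, lam P = ν ((c.w E).k0 P) - conj (c.ω E) * ν P := fun P => rfl
    have h1 := h lam fun P => by
      rw [hlam, hlam, c.k0_quad, map_sub, map_zsmul, map_zsmul, zsmul_eq_mul, zsmul_eq_mul,
        ← c.trace, ← c.norm]
      ring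
    rw [hlam, hν, hν] at h1
    have h2 := congrArg Complex.im h1
    rw [Complex.sub_im, Complex.mul_im, Complex.conj_im, Complex.conj_re, Complex.ratCast_im,
      Complex.ratCast_im, Complex.ratCast_re, Complex.zero_im] at h2
    have h3 : (c.ω E).im * ((μ x : ℚ) : ℝ) = 0 := by linarith
    rcases mul_eq_zero.1 h3 with h4 | h4
    · exact h0 h4
    · exact hμ (by exact_mod_cast h4)

theorem zero_of_tors {G : Type} [AddCommGroup G] (lam : G →+ ℂ) {x : G} (h : IsOfFinAddOrder x) :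
    lam x = 0 := by
  obtain ⟨n, hn, h⟩ := isOfFinAddOrder_iff_nsmul_eq_zero.1 h
  have h1 := congrArg lam h
  rw [map_nsmul, map_zero, nsmul_eq_mul] at h1
  rcases mul_eq_zero.1 h1 with h2 | h2
  · exact absurd (Nat.cast_eq_zero.1 h2) hn.ne'
  · exact h2

theorem pc_true (t : ℤ) (p : ℤ × ℤ) : pc t true p = (p.1 + t * p.2, -p.2) := rfl

theorem pc_false (t : ℤ) (p : ℤ × ℤ) : pc t false p = p := rfl

theorem pc_real (t : ℤ) (ε : Bool) (p : ℤ × ℤ) (h : p.2 = 0) : pc t ε p = p := by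
  cases ε
  · rfl
  · rw [pc_true, h, mul_zero, add_zero, neg_zero]
    exact Prod.ext rfl h.symm

theorem pc_snd (t : ℤ) (ε : Bool) (p : ℤ × ℤ) (h : p.2 = 0) : (pc t ε p).2 = 0 := by
  rw [pc_real t ε p h, h]

theorem pc_pc (t : ℤ) (ε : Bool) (p : ℤ × ℤ) : pc t ε (pc t ε p) = p := by
  cases ε
  · rfl
  · rw [pc_true, pc_true]
    refine Prod.ext ?_ (neg_neg _)
    dsimp only
    ring

/-- the action on the complex numbers -/
noncomputable def cjB (ε : Bool) (z : ℂ) : ℂ := if ε then conj z else z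

theorem tc_pc {ω : ℂ} {t : ℤ} (ht : ω + conj ω = t) (ε : Bool) (p : ℤ × ℤ) :
    tc ω (pc t ε p) = cjB ε (tc ω p) := by
  cases ε
  · rfl
  · rw [pc_true, ← tc_conj ht]
    rfl

theorem Xv_conj (N : Matrix (Fin r) (Fin D) ℂ) (v : Fin r → ℂ) (s : Sb r D × Sb r (D + 1)) :
    Xv (N.map conj) (fun i => conj (v i)) s = conj (Xv N v s) := by
  have h1 : ∀ {ι : Type} [Fintype ι] [DecidableEq ι] (A : Matrix ι ι ℂ),
      conj A.det = (A.map conj).det := fun A => RingHom.map_det (starRingEnd ℂ) A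
  unfold Xv mI mJ
  rw [map_mul, Complex.conj_conj, h1 ((N.map conj).submatrix _ _), h1 (Matrix.submatrix _ _ _)]
  congr 2
  · ext i a
    simp
  · ext i a
    rcases a with a | a
    · simp
    · simp

theorem Xv_cjB (ε : Bool) (N : Matrix (Fin r) (Fin D) ℂ) (v : Fin r → ℂ)
    (s : Sb r D × Sb r (D + 1)) :
    Xv (N.map (cjB ε)) (fun i => cjB ε (v i)) s = cjB ε (Xv N v s) := by
  cases ε
  · have h1 : N.map (cjB false) = N := by ext i a; rfl
    rw [h1]
    rfl
  · exact Xv_conj N v s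

theorem cjB_single (ε : Bool) (i : Fin r) :
    (fun x => cjB ε ((Pi.single i 1 : Fin r → ℂ) x)) = Pi.single i 1 := by
  funext x
  by_cases h : x = i
  · subst h
    cases ε <;> simp [cjB]
  · cases ε <;> simp [cjB, Pi.single_eq_of_ne h]

theorem map_tc_pc {ω : ℂ} {t : ℤ} (ht : ω + conj ω = t) (ε : Bool)
    (N : Matrix (Fin r) (Fin D) (ℤ × ℤ)) :
    (N.map (pc t ε)).map (tc ω) = (N.map (tc ω)).map (cjB ε) := by
  ext i a
  exact tc_pc ht ε _

/-- the action of an element of the order depends only on the complex number -/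
theorem smk_congr (c : CM) (E : WeierstrassCurve Qb) {p q : ℤ × ℤ}
    (h : tc (c.ω E) p = tc (c.ω E) q) (P : E.toAffine.Point) :
    smk (c.w E) p P = smk (c.w E) q P := by
  by_cases h0 : (c.ω E).im = 0
  · rw [(c.real E h0).1] at h
    have h1 : p.1 = q.1 := by
      simp only [tc, mul_zero, add_zero] at h
      exact_mod_cast h
    rw [smk, smk, c.k0_real E h0, smul_zero, smul_zero, h1]
  · have h1 := congrArg Complex.im h
    simp only [tc, Complex.add_im, Complex.intCast_im, Complex.mul_im, Complex.intCast_re,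
      zero_mul, add_zero, zero_add] at h1
    have h2 : p.2 = q.2 := by
      have := mul_right_cancel₀ h0 h1
      exact_mod_cast this
    have h3 : p.1 = q.1 := by
      unfold tc at h
      rw [h2] at h
      have := add_right_cancel h
      exact_mod_cast this
    rw [Prod.ext h3 h2]

variable {K : Type} [Field K] [Algebra K Qb]

/-- the group of the points over `K` in `Γ E` -/
noncomputable def GKg (Γ : Grid) (E : WeierstrassCurve K) :
    AddSubgroup (E⁄Qb).toAffine.Point where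
  carrier := GK Γ E
  zero_mem' := ⟨zero_mem _, fun σ => map_zero _⟩
  add_mem' := fun {a b} ha hb => ⟨add_mem ha.1 hb.1, fun σ =>
    (map_add (gal σ) a b).trans (congrArg₂ (· + ·) (ha.2 σ) (hb.2 σ))⟩
  neg_mem' := fun {a} ha => ⟨neg_mem ha.1, fun σ =>
    (map_neg (gal σ) a).trans (congrArg Neg.neg (ha.2 σ))⟩

theorem ZC0_mono {Γ Γ' : Grid} (c : CM) (E : WeierstrassCurve K) (e : (Qb ≃ₐ[K] Qb) → Bool)
    (h : Γ (E⁄Qb) ≤ Γ' (E⁄Qb)) : ZC0 Γ c E e r D ≤ ZC0 Γ' c E e r D :=
  fun _ hb => ⟨fun p hp => ⟨(hb.1 p hp).1, fun i => h ((hb.1 p hp).2 i)⟩, hb.2⟩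

theorem tS_apply (c : CM) (E : WeierstrassCurve Qb) (s : Sb r D × Sb r (D + 1))
    (b : PC E r D →₀ ℤ) :
    tS c E s b = b.sum fun p m => m • ∑ i, smk (c.w E) (coef c E p.1 s i) (p.2 i) := rfl

theorem pair_step {A : Type} [AddCommGroup A] (a b t : ℤ) (x y : A) :
    a • x + b • (t • x + (-1 : ℤ) • y) = (a + t * b) • x + (-b) • y := by
  rw [smul_add, smul_smul, smul_smul, add_smul, mul_comm b t, mul_neg, mul_one]
  abel

theorem gal_smk {c : CM} {E : WeierstrassCurve K} {e : (Qb ≃ₐ[K] Qb) → Bool}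
    (he : GalW c E e) (σ : Qb ≃ₐ[K] Qb) (p : ℤ × ℤ) (P : (E⁄Qb).toAffine.Point) :
    gal σ (smk (c.w (E⁄Qb)) p P) =
      smk (c.w (E⁄Qb)) (pc (c.t (E⁄Qb)) (e σ) p) (gal σ P) := by
  have h1 := he σ P
  cases h : e σ
  · rw [h, pc_false, smk] at h1
    rw [pc_false, smk, smk, map_add, map_zsmul, map_zsmul, h1]
    simp
  · rw [h, pc_true, smk] at h1
    rw [pc_true, smk, smk, map_add, map_zsmul, map_zsmul, h1]
    simp only [mul_one, zero_add]
    exact pair_step _ _ _ _ _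

theorem coef_ac (c : CM) (E : WeierstrassCurve Qb) (ε : Bool)
    (N : Matrix (Fin r) (Fin D) (ℤ × ℤ)) (s : Sb r D × Sb r (D + 1)) (i : Fin r) :
    tc (c.ω E) (coef c E (N.map (pc (c.t E) ε)) s i) =
      tc (c.ω E) (pc (c.t E) ε (coef c E N s i)) := by
  rw [coef_spec, tc_pc (c.trace E), coef_spec, map_tc_pc (c.trace E), ← Xv_cjB, cjB_single]

theorem gal_tS {c : CM} {E : WeierstrassCurve K} {e : (Qb ≃ₐ[K] Qb) → Bool}
    (he : GalW c E e) (s : Sb r D × Sb r (D + 1)) (σ : Qb ≃ₐ[K] Qb)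
    (b : PC (E⁄Qb) r D →₀ ℤ) : gal σ (tS c (E⁄Qb) s b) =
      tS c (E⁄Qb) s (b.mapDomain (ac c E (e σ) σ)) := by
  induction b using Finsupp.induction_linear with
  | zero => rw [map_zero, map_zero, Finsupp.mapDomain_zero, map_zero]
  | add b b' h h' => rw [Finsupp.mapDomain_add, map_add, map_add, map_add, h, h']
  | single p m =>
    rw [Finsupp.mapDomain_single, tS_single, tS_single, map_zsmul, map_sum]
    congr 1
    refine Finset.sum_congr rfl fun i _ => ?_
    rw [gal_smk he]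
    exact (smk_congr c (E⁄Qb) (coef_ac c (E⁄Qb) (e σ) p.1 s i) _).symm

theorem tS_mem {Γ : Grid} {c : CM} {E : WeierstrassCurve K}
    (hS : ∀ P ∈ Γ (E⁄Qb), (c.w (E⁄Qb)).k0 P ∈ Γ (E⁄Qb)) {e : (Qb ≃ₐ[K] Qb) → Bool}
    (he : GalW c E e) (s : Sb r D × Sb r (D + 1)) (b : PC (E⁄Qb) r D →₀ ℤ)
    (hb : b ∈ ZC0 Γ c E e r D) : tS c (E⁄Qb) s b ∈ GKg Γ E := by
  refine ⟨?_, fun σ => ?_⟩
  · rw [tS_apply]
    refine sum_mem fun p hp => zsmul_mem (sum_mem fun i _ => ?_) _
    have h1 := (hb.1 p hp).2 i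
    exact add_mem (zsmul_mem h1 _) (zsmul_mem (hS _ h1) _)
  · show gal σ _ = _
    rw [gal_tS he, hb.2.1 σ]

/-! ### the formula of Cauchy and Binet, non-degeneracy -/

theorem det_mJ (M N : Matrix (Fin r) (Fin D) ℂ) (z v : Fin r → ℂ) :
    ((Matrix.fromCols M (Matrix.replicateCol Unit z)).transpose *
      Matrix.fromCols N (Matrix.replicateCol Unit v)).det = ∑ J, mJ M z J * mJ N v J := by
  have h1 : ∀ (N : Matrix (Fin r) (Fin D) ℂ) (v : Fin r → ℂ) (J : Sb r (D + 1)),
      (((Matrix.fromCols N (Matrix.replicateCol Unit v)).submatrix id (LibMul34.ix D).symm).submatrix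
        (J.1.orderEmbOfFin J.2) id).det = mJ N v J := by
    intro N v J
    rw [← Matrix.det_submatrix_equiv_self (LibMul34.ix D)]
    unfold mJ
    congr 1
    ext i j
    simp
  have h2 := LibAC84C.cauchyBinet
    ((Matrix.fromCols M (Matrix.replicateCol Unit z)).submatrix id (LibMul34.ix D).symm)
    ((Matrix.fromCols N (Matrix.replicateCol Unit v)).submatrix id (LibMul34.ix D).symm)
  simp only [h1] at h2
  rw [← h2, ← Matrix.det_submatrix_equiv_self (LibMul34.ix D)
    ((((Matrix.fromCols M (Matrix.replicateCol Unit z)).submatrix id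
      (LibMul34.ix D).symm)).transpose * _)]
  congr 1
  ext i j
  simp [Matrix.mul_apply]

/-- the formula of Cauchy and Binet for the numbers of the theorem on cycles of all dimensions -/
theorem num_eq (M N : Matrix (Fin r) (Fin D) ℂ) (z v : Fin r → ℂ) :
    conj (M.transpose * N).det * ((Matrix.fromCols M (Matrix.replicateCol Unit z)).transpose *
      Matrix.fromCols N (Matrix.replicateCol Unit v)).det = ∑ s, Xv M z s * Xv N v s := by
  rw [det_mJ, LibAC84C.cauchyBinet, map_sum, Fintype.sum_prod_type, Finset.sum_mul]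
  refine Finset.sum_congr rfl fun I _ => ?_
  rw [Finset.mul_sum]
  refine Finset.sum_congr rfl fun J _ => ?_
  unfold Xv mI
  rw [map_mul]
  ring

theorem conj_det {ι : Type} [Fintype ι] [DecidableEq ι] (A : Matrix ι ι ℂ) :
    conj A.det = (A.map conj).det := by
  have h := RingHom.map_det (starRingEnd ℂ) A
  exact h

/-- non-degeneracy: a combination of vectors `Xv N v` which is orthogonal to the vectors `Xv M z` with
integral `z` is zero -/
theorem nondeg (ω : ℂ) {t n : ℤ} (ht : ω + conj ω = t) (hω : ω.im = 0 → ω = 0) {J : Type} [Fintype J]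
    (m : J → ℂ) (N : J → Matrix (Fin r) (Fin D) (ℤ × ℤ)) (v : J → Fin r → ℂ)
    (hN : ∀ j, ω.im = 0 → ∀ i a, (N j i a).2 = 0)
    (h : ∀ M : Matrix (Fin r) (Fin D) (ℤ × ℤ), (ω.im = 0 → ∀ i a, (M i a).2 = 0) →
      ∀ z : Fin r → ℤ, ∑ s, Xv (M.map (tc ω)) (fun i => (z i : ℂ)) s *
        ∑ j, m j * Xv ((N j).map (tc ω)) (v j) s = 0)
    (s : Sb r D × Sb r (D + 1)) : ∑ j, m j * Xv ((N j).map (tc ω)) (v j) s = 0 := by
  set Z : Sb r D × Sb r (D + 1) → ℂ := fun s => ∑ j, m j * Xv ((N j).map (tc ω)) (v j) s with hZ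
  let Nb : J → Matrix (Fin r) (Fin D) (ℤ × ℤ) := fun j i a =>
    ((N j i a).1 + t * (N j i a).2, -(N j i a).2)
  have hNb : ∀ j, (Nb j).map (tc ω) = ((N j).map (tc ω)).map conj := by
    intro j
    ext i a
    rw [Matrix.map_apply, Matrix.map_apply, Matrix.map_apply, tc_conj ht]
  have hconj : ∀ j s, conj (Xv ((N j).map (tc ω)) (v j) s) =
      Xv ((Nb j).map (tc ω)) (fun i => conj (v j i)) s := by
    intro j s
    unfold Xv mI mJ
    rw [map_mul, hNb, Complex.conj_conj, conj_det, conj_det, Matrix.submatrix_map,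
      Matrix.map_map]
    have h1 : ((N j).map (tc ω)).map (⇑(starRingEnd ℂ) ∘ ⇑(starRingEnd ℂ)) = (N j).map (tc ω) := by
      ext i a
      simp
    congr 2
    · ext i a
      simp
    · ext i a
      rcases h2 : a with a | a
      · simp
      · simp
  have key : ∑ s, conj (Z s) * Z s = 0 := by
    have h1 : ∀ s, conj (Z s) * Z s = ∑ j, ∑ i, conj (m j) * conj (v j i) *
        (Xv ((Nb j).map (tc ω)) (Pi.single i 1) s * Z s) := by
      intro s
      have h2 : conj (Z s) = ∑ j, conj (m j) * Xv ((Nb j).map (tc ω)) (fun i => conj (v j i)) s := by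
        rw [hZ]
        simp only [map_sum, map_mul, hconj]
      rw [h2, Finset.sum_mul]
      refine Finset.sum_congr rfl fun j _ => ?_
      generalize Z s = z
      rw [Xv_lin, Finset.mul_sum, Finset.sum_mul]
      refine Finset.sum_congr rfl fun i _ => ?_
      ring
    rw [Finset.sum_congr rfl fun s _ => h1 s, Finset.sum_comm]
    refine Finset.sum_eq_zero fun j _ => ?_
    rw [Finset.sum_comm]
    refine Finset.sum_eq_zero fun i _ => ?_
    rw [← Finset.mul_sum]
    have h2 := h (Nb j) (fun h0 x a => by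
      show -(N j x a).2 = 0
      rw [hN j h0, neg_zero]) (Pi.single i 1)
    have h3 : (fun x => ((Pi.single i 1 : Fin r → ℤ) x : ℂ)) = Pi.single i 1 := by
      funext x
      by_cases h4 : x = i
      · subst h4
        simp
      · simp [Pi.single_eq_of_ne h4]
    rw [h3] at h2
    rw [h2, mul_zero]
  have h1 : ∀ s, conj (Z s) * Z s = ((Complex.normSq (Z s) : ℝ) : ℂ) := by
    intro s
    rw [mul_comm, Complex.mul_conj]
  rw [Finset.sum_congr rfl fun s _ => h1 s, ← Complex.ofReal_sum] at key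
  have h2 : ∑ s, Complex.normSq (Z s) = 0 := by exact_mod_cast key
  have h3 := (Finset.sum_eq_zero_iff_of_nonneg fun s _ => Complex.normSq_nonneg (Z s)).1 h2 s
    (Finset.mem_univ s)
  exact Complex.normSq_eq_zero.1 h3

theorem clCF_eq (c : CM) {E : WeierstrassCurve Qb} (r : ℕ) {F : Type} [Field F]
    [Algebra Qb F] (ξ : ∀ _ : Fin D, (E⁄F).toAffine.Point) (b : PC E r D →₀ ℤ) :
    clCF c r ξ b = ∑ j : b.support, b j.1 • clC c.w (Algebra.ofId Qb F) D (fun _ => Hm.id E) ξ
      (org _) j.1.1 j.1.2 := by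
  have h1 : clCF c r ξ b = b.sum fun p m => m • clC c.w (Algebra.ofId Qb F) D (fun _ => Hm.id E) ξ
      (org _) p.1 p.2 := rfl
  rw [h1, Finsupp.sum, ← Finset.sum_coe_sort]

end Pool.Agent.LibER34
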