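import Pool.Agent.LibER34.LA
import Pool.Agent.LibER34.Tst
import Pool.Agent.LibAF11.Bridge
import Pool.Agent.LibAF11.Red3

/-!
The intrinsic groups and the groups given by matrices: preparations.
-/

open WeierstrassCurve Pool.Agent.LibBH2 Pool.Agent.LibIG50 Pool.Agent.LibCHd Pool.Agent.LibGG
  Pool.Agent.LibAC34 Pool.Agent.LibAF11
open scoped Classical ComplexConjugate

namespace Pool.Agent.LibER34

/-- comparison of ranks of subgroups -/
theorem rank_mono_mul {G : Type} [AddCommGroup G] (A B : AddSubgroup G)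
    (h : ∀ a ∈ A, ∃ n : ℤ, n ≠ 0 ∧ n • a ∈ B) : Module.rank ℤ A ≤ Module.rank ℤ B := by
  rw [Module.rank_def, Module.rank_def]
  refine ciSup_le' fun ⟨s, hs⟩ => ?_
  choose n hn hB using fun a : A => h a.1 a.2
  have hi : LinearIndependent ℤ (fun a : s => (⟨n a.1 • a.1.1, hB a.1⟩ : B)) := by
    have h1 : LinearIndependent ℤ (fun a : s => n a.1 • (a.1 : A)) := by
      have hs' : LinearIndependent ℤ (fun a : s => (a : A)) := hs
      rw [linearIndependent_iff'] at hs' ⊢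
      intro t c hc i hi
      have h2 := hs' t (fun a => c a * n a.1) (by
        rw [← hc]
        exact Finset.sum_congr rfl fun a _ => by rw [mul_smul]) i hi
      rcases mul_eq_zero.1 h2 with h3 | h3
      · exact h3
      · exact absurd h3 (hn _)
    have h2 : LinearIndependent ℤ (fun a : s => ((n a.1 • (a.1 : A) : A) : G)) :=
      h1.map' A.subtype.toIntLinearMap (LinearMap.ker_eq_bot.2 Subtype.val_injective)
    exact LinearIndependent.of_comp (B.subtype.toIntLinearMap) h2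
  have h3 := hi.cardinal_le_rank
  rwa [Module.rank_def] at h3

/-- comparison of ranks -/
theorem rk_le {G : Type} [AddCommGroup G] (S : Set G) (B : AddSubgroup G)
    (h : ∀ a ∈ S, ∃ n : ℤ, n ≠ 0 ∧ ∃ b ∈ B, IsOfFinAddOrder (n • a - b)) :
    rk S ≤ Module.rank ℤ B := by
  refine rank_mono_mul _ _ fun a ha => ?_
  have h1 : ∀ a ∈ AddSubgroup.closure S, ∃ n : ℤ, n ≠ 0 ∧ n • a ∈ B := by
    intro a ha
    induction ha using AddSubgroup.closure_induction with
    | mem a ha =>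
      obtain ⟨n, hn, b, hb, ht⟩ := h a ha
      obtain ⟨m, hm, hm'⟩ := isOfFinAddOrder_iff_nsmul_eq_zero.1 ht
      refine ⟨(m : ℤ) * n, mul_ne_zero (by exact_mod_cast hm.ne') hn, ?_⟩
      rw [nsmul_sub, sub_eq_zero] at hm'
      have h2 : ((m : ℤ) * n) • a = m • b := by
        rw [mul_smul, natCast_zsmul]
        exact hm'
      rw [h2]
      exact B.nsmul_mem hb m
    | zero => exact ⟨1, one_ne_zero, by rw [smul_zero]; exact B.zero_mem⟩
    | add a b _ _ iha ihb =>
      obtain ⟨n, hn, hn'⟩ := iha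
      obtain ⟨m, hm, hm'⟩ := ihb
      refine ⟨n * m, mul_ne_zero hn hm, ?_⟩
      rw [smul_add]
      refine B.add_mem ?_ ?_
      · rw [mul_comm, mul_smul]
        exact B.zsmul_mem hn' m
      · rw [mul_smul]
        exact B.zsmul_mem hm' n
    | neg a _ iha =>
      obtain ⟨n, hn, hn'⟩ := iha
      exact ⟨n, hn, by rw [smul_neg]; exact B.neg_mem hn'⟩
  exact h1 a ha

/-- comparison of ranks -/
theorem le_rk {G : Type} [AddCommGroup G] (S : Set G) (B : AddSubgroup G)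
    (h : ∀ b ∈ B, ∃ a ∈ S, b = a) : Module.rank ℤ B ≤ rk S := by
  refine rank_mono_mul _ _ fun b hb => ⟨1, one_ne_zero, ?_⟩
  obtain ⟨a, ha, rfl⟩ := h b hb
  rw [one_smul]
  exact AddSubgroup.subset_closure ha

variable {r D : ℕ} {k : Type} [Field k]

/-- the homomorphisms given by a matrix of pairs -/
noncomputable def hN {E : WeierstrassCurve k} [E.IsElliptic] (w : Hm E E) {s : ℕ}
    (N : Matrix (Fin s) (Fin D) (ℤ × ℤ)) : Homs (fun _ : Fin D => E) (fun _ : Fin s => E) :=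
  fun i a => ofHm (pr w (N i a) : Hm E E)

/-- the product of matrices of pairs, for `w ^ 2 = t w - n` -/
noncomputable def mulP (t n : ℤ) {s : ℕ} (M : Matrix (Fin s) (Fin r) (ℤ × ℤ))
    (N : Matrix (Fin r) (Fin D) (ℤ × ℤ)) : Matrix (Fin s) (Fin D) (ℤ × ℤ) :=
  fun i a => ∑ j, ((M i j).1 * (N j a).1 - n * ((M i j).2 * (N j a).2),
    (M i j).1 * (N j a).2 + (M i j).2 * (N j a).1 + t * ((M i j).2 * (N j a).2))

theorem tc_sum {ω : ℂ} {ι : Type} (s : Finset ι) (f : ι → ℤ × ℤ) :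
    tc ω (∑ j ∈ s, f j) = ∑ j ∈ s, tc ω (f j) := by
  simp only [tc, Prod.fst_sum, Prod.snd_sum, Int.cast_sum, Finset.sum_mul,
    Finset.sum_add_distrib]

theorem mulP_tc {ω : ℂ} {t n : ℤ} (ht : ω + conj ω = t) (hn : ω * conj ω = n) {s : ℕ}
    (M : Matrix (Fin s) (Fin r) (ℤ × ℤ)) (N : Matrix (Fin r) (Fin D) (ℤ × ℤ)) :
    (mulP t n M N).map (tc ω) = M.map (tc ω) * N.map (tc ω) := by
  have h2 : ω * ω = t * ω - n := by
    rw [← ht, ← hn]
    ring
  ext i a
  rw [Matrix.map_apply, Matrix.mul_apply]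
  show tc ω (∑ j, _) = _
  rw [tc_sum]
  refine Finset.sum_congr rfl fun j _ => ?_
  rw [Matrix.map_apply, Matrix.map_apply]
  unfold tc
  push_cast
  linear_combination (-((M i j).2 * (N j a).2 : ℂ)) * h2

theorem sm_sum {E : WeierstrassCurve k} (w : Hm E E) {ι : Type} (s : Finset ι)
    (f : ι → ℤ × ℤ) (F : Type) [Field F] [Algebra k F] (P : (E⁄F).toAffine.Point) :
    sm w F (∑ j ∈ s, f j) P = ∑ j ∈ s, sm w F (f j) P := by
  induction s using Finset.induction_on with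
  | empty =>
    rw [Finset.sum_empty, Finset.sum_empty, sm_apply, Prod.fst_zero, Prod.snd_zero, zero_smul,
      zero_smul, add_zero]
  | insert a s ha ih => rw [Finset.sum_insert ha, Finset.sum_insert ha, sm_add', ih]

theorem mulP_sm {E : WeierstrassCurve k} {w : Hm E E} {t n : ℤ} (hw : Quad w t n) {s : ℕ}
    (M : Matrix (Fin s) (Fin r) (ℤ × ℤ)) (N : Matrix (Fin r) (Fin D) (ℤ × ℤ)) (i : Fin s)
    (a : Fin D) (F : Type) [Field F] [Algebra k F] (P : (E⁄F).toAffine.Point) :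
    sm w F (mulP t n M N i a) P = ∑ j, sm w F (M i j) (sm w F (N j a) P) := by
  show sm w F (∑ j, _) P = _
  rw [sm_sum]
  refine Finset.sum_congr rfl fun j _ => ?_
  simp only [sm_apply, map_add, map_zsmul, hw F P]
  module

/-- the real multiplications -/
theorem mulP_real {t n : ℤ} {s : ℕ} (M : Matrix (Fin s) (Fin r) (ℤ × ℤ))
    (N : Matrix (Fin r) (Fin D) (ℤ × ℤ)) (hM : ∀ i a, (M i a).2 = 0) (hN : ∀ i a, (N i a).2 = 0)
    (i : Fin s) (a : Fin D) : (mulP t n M N i a).2 = 0 := by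
  show (∑ j, _ : ℤ × ℤ).2 = 0
  rw [Prod.snd_sum]
  refine Finset.sum_eq_zero fun j _ => ?_
  simp only [hM, hN, mul_zero, zero_mul, add_zero]

theorem cast2 {r : ℕ} {W : Fin r → WeierstrassCurve Qb} {Y : Prj Qb} {F : Type} [Field F]
    [Algebra Qb F] (a b : ℤ) (u u' : Pnt W Y F) {n n' : ℕ} (h : n = n') :
    IsOfFinAddOrder (a • (QuotientAddGroup.mk (cyc u) : CH W Y n) -
      b • (QuotientAddGroup.mk (cyc u') : CH W Y n)) ↔
      IsOfFinAddOrder (a • (QuotientAddGroup.mk (cyc u) : CH W Y n') -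
        b • (QuotientAddGroup.mk (cyc u') : CH W Y n')) := by
  subst h
  rfl

/-- `cls_smul` for the function field of the product -/
theorem step {V : Fin D → WeierstrassCurve Qb} (hV : ∀ a, (V a).IsElliptic) {F : Type} [Field F]
    [Algebra Qb F] (ξ : ∀ a, ((V a)⁄F).toAffine.Point) (hξ : IsGen 0 (Algebra.ofId Qb F) V ξ)
    {r : ℕ} {W : Fin r → WeierstrassCurve Qb} (hW : ∀ i, (W i).IsElliptic) (n : ℤ)
    (N N' : Mor V W)
    (hN : ∀ i a (F : Type) [Field F] [Algebra Qb F] (P : ((V a)⁄F).toAffine.Point),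
      (N' i a).f F P = n • (N i a).f F P) (g : Pts W) :
    IsOfFinAddOrder (n ^ (2 * D) • cls (Algebra.ofId Qb F) D ξ (org W) N g -
      cls (Algebra.ofId Qb F) D ξ (org W) N' g) := by
  have h1 := cls_smul hξ hV hW n N N' hN g (org W)
  have h2 := h1.neg
  rw [neg_sub] at h2
  unfold LibAF11.cls at h2 ⊢
  have h3 := (cast2 (n ^ (2 * D)) 1 (pnt (Algebra.ofId Qb F) ξ N g (org W))
    (pnt (Algebra.ofId Qb F) ξ N' g (org W)) (zero_add D)).1
  rw [one_smul, one_smul] at h3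
  exact h3 h2

theorem clC_cls (c : CM) {E : WeierstrassCurve Qb} (hE : E.IsElliptic) {F : Type} [Field F]
    [Algebra Qb F] (ξ : ∀ _ : Fin D, (E⁄F).toAffine.Point)
    (N' : Matrix (Fin r) (Fin D) (ℤ × ℤ)) (g : Pts (fun _ : Fin r => E)) :
    clC c.w (Algebra.ofId Qb F) D (fun _ => Hm.id E) ξ (org _) N' g =
      cls (Algebra.ofId Qb F) D ξ (org _) (fun i a => pr (c.w E) (N' i a)) g := by
  have h1 := @pnt_linC D r Qb _ (fun _ : Fin D => E) (fun _ : Fin r => E)
    (fun _ : Fin r => E) (fun _ => hE) c.w (fun _ => Hm.id E) N' g g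
    (fun i => k0_id (g i)) Qb F _ _ _ _ (Algebra.ofId Qb F) ξ (pt0 Qb) (org _)
  unfold clC LibAF11.cls
  rw [← h1]
  rfl

/-- the cycle of `N ξ + g` up to a multiple, for a homomorphism `N` with `Q' N = N'` -/
theorem cls_step (c : CM) {E : WeierstrassCurve Qb} (hE : E.IsElliptic) {F : Type} [Field F]
    [Algebra Qb F] (ξ : ∀ _ : Fin D, (E⁄F).toAffine.Point)
    (hξ : IsGen 0 (Algebra.ofId Qb F) (fun _ : Fin D => E) ξ)
    (N : Homs (fun _ : Fin D => E) (fun _ : Fin r => E)) (N' : Matrix (Fin r) (Fin D) (ℤ × ℤ))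
    (Q' : ℤ) (hN : ∀ i a (F : Type) [Field F] [Algebra Qb F] (P : (E⁄F).toAffine.Point),
      Q' • (N i a).f F P = sm (c.w E) F (N' i a) P)
    (g : Pts (fun _ : Fin r => E)) :
    IsOfFinAddOrder (Q' ^ (2 * D) • (QuotientAddGroup.mk
        (cyc (pntH (Algebra.ofId Qb F) ξ (org _) N g)) :
          CH (fun _ : Fin r => E) (pt0 Qb) D) -
      clC c.w (Algebra.ofId Qb F) D (fun _ => Hm.id E) ξ (org _) N' g) := by
  rw [clC_cls c hE]
  refine step (fun _ => hE) ξ hξ (fun _ => hE) Q' (fun i a => (N i a).toHm) _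
    (fun i a F _ _ P => ?_) g
  rw [pr_f, tr_self]
  exact (hN i a F P).symm

theorem img_pnt' {V : Fin D → WeierstrassCurve Qb} {W : Fin r → WeierstrassCurve Qb} {s : ℕ}
    {X : Fin s → WeierstrassCurve Qb} (hX : ∀ x, (X x).IsElliptic) (f : Mor W X) (M : Mor V W)
    (g : Pts W) {F : Type} [Field F] [Algebra Qb F] (ξ : ∀ a, ((V a)⁄F).toAffine.Point) :
    img f (pnt (Algebra.ofId Qb F) ξ M g (org W)) =
      pnt (Algebra.ofId Qb F) ξ (mc hX f M) (fun x => ∑ i, (f x i).k0 (g i)) (org X) := by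
  apply pnt_ext
  · funext x
    show ∑ i, (f x i).f F (constPt F (g i) + (∑ a, (M i a).f F (ξ a) +
      mp (Algebra.ofId Qb F) 0)) = constPt F (∑ i, (f x i).k0 (g i)) +
      (∑ a, (mc hX f M x a).f F (ξ a) + mp (Algebra.ofId Qb F) 0)
    have h1 : (constPt F (∑ i, (f x i).k0 (g i)) : ((X x)⁄F).toAffine.Point) =
        ∑ i, constPt F ((f x i).k0 (g i)) :=
      map_sum (AddMonoidHom.mk' (constPt F) (HG_const_add F) : (X x).toAffine.Point →+ _) _ _
    have h2 : ∑ a, (mc hX f M x a).f F (ξ a) =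
        ∑ i, ∑ a, (f x i).f F ((M i a).f F (ξ a)) := by
      rw [Finset.sum_comm]
      exact Finset.sum_congr rfl fun a _ => mc_f hX _ M x a F (ξ a)
    rw [h1, h2]
    simp only [mp_zero, add_zero]
    rw [← Finset.sum_add_distrib]
    refine Finset.sum_congr rfl fun i _ => ?_
    rw [map_add, map_sum, (f x i).const]
  · rfl

/-- The cycle of `f (N ξ + g)` up to a multiple, for a homomorphism `f` with `Q f = M` and a
homomorphism `N` with `Q' N = N'`. -/
theorem dir_step (c : CM) {E : WeierstrassCurve Qb} (hE : E.IsElliptic) {F : Type} [Field F]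
    [Algebra Qb F] (ξ : ∀ _ : Fin D, (E⁄F).toAffine.Point)
    (hξ : IsGen 0 (Algebra.ofId Qb F) (fun _ : Fin D => E) ξ)
    (f : Homs (fun _ : Fin r => E) (fun _ : Fin D => E)) (M : Matrix (Fin D) (Fin r) (ℤ × ℤ))
    (Q : ℤ) (hf : ∀ a i (F : Type) [Field F] [Algebra Qb F] (P : (E⁄F).toAffine.Point),
      Q • (f a i).f F P = sm (c.w E) F (M a i) P)
    (N : Homs (fun _ : Fin D => E) (fun _ : Fin r => E)) (N' : Matrix (Fin r) (Fin D) (ℤ × ℤ))
    (Q' : ℤ) (hN : ∀ i a (F : Type) [Field F] [Algebra Qb F] (P : (E⁄F).toAffine.Point),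
      Q' • (N i a).f F P = sm (c.w E) F (N' i a) P)
    (g : Pts (fun _ : Fin r => E)) :
    IsOfFinAddOrder ((Q * Q') ^ (2 * D) • (QuotientAddGroup.mk
        (cyc (imgH f (pntH (Algebra.ofId Qb F) ξ (org _) N g))) :
          CH (fun _ : Fin D => E) (pt0 Qb) D) -
      clC c.w (Algebra.ofId Qb F) D (fun _ => Hm.id E) ξ (org _) (mulP (c.t E) (c.n E) M N')
        (fun a => ∑ i, (f a i).toHm.k0 (g i))) := by
  rw [clC_cls c hE]
  have h1 := img_pnt' (fun _ : Fin D => hE) (fun a i => (f a i).toHm) (fun i a => (N i a).toHm) g ξ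
  have h2 := step (fun _ : Fin D => hE) ξ hξ (fun _ : Fin D => hE) (Q * Q')
    (mc (fun _ : Fin D => hE) (fun a i => (f a i).toHm) (fun i a => (N i a).toHm))
    (fun a b => pr (c.w E) (mulP (c.t E) (c.n E) M N' a b))
    (fun a b F _ _ P => ?_) (fun a => ∑ i, (f a i).toHm.k0 (g i))
  · unfold LibAF11.cls at h2
    rw [← h1] at h2
    exact h2
  · rw [pr_f, tr_self, mulP_sm (c.quad E), mc_f, Finset.smul_sum]
    refine Finset.sum_congr rfl fun i _ => ?_
    have h3 := hf a i F (sm (c.w E) F (N' i b) P)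
    have h4 := hN i b F P
    rw [← h3, ← h4]
    show Q • (f a i).toHm.f F (Q' • (N i b).f F P) = (Q * Q') • (f a i).toHm.f F ((N i b).f F P)
    rw [map_zsmul, mul_smul]

end Pool.Agent.LibER34
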