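import Pool.Agent.LibER34.Tr0
import Pool.Agent.LibER34.Un

/-!
The intrinsic groups and the groups given by matrices: first inequality.
-/

open WeierstrassCurve Pool.Agent.LibBH2 Pool.Agent.LibIG50 Pool.Agent.LibCHd Pool.Agent.LibGG
  Pool.Agent.LibAC34 Pool.Agent.LibAF11
open scoped Classical ComplexConjugate

namespace Pool.Agent.LibER34

theorem sum_fin {α : Type 1} {M : Type} [AddCommMonoid M] (c : α →₀ ℤ) (h : α → ℤ → M) :
    c.sum h = ∑ j : Fin c.support.card,
      h (c.support.equivFin.symm j).1 (c (c.support.equivFin.symm j).1) := by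
  rw [Finsupp.sum, ← Finset.sum_coe_sort, ← Equiv.sum_comp c.support.equivFin.symm]

/-- a torsion criterion -/
theorem tors_of_smul {G : Type} [AddCommGroup G] {x y : G} {n : ℤ}
    (h : IsOfFinAddOrder (n • x - y)) (hx : IsOfFinAddOrder x) : IsOfFinAddOrder y := by
  have h1 : y = n • x - (n • x - y) := by abel
  rw [h1]
  exact (AddCommGroup.torsion G).sub_mem hx.zsmul h

theorem tors_fin_sum {G J : Type} [AddCommGroup G] [Fintype J] (m : J → ℤ) (a b : J → G) (n : ℤ)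
    (h : ∀ j, IsOfFinAddOrder (n • a j - b j)) :
    IsOfFinAddOrder (n • ∑ j, m j • a j - ∑ j, m j • b j) := by
  have e : n • ∑ j, m j • a j - ∑ j, m j • b j = ∑ j, m j • (n • a j - b j) := by
    rw [Finset.smul_sum, ← Finset.sum_sub_distrib]
    refine Finset.sum_congr rfl fun j _ => ?_
    rw [smul_sub, smul_comm]
  rw [e]
  exact (AddCommGroup.torsion G).sum_mem fun j _ => (AddCommGroup.torsion G).zsmul_mem (h j) (m j)

variable {r D : ℕ}

/-- matrices of pairs for finitely many homomorphisms -/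
theorem exists_NP {c : CM} (hc : Full c) {E : WeierstrassCurve Qb} (hE : E.IsElliptic)
    (T : Finset (Homs (fun _ : Fin D => E) (fun _ : Fin r => E))) :
    ∃ (Q : ℕ) (NP : Homs (fun _ : Fin D => E) (fun _ : Fin r => E) →
        Matrix (Fin r) (Fin D) (ℤ × ℤ)), 0 < Q ∧
      (∀ N, MatC c (fun _ : Fin D => E) (fun _ : Fin r => E) (NP N)) ∧
      ∀ N ∈ T, ∀ i a (F : Type) [Field F] [Algebra Qb F] (P : (E⁄F).toAffine.Point),
        (Q : ℤ) • (N i a).f F P = sm (c.w E) F (NP N i a) P := by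
  obtain ⟨Q, hQ, p, -, h2, h3⟩ := family_pair hc (X := Fin T.card × Fin r × Fin D)
    (fun _ => E) (fun _ => E) (fun _ => hE) (fun _ => hE) (fun _ _ => rfl)
    (fun x => ((T.equivFin.symm x.1).1 x.2.1 x.2.2).toHm)
  refine ⟨Q, fun N i a => if h : N ∈ T then p (T.equivFin ⟨N, h⟩, i, a) else 0, hQ,
    fun N i a => ⟨fun h => absurd rfl h, fun h => ?_⟩, fun N hN i a F _ _ P => ?_⟩
  · dsimp only
    split_ifs with h4
    · exact h2 _ h
    · rfl
  · show (Q : ℤ) • (N i a).f F P =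
      sm (c.w E) F (if h : N ∈ T then p (T.equivFin ⟨N, h⟩, i, a) else 0) P
    rw [dif_pos hN]
    have h4 := h3 (T.equivFin ⟨N, hN⟩, i, a) F P
    rw [tr_self] at h4
    rw [natCast_zsmul, ← h4]
    have h5 : (T.equivFin.symm (T.equivFin ⟨N, hN⟩)).1 = N := by
      rw [Equiv.symm_apply_apply]
    show Q • (N i a).f F P = Q • ((T.equivFin.symm (T.equivFin ⟨N, hN⟩)).1 i a).f F P
    rw [h5]

/-- the identity matrix of pairs -/
def oneP (D : ℕ) : Matrix (Fin D) (Fin D) (ℤ × ℤ) := fun i a => if i = a then (1, 0) else 0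

theorem oneP_tc (ω : ℂ) (D : ℕ) : (oneP D).map (tc ω) = 1 := by
  ext i a
  rw [Matrix.map_apply, oneP, Matrix.one_apply]
  split_ifs with h
  · simp [tc]
  · simp [tc]

theorem cx_tc (c : CM) (E : WeierstrassCurve Qb) (N : Matrix (Fin r) (Fin D) (ℤ × ℤ)) :
    cx c (fun _ => E) N = N.map (tc (c.ω E)) := rfl

/-- the numbers are zero if the images under all homomorphisms are torsion -/
theorem nmb_zero {c : CM} {E : WeierstrassCurve Qb} (hE : E.IsElliptic) {F : Type} [Field F]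
    [Algebra Qb F] (ξ : ∀ _ : Fin D, (E⁄F).toAffine.Point)
    (hξ : IsGen 0 (Algebra.ofId Qb F) (fun _ : Fin D => E) ξ) {J : Type} [Fintype J] (m : J → ℤ)
    (N : J → Homs (fun _ : Fin D => E) (fun _ : Fin r => E)) (g : J → Pts (fun _ : Fin r => E))
    (NP : J → Matrix (Fin r) (Fin D) (ℤ × ℤ)) (Q : ℤ)
    (hmat : ∀ j, MatC c (fun _ : Fin D => E) (fun _ : Fin r => E) (NP j))
    (hN : ∀ j i a (F : Type) [Field F] [Algebra Qb F] (P : (E⁄F).toAffine.Point),
      Q • (N j i a).f F P = sm (c.w E) F (NP j i a) P)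
    (h : ∀ f : Homs (fun _ : Fin r => E) (fun _ : Fin D => E),
      IsOfFinAddOrder (∑ j, m j • (QuotientAddGroup.mk
        (cyc (imgH f (pntH (Algebra.ofId Qb F) ξ (org _) (N j) (g j)))) :
          CH (fun _ : Fin D => E) (pt0 Qb) D)))
    (M : Matrix (Fin r) (Fin D) (ℤ × ℤ))
    (hM : MatC c (fun _ : Fin D => E) (fun _ : Fin r => E) M) :
    ∑ j, (m j : ℝ) * Complex.normSq
      ((cx c (fun _ => E) M).transpose * cx c (fun _ => E) (NP j)).det = 0 := by
  have hE' := hE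
  have h1 := h (fun a i => ofHm (pr (c.w E) (M i a)))
  have h2 : ∀ j, IsOfFinAddOrder (((1 * Q) ^ (2 * D)) • (QuotientAddGroup.mk
        (cyc (imgH (fun a i => ofHm (pr (c.w E) (M i a)))
          (pntH (Algebra.ofId Qb F) ξ (org _) (N j) (g j)))) :
          CH (fun _ : Fin D => E) (pt0 Qb) D) -
      clC c.w (Algebra.ofId Qb F) D (fun _ => Hm.id E) ξ (org _)
        (mulP (c.t E) (c.n E) M.transpose (NP j))
        (fun a => ∑ i, (ofHm (pr (c.w E) (M i a)) : Hom E E).toHm.k0 (g j i))) := by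
    intro j
    refine dir_step c hE ξ hξ (fun a i => ofHm (pr (c.w E) (M i a))) M.transpose 1
      (fun a i F _ _ P => ?_) (N j) (NP j) Q (hN j) (g j)
    rw [one_smul]
    show sm (c.w E) F (M i a) (tr E E P) = sm (c.w E) F (M i a) P
    rw [tr_self]
  have h3 := tors_of_smul (tors_fin_sum m _ _ _ h2) h1
  have h4 := (convC c (fun _ : Fin D => E) (fun _ => hE) (fun _ : Fin D => E) (fun _ => hE) F ξ hξ J
    m (fun j => mulP (c.t E) (c.n E) M.transpose (NP j))
    (fun j a => ∑ i, (ofHm (pr (c.w E) (M i a)) : Hom E E).toHm.k0 (g j i))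
    (fun j i a => ⟨fun h => absurd rfl h, fun h => mulP_real _ _
      (fun a i => (hM i a).2 h) (fun i a => (hmat j i a).2 h) i a⟩) h3).1 (oneP D)
    (fun i a => ⟨fun h => absurd rfl h, fun _ => by unfold oneP; split_ifs <;> rfl⟩)
  rw [← h4]
  refine Finset.sum_congr rfl fun j _ => ?_
  rw [cx_tc, cx_tc, cx_tc, cx_tc, oneP_tc, mulP_tc (c.trace E) (c.norm E), Matrix.transpose_one,
    one_mul]
  rfl

variable {K : Type} [Field K] [Algebra K Qb]

theorem ZE_le {Γ : Grid} {c : CM} (hc : Full c) (E : WeierstrassCurve K)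
    {ε : (Qb ≃ₐ[K] Qb) → Bool} (he : GalW c E ε) (hE : (E⁄Qb).IsElliptic) {F : Type} [Field F] [Algebra Qb F]
    (ξ : ∀ _ : Fin D, ((E⁄Qb)⁄F).toAffine.Point)
    (hξ : IsGen 0 (Algebra.ofId Qb F) (fun _ : Fin D => E⁄Qb) ξ) :
    rk (clF ξ '' ZE Γ E r ξ) ≤ rkC Γ c E ε r ξ := by
  refine rk_le _ _ ?_
  rintro _ ⟨z, ⟨hz1, hz2, hz3⟩, rfl⟩
  obtain ⟨Q, NP, hQ, hmat, hN⟩ := exists_NP hc hE (z.support.image Prod.fst)
  let φ : Homs (fun _ : Fin D => E⁄Qb) (fun _ : Fin r => E⁄Qb) × Pts (fun _ : Fin r => E⁄Qb) →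
    PC (E⁄Qb) r D := fun p => (NP p.1, p.2)
  let e := z.support.equivFin.symm
  have hmem : ∀ j, (e j).1.1 ∈ z.support.image Prod.fst :=
    fun j => Finset.mem_image_of_mem _ (e j).2
  have hQ' : (Q : ℤ) ≠ 0 := by exact_mod_cast hQ.ne'
  refine ⟨(Q : ℤ) ^ (2 * D), pow_ne_zero _ hQ', clCF c r ξ (z.mapDomain φ),
    ⟨⟨z.mapDomain φ, ⟨fun p hp => ?_, fun σ => ?_, fun M hM => ?_⟩⟩, rfl⟩, ?_⟩
  · obtain ⟨q, hq, rfl⟩ := Finset.mem_image.1 (Finsupp.mapDomain_support hp)
    exact ⟨hmat q.1, hz1 q hq⟩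
  · obtain ⟨ψ, hψ1, hψ2⟩ := hz2 σ
    rw [← Finsupp.mapDomain_comp]
    conv_rhs => rw [← hψ2, ← Finsupp.mapDomain_comp]
    refine Finsupp.mapDomain_congr fun p hp => ?_
    refine Prod.ext ?_ (funext fun i => ((hψ1 p hp).2 i).symm)
    have h3 := Finset.mem_image_of_mem Prod.fst (mem_of_mapDomain hψ2 hp)
    have h4 := Finset.mem_image_of_mem Prod.fst hp
    have h5 : ∀ i a, pc (c.t (E⁄Qb)) (ε σ) (NP p.1 i a) = NP (ψ p).1 i a := fun i a =>
      pair_conj hE he σ (p.1 i a) ((ψ p).1 i a) ((hψ1 p hp).1 i a) (hmat _ i a).2 (hmat _ i a).2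
        (fun P => hN _ h4 i a Qb P) (fun P => hN _ h3 i a Qb P)
    exact funext fun i => funext fun a => h5 i a
  · have h1 : nmb c M (z.mapDomain φ) = z.sum fun p m => (m : ℝ) * Complex.normSq
        ((cx c (fun _ => E⁄Qb) M).transpose * cx c (fun _ => E⁄Qb) (NP p.1)).det := by
      unfold nmb
      rw [Finsupp.liftAddHom_apply, Finsupp.sum_mapDomain_index (fun p => map_zero _)
        (fun p a b => map_add _ _ _)]
      refine Finset.sum_congr rfl fun p _ => ?_
      show z p • Complex.normSq _ = (z p : ℝ) * _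
      rw [zsmul_eq_mul]
    rw [h1, sum_fin]
    refine nmb_zero hE ξ hξ (fun j => z (e j).1) (fun j => (e j).1.1) (fun j => (e j).1.2)
      (fun j => NP (e j).1.1) Q (fun j => hmat _) (fun j i a F _ _ P => hN _ (hmem j) i a F P)
      (fun f => ?_) M hM
    have h2 := hz3 f
    unfold dirF at h2
    rw [sum_fin] at h2
    exact h2
  · have h1 : clCF c r ξ (z.mapDomain φ) = z.sum fun p m => m •
        clC c.w (Algebra.ofId Qb F) D (fun _ => Hm.id (E⁄Qb)) ξ (org _) (NP p.1) p.2 := by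
      unfold clCF
      rw [Finsupp.liftAddHom_apply, Finsupp.sum_mapDomain_index (fun p => map_zero _)
        (fun p a b => map_add _ _ _)]
      rfl
    rw [h1, sum_fin]
    unfold clF
    rw [sum_fin]
    exact tors_fin_sum (fun j => z (e j).1) _ _ _ fun j => cls_step c hE ξ hξ (e j).1.1
      (NP (e j).1.1) Q (fun i a F _ _ P => hN _ (hmem j) i a F P) (e j).1.2

end Pool.Agent.LibER34
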