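import Pool.Agent.LibER34.Tst

/-!
The linear algebra with complex multiplications.
-/

open scoped Classical ComplexConjugate

namespace Pool.Agent.LibER34

variable {r D : ℕ}

theorem mI_upd (N : Matrix (Fin r) (Fin D) ℂ) (c : Fin D) (u : Fin r → ℂ) (I : Sb r D) :
    mI (N.updateCol c u) I = ((N.submatrix (I.1.orderEmbOfFin I.2) id).updateCol c
      fun x => u (I.1.orderEmbOfFin I.2 x)).det := by
  unfold mI
  congr 1

theorem mI_add (N : Matrix (Fin r) (Fin D) ℂ) (c : Fin D) (u u' : Fin r → ℂ) (I : Sb r D) :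
    mI (N.updateCol c (u + u')) I = mI (N.updateCol c u) I + mI (N.updateCol c u') I := by
  rw [mI_upd, mI_upd, mI_upd, ← Matrix.det_updateCol_add]
  rfl

theorem mI_smul (N : Matrix (Fin r) (Fin D) ℂ) (c : Fin D) (a : ℂ) (u : Fin r → ℂ) (I : Sb r D) :
    mI (N.updateCol c (a • u)) I = a * mI (N.updateCol c u) I := by
  rw [mI_upd, mI_upd, ← Matrix.det_updateCol_smul]
  rfl

theorem mJ_upd (N : Matrix (Fin r) (Fin D) ℂ) (v : Fin r → ℂ) (c : Fin D) (u : Fin r → ℂ)
    (J : Sb r (D + 1)) : mJ (N.updateCol c u) v J =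
      (((Matrix.fromCols N (Matrix.replicateCol Unit v)).submatrix
        (J.1.orderEmbOfFin J.2 ∘ LibMul34.ix D) id).updateCol (Sum.inl c)
        fun x => u (J.1.orderEmbOfFin J.2 (LibMul34.ix D x))).det := by
  unfold mJ
  congr 1
  ext x y
  rcases y with y | y
  · by_cases h : y = c
    · subst h; simp
    · have h' : (Sum.inl y : Fin D ⊕ Unit) ≠ Sum.inl c := fun h'' => h (Sum.inl_injective h'')
      simp [Matrix.updateCol_ne h, Matrix.updateCol_ne h']
  · have h' : (Sum.inr y : Fin D ⊕ Unit) ≠ Sum.inl c := by simp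
    simp [Matrix.updateCol_ne h']

theorem mJ_add (N : Matrix (Fin r) (Fin D) ℂ) (v : Fin r → ℂ) (c : Fin D) (u u' : Fin r → ℂ)
    (J : Sb r (D + 1)) : mJ (N.updateCol c (u + u')) v J =
      mJ (N.updateCol c u) v J + mJ (N.updateCol c u') v J := by
  rw [mJ_upd, mJ_upd, mJ_upd, ← Matrix.det_updateCol_add]
  rfl

theorem mJ_smul (N : Matrix (Fin r) (Fin D) ℂ) (v : Fin r → ℂ) (c : Fin D) (a : ℂ)
    (u : Fin r → ℂ) (J : Sb r (D + 1)) :
    mJ (N.updateCol c (a • u)) v J = a * mJ (N.updateCol c u) v J := by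
  rw [mJ_upd, mJ_upd, ← Matrix.det_updateCol_smul]
  rfl

/-- the vector of the numbers `conj (minor_I N) * minor_J (M | v)` -/
noncomputable def Xg (N M : Matrix (Fin r) (Fin D) ℂ) (v : Fin r → ℂ) :
    Sb r D × Sb r (D + 1) → ℂ :=
  fun s => conj (mI N s.1) * mJ M v s.2

/-- polarisation -/
theorem polar {ω : ℂ} {n : ℤ} (hn : ω * conj ω = n) (N M : Matrix (Fin r) (Fin D) ℂ)
    (v : Fin r → ℂ) (c : Fin D) (u u' : Fin r → ℂ) :
    (ω - conj ω) • Xg (N.updateCol c u) (M.updateCol c u') v =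
      Xg (N.updateCol c (u + ω • u')) (M.updateCol c (u + ω • u')) v -
        Xg (N.updateCol c u) (M.updateCol c u) v -
        (n : ℂ) • Xg (N.updateCol c u') (M.updateCol c u') v -
        conj ω • (Xg (N.updateCol c (u + u')) (M.updateCol c (u + u')) v -
          Xg (N.updateCol c u) (M.updateCol c u) v -
          Xg (N.updateCol c u') (M.updateCol c u') v) := by
  funext s
  simp only [Pi.smul_apply, Pi.sub_apply, smul_eq_mul, Xg, mI_add, mJ_add, mI_smul, mJ_smul,
    map_add, map_mul]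
  linear_combination (-conj (mI (N.updateCol c u') s.1) * mJ (M.updateCol c u') v s.2) * hn

/-- the group generated by the vectors -/
noncomputable def PP (ω : ℂ) (r D : ℕ) : AddSubgroup (Sb r D × Sb r (D + 1) → ℂ) :=
  AddSubgroup.closure (Set.range fun p : Matrix (Fin r) (Fin D) (ℤ × ℤ) × (Fin r → ℤ × ℤ) =>
    Xv (p.1.map (tc ω)) fun i => tc ω (p.2 i))

theorem mJ_smulv (N : Matrix (Fin r) (Fin D) ℂ) (a : ℂ) (v : Fin r → ℂ) (J : Sb r (D + 1)) :
    mJ N (a • v) J = a * mJ N v J := by
  rw [mJ_lin, mJ_lin N v, Finset.mul_sum]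
  exact Finset.sum_congr rfl fun i _ => by rw [Pi.smul_apply, smul_eq_mul]; ring

theorem Xv_smulv (N : Matrix (Fin r) (Fin D) ℂ) (a : ℂ) (v : Fin r → ℂ) :
    Xv N (a • v) = a • Xv N v := by
  funext s
  rw [Pi.smul_apply, smul_eq_mul, Xv, Xv, mJ_smulv]
  ring

theorem PP_smul {ω : ℂ} {t n : ℤ} (ht : ω + conj ω = t) (hn : ω * conj ω = n) (p : ℤ × ℤ)
    {z : Sb r D × Sb r (D + 1) → ℂ} (hz : z ∈ PP ω r D) : tc ω p • z ∈ PP ω r D := by
  unfold PP at hz ⊢
  induction hz using AddSubgroup.closure_induction with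
  | mem z hz =>
    obtain ⟨q, rfl⟩ := hz
    refine AddSubgroup.subset_closure ⟨(q.1, fun i => (p.1 * (q.2 i).1 - n * (p.2 * (q.2 i).2),
      p.1 * (q.2 i).2 + p.2 * (q.2 i).1 + t * (p.2 * (q.2 i).2))), ?_⟩
    dsimp only
    rw [← Xv_smulv]
    congr 1
    funext i
    rw [Pi.smul_apply, smul_eq_mul, tc_mul ht hn]
  | zero => rw [smul_zero]; exact zero_mem _
  | add x y _ _ hx hy => rw [smul_add]; exact add_mem hx hy
  | neg x _ hx => rw [smul_neg]; exact neg_mem hx

theorem map_upd (ω : ℂ) (N : Matrix (Fin r) (Fin D) (ℤ × ℤ)) (c : Fin D) (u : Fin r → ℤ × ℤ) :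
    (N.updateCol c u).map (tc ω) = (N.map (tc ω)).updateCol c fun i => tc ω (u i) := by
  ext i j
  by_cases h : j = c
  · subst h; simp
  · simp [Matrix.updateCol_ne h]

theorem polar_mem {ω : ℂ} {t n : ℤ} (ht : ω + conj ω = t) (hn : ω * conj ω = n)
    (T : Finset (Fin D)) : ∀ (N M : Matrix (Fin r) (Fin D) (ℤ × ℤ)) (v : Fin r → ℤ × ℤ),
      (∀ c ∉ T, ∀ i, N i c = M i c) →
      (ω - conj ω) ^ T.card • Xg (N.map (tc ω)) (M.map (tc ω)) (fun i => tc ω (v i)) ∈
        PP ω r D := by
  induction T using Finset.induction_on with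
  | empty =>
    intro N M v h
    have h1 : N = M := by
      ext i c
      · rw [h c (by simp) i]
      · rw [h c (by simp) i]
    subst h1
    rw [Finset.card_empty, pow_zero, one_smul]
    exact AddSubgroup.subset_closure ⟨(N, v), rfl⟩
  | insert c T hc ih =>
    intro N M v h
    have h0 : ∀ x : Fin r → ℤ × ℤ, (ω - conj ω) ^ T.card •
        Xg ((N.map (tc ω)).updateCol c fun i => tc ω (x i))
          ((M.map (tc ω)).updateCol c fun i => tc ω (x i)) (fun i => tc ω (v i)) ∈ PP ω r D := by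
      intro x
      rw [← map_upd, ← map_upd]
      refine ih _ _ v fun c' hc' i => ?_
      by_cases hcc : c' = c
      · subst hcc; simp
      · rw [Matrix.updateCol_ne hcc, Matrix.updateCol_ne hcc]
        exact h c' (by simp [hcc, hc']) i
    have e1 : N.map (tc ω) = (N.map (tc ω)).updateCol c fun i => tc ω (N i c) := by
      ext i j
      by_cases h : j = c
      · subst h; simp
      · simp [Matrix.updateCol_ne h]
    have e2 : M.map (tc ω) = (M.map (tc ω)).updateCol c fun i => tc ω (M i c) := by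
      ext i j
      by_cases h : j = c
      · subst h; simp
      · simp [Matrix.updateCol_ne h]
    have e3 : (fun i => tc ω (N i c)) + ω • (fun i => tc ω (M i c)) = fun i =>
        tc ω (N i c + ((0 : ℤ) * (M i c).1 - n * (1 * (M i c).2),
          (0 : ℤ) * (M i c).2 + 1 * (M i c).1 + t * (1 * (M i c).2))) := by
      funext i
      have h2 := tc_mul ht hn (0, 1) (M i c)
      rw [tc_add, ← h2]
      simp [tc]
    have e4 : (fun i => tc ω (N i c)) + (fun i => tc ω (M i c)) = fun i =>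
        tc ω (N i c + M i c) := by
      funext i
      rw [tc_add]
      rfl
    have e5 : conj ω = tc ω (t, -1) := by
      have : conj ω = t - ω := by rw [← ht]; ring
      rw [this, tc]
      push_cast
      ring
    have e6 : (n : ℂ) = tc ω (n, 0) := by simp [tc]
    have g1 : ∀ {z : Sb r D × Sb r (D + 1) → ℂ}, z ∈ PP ω r D → conj ω • z ∈ PP ω r D :=
      fun {z} hz => by
        have := PP_smul ht hn (t, -1) hz
        rwa [← e5] at this
    have g2 : ∀ {z : Sb r D × Sb r (D + 1) → ℂ}, z ∈ PP ω r D → (n : ℂ) • z ∈ PP ω r D :=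
      fun {z} hz => by
        have := PP_smul ht hn (n, 0) hz
        rwa [← e6] at this
    rw [Finset.card_insert_of_notMem hc, pow_succ, mul_smul, e1, e2, polar hn, e3, e4]
    simp only [smul_sub]
    have f1 := h0 fun i => N i c
    have f2 := h0 fun i => M i c
    have f3 := h0 fun i => N i c + M i c
    refine sub_mem (sub_mem (sub_mem (h0 _) f1) ?_) (sub_mem (sub_mem ?_ ?_) ?_)
    · rw [smul_comm]
      exact g2 f2
    · rw [smul_comm]
      exact g1 f3
    · rw [smul_comm]
      exact g1 f1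
    · rw [smul_comm]
      exact g1 f2

theorem Xg_mem {ω : ℂ} {t n : ℤ} (ht : ω + conj ω = t) (hn : ω * conj ω = n)
    (N M : Matrix (Fin r) (Fin D) (ℤ × ℤ)) (v : Fin r → ℤ × ℤ) :
    ((4 * n - t ^ 2 : ℤ) : ℂ) ^ D • Xg (N.map (tc ω)) (M.map (tc ω)) (fun i => tc ω (v i)) ∈
      PP ω r D := by
  have h1 := polar_mem ht hn Finset.univ N M v (fun c hc => absurd (Finset.mem_univ c) hc)
  rw [Finset.card_univ, Fintype.card_fin] at h1
  have h2 : ∀ (m : ℕ) {z : Sb r D × Sb r (D + 1) → ℂ}, z ∈ PP ω r D →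
      (conj ω - ω) ^ m • z ∈ PP ω r D := by
    intro m
    induction m with
    | zero => intro z hz; rwa [pow_zero, one_smul]
    | succ m ih =>
      intro z hz
      have e5 : conj ω - ω = tc ω (t, -2) := by
        have : conj ω = t - ω := by rw [← ht]; ring
        rw [this, tc]
        push_cast
        ring
      rw [pow_succ, mul_smul]
      refine ih ?_
      rw [e5]
      exact PP_smul ht hn _ hz
  have h3 := h2 D h1
  rw [smul_smul, ← mul_pow] at h3
  have h4 : (conj ω - ω) * (ω - conj ω) = ((4 * n - t ^ 2 : ℤ) : ℂ) := by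
    push_cast
    rw [← hn, ← ht]
    ring
  rwa [h4] at h3

/-- the minors of the matrices of standard vectors -/
theorem mI_std {a : ℕ} (I I' : Sb r a) :
    mI (fun i c => if i = I.1.orderEmbOfFin I.2 c then 1 else 0) I' =
      if I = I' then 1 else 0 := by
  by_cases h : I = I'
  · subst h
    rw [if_pos rfl, mI]
    have h1 : (Matrix.submatrix (fun i c => if i = I.1.orderEmbOfFin I.2 c then 1 else 0 :
        Matrix (Fin r) (Fin a) ℂ) (I.1.orderEmbOfFin I.2) id) = (1 : Matrix (Fin a) (Fin a) ℂ) := by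
      ext x y
      show (if I.1.orderEmbOfFin I.2 x = I.1.orderEmbOfFin I.2 y then (1 : ℂ) else 0) = _
      rw [Matrix.one_apply]
      simp [(I.1.orderEmbOfFin I.2).injective.eq_iff]
    rw [h1, Matrix.det_one]
  · rw [if_neg h, mI]
    have h1 : ¬ I.1 ⊆ I'.1 := fun h2 => h (Subtype.ext (Finset.eq_of_subset_of_card_le h2
      (by rw [I.2, I'.2])))
    obtain ⟨x, hx, hx'⟩ := Finset.not_subset.1 h1
    obtain ⟨c, hc⟩ : ∃ c, I.1.orderEmbOfFin I.2 c = x := by
      have := Finset.range_orderEmbOfFin I.1 I.2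
      have hx2 : x ∈ Set.range (I.1.orderEmbOfFin I.2) := by rw [this]; exact hx
      exact hx2
    refine Matrix.det_eq_zero_of_column_eq_zero c fun y => ?_
    rw [Matrix.submatrix_apply, id_eq, if_neg]
    rintro h3
    apply hx'
    rw [← hc, ← h3]
    exact Finset.orderEmbOfFin_mem _ _ _

theorem mJ_std (J J' : Sb r (D + 1)) :
    mJ (fun i c => if i = J.1.orderEmbOfFin J.2 (LibMul34.ix D (Sum.inl c)) then 1 else 0)
      (fun i => if i = J.1.orderEmbOfFin J.2 (LibMul34.ix D (Sum.inr ())) then 1 else 0) J' =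
      if J = J' then 1 else 0 := by
  rw [← mI_std J J', mJ, mI, ← Matrix.det_submatrix_equiv_self (LibMul34.ix D)]
  congr 1
  ext x y
  rcases y with y | ⟨⟩
  · rfl
  · rfl

theorem exists_comb {ω : ℂ} {z : Sb r D × Sb r (D + 1) → ℂ} (hz : z ∈ PP ω r D) :
    ∃ x : (Matrix (Fin r) (Fin D) (ℤ × ℤ) × (Fin r → ℤ × ℤ)) →₀ ℤ, ∀ s,
      (x.sum fun p m => (m : ℂ) * Xv (p.1.map (tc ω)) (fun i => tc ω (p.2 i)) s) = z s := by
  unfold PP at hz
  induction hz using AddSubgroup.closure_induction with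
  | mem z hz =>
    obtain ⟨q, rfl⟩ := hz
    exact ⟨Finsupp.single q 1, fun s => by
      rw [Finsupp.sum_single_index (by simp), Int.cast_one, one_mul]⟩
  | zero => exact ⟨0, fun s => by rw [Finsupp.sum_zero_index, Pi.zero_apply]⟩
  | add x y _ _ hx hy =>
    obtain ⟨a, ha⟩ := hx
    obtain ⟨b, hb⟩ := hy
    exact ⟨a + b, fun s => by
      rw [Finsupp.sum_add_index' (fun _ => by simp) (fun _ _ _ => by push_cast; ring), ha, hb,
        Pi.add_apply]⟩
  | neg x _ hx =>
    obtain ⟨a, ha⟩ := hx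
    refine ⟨-a, fun s => ?_⟩
    rw [Finsupp.sum_neg_index (fun _ => by simp), Pi.neg_apply, ← ha, Finsupp.sum, Finsupp.sum,
      ← Finset.sum_neg_distrib]
    exact Finset.sum_congr rfl fun _ _ => by push_cast; ring

theorem la_cm (ω : ℂ) (t n : ℤ) (ht : ω + conj ω = t) (hn : ω * conj ω = n) (hω : ω.im ≠ 0)
    (r D : ℕ) : LA ω r D (Sb r D × Sb r (D + 1)) := by
  have hne : (4 * n - t ^ 2) ^ D ≠ 0 := by
    apply pow_ne_zero
    intro h
    have h4 : (conj ω - ω) * (ω - conj ω) = ((4 * n - t ^ 2 : ℤ) : ℂ) := by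
      push_cast
      rw [← hn, ← ht]
      ring
    rw [h, Int.cast_zero] at h4
    have h5 : ω - conj ω = 0 := by
      rcases mul_eq_zero.1 h4 with h5 | h5
      · rw [← neg_sub, h5, neg_zero]
      · exact h5
    apply hω
    have h6 := congrArg Complex.im h5
    simp only [Complex.sub_im, Complex.conj_im, Complex.zero_im] at h6
    linarith
  refine ⟨⟨id, fun s => ⟨1, fun β => if β = s then 1 else 0, one_ne_zero, fun N v => ?_⟩⟩, ?_⟩
  · rw [Int.cast_one, one_mul, Finset.sum_eq_single s]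
    · dsimp only
      rw [if_pos rfl, Int.cast_one, one_mul]
      rfl
    · intro β _ hβ
      dsimp only
      rw [if_neg hβ, Int.cast_zero, zero_mul]
    · exact fun h => absurd (Finset.mem_univ s) h
  · have h1 : ∀ β : Sb r D × Sb r (D + 1),
        ∃ x : (Matrix (Fin r) (Fin D) (ℤ × ℤ) × (Fin r → ℤ × ℤ)) →₀ ℤ, ∀ s,
        (x.sum fun p m => (m : ℂ) * Xv (p.1.map (tc ω)) (fun i => tc ω (p.2 i)) s) =
          ((if β = s then (4 * n - t ^ 2) ^ D else 0 : ℤ) : ℂ) := by
      intro β
      obtain ⟨x, hx⟩ := exists_comb (Xg_mem ht hn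
        (fun i c => if i = β.1.1.orderEmbOfFin β.1.2 c then (1, 0) else 0)
        (fun i c => if i = β.2.1.orderEmbOfFin β.2.2 (LibMul34.ix D (Sum.inl c)) then (1, 0)
          else 0)
        (fun i => if i = β.2.1.orderEmbOfFin β.2.2 (LibMul34.ix D (Sum.inr ())) then (1, 0)
          else 0))
      refine ⟨x, fun s => ?_⟩
      rw [hx s, Pi.smul_apply, smul_eq_mul, Xg]
      have hT : ∀ (p : Prop) [Decidable p], tc ω (if p then (1, 0) else 0) =
          if p then (1 : ℂ) else 0 := by
        intro p _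
        split_ifs <;> simp [tc]
      have e1 : (Matrix.map (fun i c => if i = β.1.1.orderEmbOfFin β.1.2 c then (1, 0) else 0)
          (tc ω) : Matrix (Fin r) (Fin D) ℂ) =
          fun i c => if i = β.1.1.orderEmbOfFin β.1.2 c then 1 else 0 := by
        funext i c
        exact hT _
      have e2 : (Matrix.map (fun i c => if i = β.2.1.orderEmbOfFin β.2.2
          (LibMul34.ix D (Sum.inl c)) then (1, 0) else 0) (tc ω) : Matrix (Fin r) (Fin D) ℂ) =
          fun i c => if i = β.2.1.orderEmbOfFin β.2.2 (LibMul34.ix D (Sum.inl c)) then 1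
            else 0 := by
        funext i c
        exact hT _
      simp only [hT]
      rw [e1, e2, mI_std, mJ_std]
      by_cases h : β = s
      · subst h
        simp
      · rw [if_neg h]
        by_cases h2 : β.1 = s.1
        · have h3 : β.2 ≠ s.2 := fun h3 => h (Prod.ext h2 h3)
          simp [h3]
        · simp [h2]
    choose x hx using h1
    refine ⟨x, fun β s => if β = s then (4 * n - t ^ 2) ^ D else 0, fun h => absurd h hω,
      hx, fun e he β => ?_⟩
    have h2 := he β
    rw [Finset.sum_eq_single β] at h2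
    · dsimp only at h2
      rw [if_pos rfl] at h2
      rcases mul_eq_zero.1 h2 with h3 | h3
      · exact h3
      · exact absurd h3 hne
    · intro β' _ hβ
      dsimp only
      rw [if_neg hβ, mul_zero]
    · exact fun h => absurd (Finset.mem_univ β) h

end Pool.Agent.LibER34
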