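import Pool.Agent.LibER34.LA

/-!
The linear algebra without complex multiplications.
-/

open scoped Classical ComplexConjugate

namespace Pool.Agent.LibER34

/-- a spanning family of vectors: a basis `p` of the span and coordinates `ι` which determine all
the others -/
theorem LaR_coord {S P : Type} [Fintype S] (Y : P → S → ℚ) (m : ℕ)
    (hm : Module.finrank ℚ (Submodule.span ℚ (Set.range Y)) = m) :
    ∃ (p : Fin m → P) (ι : Fin m → S), (LinearIndependent ℚ fun β => Y (p β)) ∧
      ∀ s, ∃ a : Fin m → ℚ, ∀ q, Y q s = ∑ β, a β * Y q (ι β) := by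
  subst hm
  obtain ⟨f, hf1, hf2, hf3⟩ := Submodule.exists_fun_fin_finrank_span_eq ℚ (Set.range Y)
  choose p hp using hf1
  let M : Matrix (Fin (Module.finrank ℚ (Submodule.span ℚ (Set.range Y)))) S ℚ :=
    Matrix.of fun β s => Y (p β) s
  have hM : M.row = f := by
    funext β
    exact hp β
  have hr : M.rank = Module.finrank ℚ (Submodule.span ℚ (Set.range Y)) := by
    have h1 : LinearIndependent ℚ M.row := by rw [hM]; exact hf3
    rw [LinearIndependent.rank_matrix h1, Fintype.card_fin]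
  rw [Matrix.rank_eq_finrank_span_cols] at hr
  obtain ⟨g, hg1, hg2, -⟩ := Submodule.exists_fun_fin_finrank_span_eq ℚ (Set.range M.col)
  choose t ht using hg1
  refine ⟨p, fun β => t (finCongr hr.symm β), ?_, ?_⟩
  · have h2 : (fun β => Y (p β)) = f := funext hp
    rw [h2]
    exact hf3
  · intro s
    have h1 : M.col s ∈ Submodule.span ℚ (Set.range g) := by
      rw [hg2]
      exact Submodule.subset_span ⟨s, rfl⟩
    obtain ⟨c, hc⟩ := (Submodule.mem_span_range_iff_exists_fun ℚ).1 h1
    refine ⟨fun β => c (finCongr hr.symm β), fun q => ?_⟩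
    have h2 : Y q ∈ Submodule.span ℚ (Set.range f) := by
      rw [hf2]
      exact Submodule.subset_span ⟨q, rfl⟩
    obtain ⟨b, hb⟩ := (Submodule.mem_span_range_iff_exists_fun ℚ).1 h2
    have h3 : ∀ s', Y q s' = ∑ β, b β * Y (p β) s' := by
      intro s'
      rw [← hb, Finset.sum_apply]
      refine Finset.sum_congr rfl fun β _ => ?_
      rw [Pi.smul_apply, smul_eq_mul, hp]
    have h4 : ∀ β, Y (p β) s = ∑ i, c i * Y (p β) (t i) := by
      intro β
      have h5 := congrFun hc β
      rw [Finset.sum_apply] at h5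
      have h6 : M.col s β = Y (p β) s := rfl
      rw [← h6, ← h5]
      refine Finset.sum_congr rfl fun i _ => ?_
      rw [Pi.smul_apply, smul_eq_mul, ← ht]
      rfl
    rw [Equiv.sum_comp (finCongr hr.symm) fun i => c i * Y q (t i), h3]
    simp only [h4, h3, Finset.mul_sum]
    rw [Finset.sum_comm]
    refine Finset.sum_congr rfl fun i _ => Finset.sum_congr rfl fun β _ => ?_
    ring

open LibMul34 LibAC34

theorem LaR_U (r D : ℕ) : Module.finrank ℚ (Submodule.span ℚ (Set.range (Tv (r := r) (D := D)))) =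
    mul r D := by
  have h3 : Submodule.span ℚ (Set.range
      fun p q : Matrix (Fin r) (Fin D) ℤ × (Fin r → ℤ) => (kf p q : ℚ)) =
      LinearMap.range ((Phi r D).domRestrict
        (Submodule.span ℚ (Set.range (Tv (r := r) (D := D))))) := by
    have h4 : (fun p q : Matrix (Fin r) (Fin D) ℤ × (Fin r → ℤ) => (kf p q : ℚ)) =
        (Phi r D) ∘ Tv := by
      funext p q
      exact kf_eq p q
    rw [h4, Set.range_comp, ← Submodule.map_span, LinearMap.range_domRestrict]
  unfold mul
  rw [h3, LinearMap.finrank_range_of_inj]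
  rw [← LinearMap.ker_eq_bot, LinearMap.ker_eq_bot']
  intro z hz
  apply Subtype.ext
  have hUK : Submodule.span ℚ (Set.range (Tv (r := r) (D := D))) ≤
      LinearMap.ker (opE r) ⊓ Wt r (D + 1) D := by
    rw [Submodule.span_le]
    rintro _ ⟨p, rfl⟩
    exact Tv_mem p
  exact zero_of_orth (hUK z.2) fun p => congrFun hz p

/-- the coordinates of `Tv` on the pairs of subsets with `D` and `D + 1` elements -/
noncomputable def LaR_Y {r D : ℕ} (p : Matrix (Fin r) (Fin D) ℤ × (Fin r → ℤ)) :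
    {I : Finset (Fin r) // I.card = D} × {I : Finset (Fin r) // I.card = D + 1} → ℚ :=
  fun s => Tv p (s.2.1, s.1.1)

theorem LaR_finrank (r D : ℕ) :
    Module.finrank ℚ (Submodule.span ℚ (Set.range (LaR_Y (r := r) (D := D)))) = mul r D := by
  let res : (Pr r → ℚ) →ₗ[ℚ]
      ({I : Finset (Fin r) // I.card = D} × {I : Finset (Fin r) // I.card = D + 1} → ℚ) :=
    LinearMap.funLeft ℚ ℚ fun s => (s.2.1, s.1.1)
  have h3 : Submodule.span ℚ (Set.range (LaR_Y (r := r) (D := D))) =
      LinearMap.range (res.domRestrict (Submodule.span ℚ (Set.range (Tv (r := r) (D := D))))) := by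
    have h4 : LaR_Y (r := r) (D := D) = res ∘ Tv := rfl
    rw [h4, Set.range_comp, ← Submodule.map_span, LinearMap.range_domRestrict]
  rw [h3, LinearMap.finrank_range_of_inj, LaR_U]
  rw [← LinearMap.ker_eq_bot, LinearMap.ker_eq_bot']
  intro z hz
  apply Subtype.ext
  have hUK : Submodule.span ℚ (Set.range (Tv (r := r) (D := D))) ≤ Wt r (D + 1) D := by
    rw [Submodule.span_le]
    rintro _ ⟨p, rfl⟩
    exact (Tv_mem p).2
  funext P
  by_contra h
  obtain ⟨h1, h2⟩ := hUK z.2 P h
  exact h (congrFun hz (⟨P.2, h2⟩, ⟨P.1, h1⟩))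

/-- the integral vector of the products of minors -/
noncomputable def LaR_Z {r D : ℕ} (N : Matrix (Fin r) (Fin D) ℤ) (v : Fin r → ℤ)
    (s : {I : Finset (Fin r) // I.card = D} × {I : Finset (Fin r) // I.card = D + 1}) : ℤ :=
  (N.submatrix (s.1.1.orderEmbOfFin s.1.2) id).det *
    ((bd N v).submatrix (s.2.1.orderEmbOfFin s.2.2 ∘ ix D) id).det

theorem LaR_ZY {r D : ℕ} (N : Matrix (Fin r) (Fin D) ℤ) (v : Fin r → ℤ)
    (s : {I : Finset (Fin r) // I.card = D} × {I : Finset (Fin r) // I.card = D + 1}) :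
    (LaR_Z N v s : ℚ) = LaR_Y (N, v) s := by
  unfold LaR_Z LaR_Y Tv
  rw [mn_of s.2.2, mn_of s.1.2, Int.cast_mul, mul_comm, Int.cast_det, Int.cast_det,
    ← Matrix.det_submatrix_equiv_self (ix D)]
  congr 2
  · ext i j
    simp [nv_ix]
  · ext i j
    simp [nv_castSucc]

theorem LaR_tc (z : ℤ × ℤ) : tc 0 z = (z.1 : ℂ) := by
  unfold tc
  rw [mul_zero, add_zero]

theorem LaR_ZX {r D : ℕ} (N : Matrix (Fin r) (Fin D) (ℤ × ℤ)) (v : Fin r → ℤ)
    (s : Sb r D × Sb r (D + 1)) :
    Xv (N.map (tc 0)) (fun i => (v i : ℂ)) s = (LaR_Z (N.map Prod.fst) v s : ℂ) := by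
  unfold Xv mI mJ LaR_Z
  rw [Int.cast_mul, Int.cast_det, Int.cast_det]
  have h1 : (((N.map (tc 0)).submatrix (s.1.1.orderEmbOfFin s.1.2) id)) =
      (((N.map Prod.fst).submatrix (s.1.1.orderEmbOfFin s.1.2) id).map
        (Int.cast : ℤ → ℂ)) := by
    ext i j
    exact LaR_tc _
  have h2 : ((Matrix.fromCols (N.map (tc 0)) (Matrix.replicateCol Unit fun i => (v i : ℂ))).submatrix
      (s.2.1.orderEmbOfFin s.2.2 ∘ ix D) id) =
      (((bd (N.map Prod.fst) v).submatrix (s.2.1.orderEmbOfFin s.2.2 ∘ ix D) id).map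
        (Int.cast : ℤ → ℂ)) := by
    ext i j
    rcases j with j | ⟨⟩
    · exact LaR_tc _
    · rfl
  rw [h1, h2, ← Int.cast_det, map_intCast]

theorem la_real (r D : ℕ) : LA 0 r D (Fin (LibMul34.mul r D)) := by
  obtain ⟨p, ι, hp, hι⟩ := LaR_coord (LaR_Y (r := r) (D := D)) (mul r D) (LaR_finrank r D)
  refine ⟨⟨ι, fun s => ?_⟩, fun β => Finsupp.single
    ((p β).1.map (fun z => (z, 0)), fun i => ((p β).2 i, 0)) 1,
    fun β s => LaR_Z (p β).1 (p β).2 s, fun _ β q hq i => ?_, fun β s => ?_, fun e he => ?_⟩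
  · obtain ⟨a, ha⟩ := hι s
    obtain ⟨b, hb⟩ := IsLocalization.exist_integer_multiples_of_finite (nonZeroDivisors ℤ) a
    choose f hf using hb
    have hb0 : (b : ℤ) ≠ 0 := nonZeroDivisors.ne_zero b.2
    have hf' : ∀ β, (f β : ℚ) = ((b : ℤ) : ℚ) * a β := by
      intro β
      have h3 := hf β
      simp only [algebraMap_int_eq, eq_intCast] at h3
      rw [h3]
      simp [zsmul_eq_mul]
    refine ⟨(b : ℤ), f, hb0, fun N v => ?_⟩
    have h1 : ∀ w : Fin r → ℤ, (b : ℤ) * LaR_Z (N.map Prod.fst) w s =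
        ∑ β, f β * LaR_Z (N.map Prod.fst) w (ι β) := by
      intro w
      have h2 : (((b : ℤ) * LaR_Z (N.map Prod.fst) w s : ℤ) : ℚ) =
          ((∑ β, f β * LaR_Z (N.map Prod.fst) w (ι β) : ℤ) : ℚ) := by
        push_cast
        rw [LaR_ZY, ha, Finset.mul_sum]
        refine Finset.sum_congr rfl fun β _ => ?_
        rw [hf', LaR_ZY]
        ring
      exact_mod_cast h2
    have h4 : ∀ (i : Fin r) (t : Sb r D × Sb r (D + 1)),
        Xv (N.map (tc 0)) (Pi.single i 1) t =
          (LaR_Z (N.map Prod.fst) (Pi.single i 1) t : ℂ) := by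
      intro i t
      rw [← LaR_ZX]
      congr 1
      funext j
      by_cases h : j = i
      · subst h
        simp
      · simp [Pi.single_eq_of_ne h]
    rw [Xv_lin, Finset.mul_sum]
    have h5 : ∀ i, ((b : ℤ) : ℂ) * (v i * Xv (N.map (tc 0)) (Pi.single i 1) s) =
        ∑ β, (f β : ℂ) * (v i * Xv (N.map (tc 0)) (Pi.single i 1) (ι β)) := by
      intro i
      have h6 := congrArg (Int.cast : ℤ → ℂ) (h1 (Pi.single i 1))
      push_cast at h6
      rw [h4]
      simp only [h4]
      calc ((b : ℤ) : ℂ) * (v i * (LaR_Z (N.map Prod.fst) (Pi.single i 1) s : ℂ))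
          = v i * (((b : ℤ) : ℂ) * (LaR_Z (N.map Prod.fst) (Pi.single i 1) s : ℂ)) := by ring
        _ = _ := by
            rw [h6, Finset.mul_sum]
            exact Finset.sum_congr rfl fun β _ => by ring
    rw [Finset.sum_congr rfl fun i _ => h5 i, Finset.sum_comm]
    refine Finset.sum_congr rfl fun β _ => ?_
    rw [Xv_lin (N.map (tc 0)) v (ι β), Finset.mul_sum]
  · have h1 := Finset.mem_singleton.1 (Finsupp.support_single_subset hq)
    subst h1
    exact ⟨rfl, fun a => rfl⟩
  · rw [Finsupp.sum_single_index (by simp)]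
    have h1 : (fun i => tc 0 ((fun i => ((p β).2 i, (0 : ℤ))) i)) =
        fun i => ((p β).2 i : ℂ) := by
      funext i
      exact LaR_tc _
    rw [h1, LaR_ZX]
    have h2 : (((p β).1.map fun z => (z, (0 : ℤ))).map Prod.fst) = (p β).1 := by
      ext i j
      rfl
    rw [h2]
    simp
  · have h1 := Fintype.linearIndependent_iff.1 hp (fun β => (e β : ℚ)) (by
      funext s
      rw [Finset.sum_apply]
      have h2 := congrArg (Int.cast : ℤ → ℚ) (he s)
      push_cast at h2
      simp only [LaR_ZY] at h2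
      exact h2)
    intro β
    exact_mod_cast h1 β

end Pool.Agent.LibER34
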