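import Pool.Agent.LibER34.Crit

/-!
The rank.
-/

open WeierstrassCurve Pool.Agent.LibBH2 Pool.Agent.LibIG50 Pool.Agent.LibCHd Pool.Agent.LibGG
  Pool.Agent.LibAC34 Pool.Agent.LibAF11
open scoped Classical ComplexConjugate

namespace Pool.Agent.LibER34

theorem Rk_lin_step {P μ Q : Type} [AddCommGroup P] [Fintype μ] {G : AddSubgroup P} {S : Set G}
    (hli : LinearIndependent ℤ (Subtype.val : S → G)) (κ : μ → Q → ℤ)
    (hp : ∀ c : μ → ℤ, (∀ q, ∑ i, c i * κ i q = 0) → ∀ i, c i = 0) (T : Finset (μ × S))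
    (n : μ × S → ℤ) (h3 : ∀ q, IsOfFinAddOrder (∑ s ∈ T, (n s * κ s.1 q) • (s.2.1.1 : P))) :
    ∀ s ∈ T, n s = 0 := by
  intro s hs
  -- extend the coefficients by zero
  let n' : μ × S → ℤ := fun s => if s ∈ T then n s else 0
  have h6 : ∀ q, ∀ y : S, ∑ i, n' (i, y) * κ i q = 0 := by
    intro q y
    obtain ⟨m, hm, h7⟩ := isOfFinAddOrder_iff_nsmul_eq_zero.1 (h3 q)
    let R : Finset S := T.image Prod.snd
    have h8 : ∑ s ∈ T, (n s * κ s.1 q) • (s.2.1.1 : P) =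
        ∑ y ∈ R, (∑ i, n' (i, y) * κ i q) • (y.1.1 : P) := by
      have h9 : ∀ y : S, (∑ i, n' (i, y) * κ i q) • (y.1.1 : P) =
          ∑ i, (n' (i, y) * κ i q) • (y.1.1 : P) := fun y => Finset.sum_smul
      simp only [h9]
      rw [Finset.sum_comm, ← Finset.sum_product']
      have h10 : T ⊆ Finset.univ ×ˢ R := by
        intro s hs
        rw [Finset.mem_product]
        exact ⟨Finset.mem_univ _, Finset.mem_image_of_mem _ hs⟩
      rw [← Finset.sum_subset h10 (fun s _ hs => by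
        change (n' s * _) • _ = _
        simp only [n', if_neg hs, zero_mul, zero_smul])]
      refine Finset.sum_congr rfl fun s hs => ?_
      change _ = (n' s * _) • _
      simp only [n', if_pos hs]
    by_cases hy : y ∈ R
    · rw [h8] at h7
      have h11 : ∑ y ∈ R, (m * (∑ i, n' (i, y) * κ i q) : ℤ) • (y.1 : G) = 0 := by
        apply Subtype.ext
        rw [AddSubgroup.val_finsetSum, AddSubgroup.coe_zero, ← h7, Finset.smul_sum]
        refine Finset.sum_congr rfl fun y _ => ?_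
        rw [AddSubgroup.coe_zsmul, mul_smul, natCast_zsmul]
      have h12 := (linearIndependent_iff'.1 hli) R _ h11 y hy
      rcases mul_eq_zero.1 h12 with h13 | h13
      · exact absurd (by exact_mod_cast h13) hm.ne'
      · exact h13
    · refine Finset.sum_eq_zero fun i _ => ?_
      have h14 : (i, y) ∉ T := fun h => hy (Finset.mem_image_of_mem Prod.snd h)
      simp only [n', if_neg h14, zero_mul]
  have h15 := hp (fun i => n' (i, s.2)) (fun q => h6 q s.2) s.1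
  simp only [n', Prod.mk.eta, if_pos hs] at h15
  exact h15

theorem Rk_tor {P : Type} [AddCommGroup P] (n k : ℤ) (a b : P)
    (h : IsOfFinAddOrder (a - k • b)) : IsOfFinAddOrder (n • a - (n * k) • b) := by
  rw [mul_smul, ← smul_sub]
  exact h.zsmul

theorem Rk_fun_le (B : Type) [Fintype B] (A : Type) [AddCommGroup A] :
    Module.rank ℤ (B → A) ≤ Fintype.card B * Module.rank ℤ A := by
  let e := Fintype.equivFin B
  have h1 : Module.rank ℤ (B → A) = Module.rank ℤ (Fin (Fintype.card B) → A) :=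
    (LinearEquiv.funCongrLeft ℤ A e.symm).rank_eq
  rw [h1]
  refine (rank_pi_le _ fun _ => A).trans ?_
  rw [Finset.sum_const, Finset.card_univ, Fintype.card_fin, nsmul_eq_mul]

variable {r D : ℕ}

theorem Rk_Xv_smul (N : Matrix (Fin r) (Fin D) ℂ) (a : ℂ) (v : Fin r → ℂ)
    (s : Sb r D × Sb r (D + 1)) : Xv N (fun i => v i * a) s = Xv N v s * a := by
  rw [Xv_lin N (fun i => v i * a), Xv_lin N v, Finset.sum_mul]
  exact Finset.sum_congr rfl fun i _ => by ring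

theorem Rk_Xv_zero (N : Matrix (Fin r) (Fin D) ℂ) (s : Sb r D × Sb r (D + 1)) :
    Xv N (fun _ => 0) s = 0 := by
  rw [Xv_lin]
  exact Finset.sum_eq_zero fun i _ => zero_mul _

theorem Rk_lam_smk {E : WeierstrassCurve Qb} {w : Hm E E} {ω : ℂ} (lam : E.toAffine.Point →+ ℂ)
    (hlam : ∀ P, lam (w.k0 P) = ω * lam P) (q : ℤ × ℤ) (y : E.toAffine.Point) :
    lam (smk w q y) = tc ω q * lam y := by
  rw [smk, map_add, map_zsmul, map_zsmul, hlam, tc, zsmul_eq_mul, zsmul_eq_mul]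
  ring

theorem Rk_lam_single (c : CM) (E : WeierstrassCurve Qb) (s : Sb r D × Sb r (D + 1))
    (lam : E.toAffine.Point →+ ℂ) (hlam : ∀ P, lam ((c.w E).k0 P) = c.ω E * lam P)
    (p : PC E r D) : lam (tS c E s (Finsupp.single p 1)) =
      Xv (p.1.map (tc (c.ω E))) (fun i => lam (p.2 i)) s := by
  rw [lam_tS c E s lam hlam, Finsupp.sum_single_index (by simp)]
  simp

/-- the difference of the translates by `p y` and by zero -/
noncomputable def Rk_dif (c : CM) (E : WeierstrassCurve Qb) (y : E.toAffine.Point)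
    (p : Matrix (Fin r) (Fin D) (ℤ × ℤ) × (Fin r → ℤ × ℤ)) : PC E r D →₀ ℤ :=
  Finsupp.single (p.1, fun i => smk (c.w E) (p.2 i) y) 1 - Finsupp.single (p.1, fun _ => 0) 1

theorem Rk_lam_dif (c : CM) (E : WeierstrassCurve Qb) (s : Sb r D × Sb r (D + 1))
    (lam : E.toAffine.Point →+ ℂ) (hlam : ∀ P, lam ((c.w E).k0 P) = c.ω E * lam P)
    (y : E.toAffine.Point) (p : Matrix (Fin r) (Fin D) (ℤ × ℤ) × (Fin r → ℤ × ℤ)) :
    lam (tS c E s (Rk_dif c E y p)) =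
      Xv (p.1.map (tc (c.ω E))) (fun i => tc (c.ω E) (p.2 i)) s * lam y := by
  have h1 : (fun i => lam (smk (c.w E) (p.2 i) y)) = fun i => tc (c.ω E) (p.2 i) * lam y :=
    funext fun i => Rk_lam_smk lam hlam _ _
  have h2 : (fun _ : Fin r => lam (0 : E.toAffine.Point)) = fun _ => 0 :=
    funext fun _ => map_zero lam
  rw [Rk_dif, map_sub, map_sub, Rk_lam_single c E s lam hlam, Rk_lam_single c E s lam hlam]
  simp only [h1, h2]
  rw [Rk_Xv_zero, sub_zero, Rk_Xv_smul]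

/-- the combination of differences -/
noncomputable def Rk_v (c : CM) (E : WeierstrassCurve Qb) (y : E.toAffine.Point)
    (x : (Matrix (Fin r) (Fin D) (ℤ × ℤ) × (Fin r → ℤ × ℤ)) →₀ ℤ) : PC E r D →₀ ℤ :=
  ∑ p ∈ x.support, x p • Rk_dif c E y p

theorem Rk_lam_v (c : CM) (E : WeierstrassCurve Qb) (s : Sb r D × Sb r (D + 1))
    (lam : E.toAffine.Point →+ ℂ) (hlam : ∀ P, lam ((c.w E).k0 P) = c.ω E * lam P)
    (y : E.toAffine.Point) (x : (Matrix (Fin r) (Fin D) (ℤ × ℤ) × (Fin r → ℤ × ℤ)) →₀ ℤ) :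
    lam (tS c E s (Rk_v c E y x)) = (x.sum fun p m =>
      (m : ℂ) * Xv (p.1.map (tc (c.ω E))) (fun i => tc (c.ω E) (p.2 i)) s) * lam y := by
  rw [Rk_v, map_sum, map_sum, Finsupp.sum, Finset.sum_mul]
  refine Finset.sum_congr rfl fun p _ => ?_
  rw [map_zsmul, map_zsmul, Rk_lam_dif c E s lam hlam, zsmul_eq_mul]
  ring

/-- the action on pairs of matrices and vectors -/
def pcp (t : ℤ) (ε : Bool) (p : Matrix (Fin r) (Fin D) (ℤ × ℤ) × (Fin r → ℤ × ℤ)) :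
    Matrix (Fin r) (Fin D) (ℤ × ℤ) × (Fin r → ℤ × ℤ) :=
  (p.1.map (pc t ε), fun i => pc t ε (p.2 i))

theorem pcp_false (t : ℤ) :
    (pcp t false : Matrix (Fin r) (Fin D) (ℤ × ℤ) × (Fin r → ℤ × ℤ) → _) = id := by
  funext p
  exact Prod.ext (by ext i a <;> rfl) rfl

theorem pcp_pcp (t : ℤ) (ε : Bool) :
    (pcp t ε ∘ pcp t ε : Matrix (Fin r) (Fin D) (ℤ × ℤ) × (Fin r → ℤ × ℤ) → _) = id := by
  funext p
  refine Prod.ext ?_ ?_
  · show (p.1.map (pc t ε)).map (pc t ε) = p.1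
    ext i a
    · rw [Matrix.map_apply, Matrix.map_apply, pc_pc]
    · rw [Matrix.map_apply, Matrix.map_apply, pc_pc]
  · funext i
    exact pc_pc t ε (p.2 i)

theorem Rk_v_single (c : CM) (E : WeierstrassCurve Qb) (y : E.toAffine.Point)
    (p : Matrix (Fin r) (Fin D) (ℤ × ℤ) × (Fin r → ℤ × ℤ)) (m : ℤ) :
    Rk_v c E y (Finsupp.single p m) = m • Rk_dif c E y p :=
  Finsupp.sum_single_index (h := fun p m => m • Rk_dif c E y p) (zero_smul _ _)

theorem Rk_v_zero (c : CM) (E : WeierstrassCurve Qb) (y : E.toAffine.Point) :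
    Rk_v (r := r) (D := D) c E y 0 = 0 := rfl

theorem Rk_v_add (c : CM) (E : WeierstrassCurve Qb) (y : E.toAffine.Point)
    (x x' : (Matrix (Fin r) (Fin D) (ℤ × ℤ) × (Fin r → ℤ × ℤ)) →₀ ℤ) :
    Rk_v c E y (x + x') = Rk_v c E y x + Rk_v c E y x' :=
  Finsupp.sum_add_index' (h := fun p m => m • Rk_dif c E y p) (fun _ => zero_smul _ _)
    (fun _ _ _ => add_smul _ _ _)

/-- the symmetric combination of differences -/
noncomputable def Rk_w (c : CM) (E : WeierstrassCurve Qb) (y : E.toAffine.Point)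
    (x : (Matrix (Fin r) (Fin D) (ℤ × ℤ) × (Fin r → ℤ × ℤ)) →₀ ℤ) : PC E r D →₀ ℤ :=
  Rk_v c E y x + Rk_v c E y (x.mapDomain (pcp (c.t E) true))

theorem sum_md {α β : Type} (φ : α → β) (x : α →₀ ℤ) (g : β → ℂ) :
    ((x.mapDomain φ).sum fun p m => (m : ℂ) * g p) = x.sum fun p m => (m : ℂ) * g (φ p) :=
  Finsupp.sum_mapDomain_index (fun _ => by simp) (fun _ _ _ => by push_cast; ring)

theorem Rk_lam_w (c : CM) (E : WeierstrassCurve Qb) (s : Sb r D × Sb r (D + 1))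
    (lam : E.toAffine.Point →+ ℂ) (hlam : ∀ P, lam ((c.w E).k0 P) = c.ω E * lam P)
    (y : E.toAffine.Point) (x : (Matrix (Fin r) (Fin D) (ℤ × ℤ) × (Fin r → ℤ × ℤ)) →₀ ℤ)
    (κ : ℤ) (hx : (x.sum fun p m =>
      (m : ℂ) * Xv (p.1.map (tc (c.ω E))) (fun i => tc (c.ω E) (p.2 i)) s) = κ) :
    lam (tS c E s (Rk_w c E y x)) = ((2 * κ : ℤ) : ℂ) * lam y := by
  have h0 := sum_md (pcp (c.t E) true) x
    (fun p => Xv (p.1.map (tc (c.ω E))) (fun i => tc (c.ω E) (p.2 i)) s)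
  beta_reduce at h0
  have h1 : ∀ p : Matrix (Fin r) (Fin D) (ℤ × ℤ) × (Fin r → ℤ × ℤ),
      Xv ((pcp (c.t E) true p).1.map (tc (c.ω E)))
        (fun i => tc (c.ω E) ((pcp (c.t E) true p).2 i)) s =
      conj (Xv (p.1.map (tc (c.ω E))) (fun i => tc (c.ω E) (p.2 i)) s) := by
    intro p
    have h2 := Xv_cjB true (p.1.map (tc (c.ω E))) (fun i => tc (c.ω E) (p.2 i)) s
    rw [← map_tc_pc (c.trace E)] at h2
    simp only [← tc_pc (c.trace E)] at h2
    exact h2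
  simp only [h1] at h0
  have h3 : (x.sum fun p m => (m : ℂ) *
      conj (Xv (p.1.map (tc (c.ω E))) (fun i => tc (c.ω E) (p.2 i)) s)) = (κ : ℂ) := by
    rw [← map_intCast (starRingEnd ℂ) κ, ← hx, Finsupp.sum, Finsupp.sum, map_sum]
    refine Finset.sum_congr rfl fun p _ => ?_
    rw [map_mul, map_intCast]
  rw [h3] at h0
  rw [Rk_w, map_add, map_add, Rk_lam_v c E s lam hlam, Rk_lam_v c E s lam hlam, hx, h0]
  push_cast
  ring

variable {K : Type} [Field K] [Algebra K Qb]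

/-- the conditions without the Galois group -/
noncomputable def Z1 (Γ : Grid) (c : CM) (E : WeierstrassCurve K) (r D : ℕ) :
    AddSubgroup (PC (E⁄Qb) r D →₀ ℤ) where
  carrier := {b | (∀ p ∈ b.support,
      MatC c (fun _ : Fin D => E⁄Qb) (fun _ : Fin r => E⁄Qb) p.1 ∧ ∀ i, p.2 i ∈ Γ (E⁄Qb)) ∧
    ∀ M, MatC c (fun _ : Fin D => E⁄Qb) (fun _ : Fin r => E⁄Qb) M → nmb c M b = 0}
  zero_mem' := ⟨fun p hp => absurd hp (by simp), fun M _ => map_zero _⟩
  add_mem' := by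
    rintro b b' ⟨h1, h3⟩ ⟨h1', h3'⟩
    refine ⟨fun p hp => ?_, fun M hM => ?_⟩
    · rcases Finset.mem_union.1 (Finsupp.support_add hp) with h | h
      · exact h1 p h
      · exact h1' p h
    · rw [map_add, h3 M hM, h3' M hM, add_zero]
  neg_mem' := by
    rintro b ⟨h1, h3⟩
    refine ⟨fun p hp => h1 p (by rwa [Finsupp.support_neg] at hp), fun M hM => ?_⟩
    rw [map_neg, h3 M hM, neg_zero]

theorem Rk_dif_mem {Γ : Grid} (c : CM) (E : WeierstrassCurve K)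
    (hS : ∀ P ∈ Γ (E⁄Qb), (c.w (E⁄Qb)).k0 P ∈ Γ (E⁄Qb))
    {y : (E⁄Qb).toAffine.Point} (hy : y ∈ GKg Γ E)
    (p : Matrix (Fin r) (Fin D) (ℤ × ℤ) × (Fin r → ℤ × ℤ))
    (hp : (c.ω (E⁄Qb)).im = 0 → ∀ i a, (p.1 i a).2 = 0) :
    Rk_dif c (E⁄Qb) y p ∈ Z1 Γ c E r D := by
  have hmat : MatC c (fun _ : Fin D => E⁄Qb) (fun _ : Fin r => E⁄Qb) p.1 := fun i a =>
    ⟨fun h => absurd rfl h, fun h => hp h i a⟩
  have hsmk : ∀ q, smk (c.w (E⁄Qb)) q y ∈ Γ (E⁄Qb) := by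
    intro q
    rw [smk]
    exact add_mem (zsmul_mem hy.1 _) (zsmul_mem (hS y hy.1) _)
  refine ⟨fun P hP => ?_, fun M hM => ?_⟩
  · rcases Finset.mem_union.1 (Finsupp.support_sub hP) with h1 | h1
    · rw [Finset.mem_singleton.1 (Finsupp.support_single_subset h1)]
      exact ⟨hmat, fun i => hsmk _⟩
    · rw [Finset.mem_singleton.1 (Finsupp.support_single_subset h1)]
      exact ⟨hmat, fun i => zero_mem _⟩
  · rw [Rk_dif, map_sub, nmb, Finsupp.liftAddHom_apply_single, Finsupp.liftAddHom_apply_single]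
    exact sub_self _

theorem Rk_v_mem {Γ : Grid} (c : CM) (E : WeierstrassCurve K)
    (hS : ∀ P ∈ Γ (E⁄Qb), (c.w (E⁄Qb)).k0 P ∈ Γ (E⁄Qb))
    {y : (E⁄Qb).toAffine.Point} (hy : y ∈ GKg Γ E)
    (x : (Matrix (Fin r) (Fin D) (ℤ × ℤ) × (Fin r → ℤ × ℤ)) →₀ ℤ)
    (hx : (c.ω (E⁄Qb)).im = 0 → ∀ p ∈ x.support, ∀ i, (p.2 i).2 = 0 ∧ ∀ a, (p.1 i a).2 = 0) :
    Rk_v c (E⁄Qb) y x ∈ Z1 Γ c E r D :=
  sum_mem fun p hp => zsmul_mem
    (Rk_dif_mem c E hS hy p fun h i a => (hx h p hp i).2 a) _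

theorem Rk_dif_ac {c : CM} {E : WeierstrassCurve K} {e : (Qb ≃ₐ[K] Qb) → Bool}
    (he : GalW c E e) (σ : Qb ≃ₐ[K] Qb) {y : (E⁄Qb).toAffine.Point} (hy : gal σ y = y)
    (p : Matrix (Fin r) (Fin D) (ℤ × ℤ) × (Fin r → ℤ × ℤ)) :
    (Rk_dif c (E⁄Qb) y p).mapDomain (ac c E (e σ) σ) =
      Rk_dif c (E⁄Qb) y (pcp (c.t (E⁄Qb)) (e σ) p) := by
  have h5 := (Finsupp.mapDomain.addMonoidHom (M := ℤ)
    (ac c E (e σ) σ : PC (E⁄Qb) r D → PC (E⁄Qb) r D)).map_sub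
      (Finsupp.single (p.1, fun i => smk (c.w (E⁄Qb)) (p.2 i) y) (1 : ℤ))
      (Finsupp.single (p.1, fun _ => 0) (1 : ℤ))
  change Finsupp.mapDomain _ (Rk_dif c (E⁄Qb) y p) =
    Finsupp.mapDomain _ _ - Finsupp.mapDomain _ _ at h5
  rw [h5, Finsupp.mapDomain_single, Finsupp.mapDomain_single]
  have h6 : (fun i => gal σ (smk (c.w (E⁄Qb)) (p.2 i) y)) =
      fun i => smk (c.w (E⁄Qb)) (pc (c.t (E⁄Qb)) (e σ) (p.2 i)) y := by
    funext i
    rw [gal_smk he, hy]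
  have h7 : (fun _ : Fin r => gal σ (0 : (E⁄Qb).toAffine.Point)) = fun _ => 0 := by
    funext i
    exact map_zero _
  unfold ac
  rw [h6, h7]
  rfl

theorem Rk_v_ac {c : CM} {E : WeierstrassCurve K} {e : (Qb ≃ₐ[K] Qb) → Bool}
    (he : GalW c E e) (σ : Qb ≃ₐ[K] Qb) {y : (E⁄Qb).toAffine.Point} (hy : gal σ y = y)
    (x : (Matrix (Fin r) (Fin D) (ℤ × ℤ) × (Fin r → ℤ × ℤ)) →₀ ℤ) :
    (Rk_v c (E⁄Qb) y x).mapDomain (ac c E (e σ) σ) =
      Rk_v c (E⁄Qb) y (x.mapDomain (pcp (c.t (E⁄Qb)) (e σ))) := by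
  induction x using Finsupp.induction_linear with
  | zero => rw [Finsupp.mapDomain_zero, Rk_v_zero, Finsupp.mapDomain_zero]
  | add x x' h h' => rw [Rk_v_add, Finsupp.mapDomain_add, Finsupp.mapDomain_add, Rk_v_add, h, h']
  | single p m =>
    rw [Finsupp.mapDomain_single, Rk_v_single, Rk_v_single, ← Rk_dif_ac he σ hy]
    exact (Finsupp.mapDomain.addMonoidHom (M := ℤ)
      (ac c E (e σ) σ : PC (E⁄Qb) r D → PC (E⁄Qb) r D)).map_zsmul m _

theorem Rk_w_mem {Γ : Grid} {c : CM} {E : WeierstrassCurve K} {e : (Qb ≃ₐ[K] Qb) → Bool}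
    (he : GalW c E e) (hS : ∀ P ∈ Γ (E⁄Qb), (c.w (E⁄Qb)).k0 P ∈ Γ (E⁄Qb))
    {y : (E⁄Qb).toAffine.Point} (hy : y ∈ GKg Γ E)
    (x : (Matrix (Fin r) (Fin D) (ℤ × ℤ) × (Fin r → ℤ × ℤ)) →₀ ℤ)
    (hx : (c.ω (E⁄Qb)).im = 0 → ∀ p ∈ x.support, ∀ i, (p.2 i).2 = 0 ∧ ∀ a, (p.1 i a).2 = 0) :
    Rk_w c (E⁄Qb) y x ∈ ZC0 Γ c E e r D := by
  have hx' : (c.ω (E⁄Qb)).im = 0 → ∀ p ∈ (x.mapDomain (pcp (c.t (E⁄Qb)) true)).support, ∀ i,
      (p.2 i).2 = 0 ∧ ∀ a, (p.1 i a).2 = 0 := by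
    intro h p hp i
    obtain ⟨q, hq, rfl⟩ := Finset.mem_image.1 (Finsupp.mapDomain_support hp)
    exact ⟨pc_snd _ _ _ (hx h q hq i).1, fun a => by
      have h2 : (pcp (c.t (E⁄Qb)) true q).1 i a = pc (c.t (E⁄Qb)) true (q.1 i a) := rfl
      rw [h2]
      exact pc_snd _ _ _ ((hx h q hq i).2 a)⟩
  have h1 : Rk_w c (E⁄Qb) y x ∈ Z1 Γ c E r D :=
    add_mem (Rk_v_mem c E hS hy x hx) (Rk_v_mem c E hS hy _ hx')
  refine ⟨h1.1, fun σ => ?_, h1.2⟩
  rw [Rk_w, Finsupp.mapDomain_add, Rk_v_ac he σ (hy.2 σ), Rk_v_ac he σ (hy.2 σ)]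
  cases e σ
  · rw [pcp_false, Finsupp.mapDomain_id, Finsupp.mapDomain_id]
  · rw [← Finsupp.mapDomain_comp, pcp_pcp, Finsupp.mapDomain_id, add_comm]

theorem rkC_eq {Γ Γ' : Grid} (hΓ : Orth Γ') (hF : Fun Γ') (c : CM) (E : WeierstrassCurve K)
    (hle : Γ (E⁄Qb) ≤ Γ' (E⁄Qb)) (hSt : ∀ P ∈ Γ (E⁄Qb), (c.w (E⁄Qb)).k0 P ∈ Γ (E⁄Qb))
    (hE : (E⁄Qb).IsElliptic) {e : (Qb ≃ₐ[K] Qb) → Bool} (he : GalW c E e) {F : Type} [Field F]
    [Algebra Qb F]
    (ξ : ∀ _ : Fin D, ((E⁄Qb)⁄F).toAffine.Point)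
    (hξ : IsGen 0 (Algebra.ofId Qb F) (fun _ : Fin D => E⁄Qb) ξ) {B : Type} [Fintype B]
    (hB : LA (c.ω (E⁄Qb)) r D B) :
    rkC Γ c E e r ξ = Fintype.card B * Module.rank ℤ (GKg Γ E) := by
  obtain ⟨⟨ι, hι⟩, x, κ, hx, hval, hind⟩ := hB
  let Z := ZC0 Γ c E e r D
  let G := GKg Γ E
  let α := clCF c r ξ
  have htor : ∀ b ∈ Z, IsOfFinAddOrder (α b) ↔ ∀ s, IsOfFinAddOrder (tS c (E⁄Qb) s b) :=
    fun b hb => crit hΓ hF c E hE ξ hξ e b (ZC0_mono c E e hle hb)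
  change Module.rank ℤ (α.comp Z.subtype).range = _
  apply le_antisymm
  · -- upper bound
    let ψ : Z →+ (B → G) :=
      { toFun := fun b β => ⟨tS c (E⁄Qb) (ι β) b.1, tS_mem hSt he (ι β) b.1 b.2⟩
        map_zero' := by
          funext i
          apply Subtype.ext
          exact map_zero _
        map_add' := by
          intro b b'
          funext i
          apply Subtype.ext
          exact map_add _ _ _ }
    refine (rank_le (α.comp Z.subtype) ψ fun b hb => ?_).trans (Rk_fun_le _ _)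
    change IsOfFinAddOrder (α b.1)
    rw [htor b.1 b.2]
    intro s
    refine sep c (E⁄Qb) _ fun lam hlam => ?_
    obtain ⟨n, a, hn, hs⟩ := hι s
    have h2 : ∀ β, lam (tS c (E⁄Qb) (ι β) b.1) = 0 := fun β => by
      have h3 : tS c (E⁄Qb) (ι β) b.1 = 0 := congrArg Subtype.val (congrFun hb β)
      rw [h3, map_zero]
    have h3 : (n : ℂ) * lam (tS c (E⁄Qb) s b.1) = 0 := by
      rw [lam_tS c (E⁄Qb) s lam hlam, Finsupp.sum, Finset.mul_sum]
      have h4 : ∀ p ∈ b.1.support, (n : ℂ) * ((b.1 p : ℂ) *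
          Xv (p.1.map (tc (c.ω (E⁄Qb)))) (fun i => lam (p.2 i)) s) =
          ∑ β, (a β : ℂ) * ((b.1 p : ℂ) *
            Xv (p.1.map (tc (c.ω (E⁄Qb)))) (fun i => lam (p.2 i)) (ι β)) := by
        intro p _
        have h5 := hs p.1 (fun i => lam (p.2 i))
        calc _ = (b.1 p : ℂ) * (n * Xv (p.1.map (tc (c.ω (E⁄Qb)))) (fun i => lam (p.2 i)) s) := by
              ring
          _ = _ := by
              rw [h5, Finset.mul_sum]
              exact Finset.sum_congr rfl fun β _ => by ring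
      rw [Finset.sum_congr rfl h4, Finset.sum_comm]
      refine Finset.sum_eq_zero fun β _ => ?_
      rw [← Finset.mul_sum]
      have h6 := h2 β
      rw [lam_tS c (E⁄Qb) (ι β) lam hlam, Finsupp.sum] at h6
      rw [h6, mul_zero]
    rcases mul_eq_zero.1 h3 with h4 | h4
    · exact absurd (by exact_mod_cast h4) hn
    · exact h4
  · -- lower bound
    obtain ⟨S, hS, hli⟩ := exists_set_linearIndependent ℤ G
    let v₀ : B × S → (PC (E⁄Qb) r D →₀ ℤ) := fun s => Rk_w c (E⁄Qb) s.2.1.1 (x s.1)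
    have hv₀ : ∀ s, v₀ s ∈ Z := fun s => Rk_w_mem he hSt s.2.1.2 (x s.1) fun h => hx h s.1
    have hv₁ : ∀ s q, IsOfFinAddOrder (tS c (E⁄Qb) q (v₀ s) - (2 * κ s.1 q) • s.2.1.1) := by
      intro s q
      refine sep c (E⁄Qb) _ fun lam hlam => ?_
      rw [map_sub, Rk_lam_w c (E⁄Qb) q lam hlam _ _ _ (hval s.1 q), map_zsmul, zsmul_eq_mul,
        sub_self]
    have hind' : ∀ e : B → ℤ, (∀ s, ∑ β, e β * (2 * κ β s) = 0) → ∀ β, e β = 0 := by
      intro e he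
      refine hind e fun s => ?_
      have h1 := he s
      have h2 : ∑ β, e β * (2 * κ β s) = 2 * ∑ β, e β * κ β s := by
        rw [Finset.mul_sum]
        exact Finset.sum_congr rfl fun β _ => by ring
      rw [h2] at h1
      omega
    have hli2 : LinearIndependent ℤ (fun s : B × S =>
        (⟨α (v₀ s), ⟨⟨v₀ s, hv₀ s⟩, rfl⟩⟩ : (α.comp Z.subtype).range)) := by
      rw [linearIndependent_iff']
      intro T n hn s hs
      have h1 : α (∑ s ∈ T, n s • v₀ s) = 0 := by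
        rw [map_sum]
        have h2 := congrArg Subtype.val hn
        rw [AddSubgroup.val_finsetSum] at h2
        rw [AddSubgroup.coe_zero] at h2
        rw [← h2]
        refine Finset.sum_congr rfl fun s _ => ?_
        rw [map_zsmul]
        rfl
      have h3 : ∀ q, IsOfFinAddOrder (∑ s ∈ T, (n s * (2 * κ s.1 q)) • s.2.1.1) := by
        intro q
        have h4 := (htor _ (sum_mem fun s _ => zsmul_mem (hv₀ s) (n s))).1
          (by rw [h1]; exact IsOfFinAddOrder.zero) q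
        rw [map_sum] at h4
        have h5 : ∀ s ∈ T, tS c (E⁄Qb) q (n s • v₀ s) - (n s * (2 * κ s.1 q)) • s.2.1.1 ∈
            AddCommGroup.torsion (E⁄Qb).toAffine.Point := by
          intro s _
          rw [map_zsmul]
          exact Rk_tor (n s) (2 * κ s.1 q) _ _ (hv₁ s q)
        have h6 := sub_mem (show _ ∈ AddCommGroup.torsion (E⁄Qb).toAffine.Point from h4)
          (sum_mem h5)
        rw [← Finset.sum_sub_distrib] at h6
        have h7 : ∑ s ∈ T, (n s * (2 * κ s.1 q)) • s.2.1.1 = ∑ s ∈ T, (tS c (E⁄Qb) q (n s • v₀ s) -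
            (tS c (E⁄Qb) q (n s • v₀ s) - (n s * (2 * κ s.1 q)) • s.2.1.1)) :=
          Finset.sum_congr rfl fun s _ => by abel
        rw [h7]
        exact h6
      exact Rk_lin_step hli (fun β q => 2 * κ β q) hind' T n h3 s hs
    have h16 := hli2.cardinal_le_rank
    rw [Cardinal.mk_prod, Cardinal.lift_id, Cardinal.lift_id, Cardinal.mk_fintype, hS] at h16
    exact h16

end Pool.Agent.LibER34
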