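import Pool.Agent.LibER34.Tr0
import Pool.Agent.LibER34.Un

/-!
The intrinsic groups and the groups given by matrices: second inequality.
-/

open WeierstrassCurve Pool.Agent.LibBH2 Pool.Agent.LibIG50 Pool.Agent.LibCHd Pool.Agent.LibGG
  Pool.Agent.LibAC34 Pool.Agent.LibAF11
open scoped Classical ComplexConjugate

namespace Pool.Agent.LibER34

variable {r D : ℕ} {K : Type} [Field K] [Algebra K Qb]

private theorem det_zero (A B : Matrix (Fin D) (Fin D ⊕ Unit) ℂ) : (A.transpose * B).det = 0 := by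
  by_contra h
  have hu : IsUnit (A.transpose * B) :=
    (Matrix.isUnit_iff_isUnit_det _).2 (isUnit_iff_ne_zero.2 h)
  have h1 := Matrix.rank_of_isUnit _ hu
  have h2 := (Matrix.rank_mul_le_right A.transpose B).trans (Matrix.rank_le_card_height B)
  rw [h1, Fintype.card_sum, Fintype.card_fin, Fintype.card_unit] at h2
  omega

private theorem alg_step {G : Type*} [AddCommGroup G] (q m : ℤ) (x y : G) :
    q • m • x = m • (q • x - y) + m • y := by
  rw [smul_sub, sub_add_cancel, smul_comm]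

private theorem sum_map {α β G : Type*} [AddCommGroup G] (φ : α → β) (b : α →₀ ℤ) (g : β → G) :
    ((b.mapDomain φ).sum fun p m => m • g p) = b.sum fun p m => m • g (φ p) :=
  Finsupp.sum_mapDomain_index (h := fun p m => m • g p) (fun _ => zero_smul ℤ _)
    (fun _ _ _ => add_smul _ _ _)

private theorem pntH_linC (c : CM) {E : WeierstrassCurve Qb} [hE : E.IsElliptic] {F : Type}
    [Field F] [Algebra Qb F] (ξ : ∀ _ : Fin D, (E⁄F).toAffine.Point)
    (N : Matrix (Fin r) (Fin D) (ℤ × ℤ)) (g : Pts (fun _ : Fin r => E)) :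
    pntH (Algebra.ofId Qb F) ξ (org _) (hN (c.w E) N) g =
      linC c.w (Algebra.ofId Qb F) (fun _ => Hm.id E) ξ N g (org (fun _ : Fin r => E)) :=
  pnt_linC (V' := fun _ : Fin D => E) (W' := fun _ : Fin r => E) (W := fun _ : Fin r => E) c.w
    (fun _ => Hm.id E) N g g (fun i => k0_id (g i)) (Algebra.ofId Qb F) ξ (org _)

theorem le_ZE {Γ Γ' : Grid} (hΓ : Orth Γ') (hF : Fun Γ') {c : CM} (hc : Full c)
    (E : WeierstrassCurve K) {ε : (Qb ≃ₐ[K] Qb) → Bool} (he : GalW c E ε)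
    (hle : Γ (E⁄Qb) ≤ Γ' (E⁄Qb)) (hE : (E⁄Qb).IsElliptic) {F : Type}
    [Field F] [Algebra Qb F] (ξ : ∀ _ : Fin D, ((E⁄Qb)⁄F).toAffine.Point)
    (hξ : IsGen 0 (Algebra.ofId Qb F) (fun _ : Fin D => E⁄Qb) ξ) :
    rkC Γ c E ε r ξ ≤ rk (clF ξ '' ZE Γ E r ξ) := by
  unfold rkC
  apply le_rk
  rintro _ ⟨⟨b, hb⟩, rfl⟩
  let φ : PC (E⁄Qb) r D → Homs (fun _ : Fin D => E⁄Qb) (fun _ : Fin r => E⁄Qb) ×
    Pts (fun _ : Fin r => E⁄Qb) := fun p => (hN (c.w (E⁄Qb)) p.1, p.2)
  refine ⟨clF ξ (b.mapDomain φ), ⟨b.mapDomain φ, ⟨?_, ?_, ?_⟩, rfl⟩, ?_⟩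
  · -- the components
    intro p hp i
    have h1 := Finsupp.mapDomain_support hp
    obtain ⟨q, hq, rfl⟩ := Finset.mem_image.1 h1
    exact (hb.1 q hq).2 i
  · -- Galois
    intro σ
    have hval : ∀ (p : ℤ × ℤ) (P : (E⁄Qb).toAffine.Point),
        sm (c.w (E⁄Qb)) Qb p (tr (E⁄Qb) (E⁄Qb) (constPt Qb P)) =
          constPt Qb (smk (c.w (E⁄Qb)) p P) := fun p P => by rw [tr_self, sm_const]
    have inj : ∀ p ∈ b.support, ∀ p' ∈ b.support, φ p' = φ p → p' = p := by
      intro p hp p' hp' h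
      refine Prod.ext ?_ (show (φ p').2 = (φ p).2 by rw [h])
      have h1 : ∀ i a, p'.1 i a = p.1 i a := fun i a => by
        refine pair_unique c (E⁄Qb) ((hb.1 p' hp').1 i a).2 ((hb.1 p hp).1 i a).2 fun P => ?_
        have h2 : (hN (c.w (E⁄Qb)) p'.1 i a).f Qb (constPt Qb P) =
            (hN (c.w (E⁄Qb)) p.1 i a).f Qb (constPt Qb P) := by
          rw [show hN (c.w (E⁄Qb)) p'.1 = hN (c.w (E⁄Qb)) p.1 from congrArg Prod.fst h]
        exact constPt_inj (F := Qb) ((hval _ P).symm.trans (h2.trans (hval _ P)))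
      exact funext fun i => funext fun a => h1 i a
    let ψ : Homs (fun _ : Fin D => E⁄Qb) (fun _ : Fin r => E⁄Qb) ×
        Pts (fun _ : Fin r => E⁄Qb) → Homs (fun _ : Fin D => E⁄Qb) (fun _ : Fin r => E⁄Qb) ×
        Pts (fun _ : Fin r => E⁄Qb) := fun q =>
      if h : ∃ p ∈ b.support, φ p = q then φ (ac c E (ε σ) σ h.choose) else q
    have hψ : ∀ p ∈ b.support, ψ (φ p) = φ (ac c E (ε σ) σ p) := by
      intro p hp
      have h : ∃ p' ∈ b.support, φ p' = φ p := ⟨p, hp, rfl⟩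
      have h2 : h.choose = p := inj p hp _ h.choose_spec.1 h.choose_spec.2
      show (if h : ∃ p' ∈ b.support, φ p' = φ p then φ (ac c E (ε σ) σ h.choose) else φ p) = _
      rw [dif_pos h, h2]
    refine ⟨ψ, fun q hq => ?_, ?_⟩
    · obtain ⟨p, hp, rfl⟩ := Finset.mem_image.1 (Finsupp.mapDomain_support hq)
      rw [hψ p hp]
      refine ⟨fun i a P Q h => ?_, fun i => rfl⟩
      have h1 : smk (c.w (E⁄Qb)) (p.1 i a) P = Q :=
        constPt_inj (F := Qb) ((hval _ P).symm.trans h)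
      rw [← h1]
      show Sd _ (gal σ P) (gal σ (smk (c.w (E⁄Qb)) (p.1 i a) P))
      rw [gal_smk he]
      exact hval _ _
    · rw [← Finsupp.mapDomain_comp]
      conv_rhs => rw [← hb.2.1 σ, ← Finsupp.mapDomain_comp]
      exact Finsupp.mapDomain_congr hψ
  · -- homologically trivial
    intro f
    obtain ⟨Q, hQ, M', -, hM2, hM3⟩ := family_pair hc (X := Fin D × Fin r) (fun _ => E⁄Qb)
      (fun _ => E⁄Qb) (fun _ => hE) (fun _ => hE) (fun _ _ => rfl)
      (fun x => (f x.1 x.2).toHm)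
    let M : Matrix (Fin D) (Fin r) (ℤ × ℤ) := fun a i => M' (a, i)
    have hf : ∀ a i (F : Type) [Field F] [Algebra Qb F] (P : ((E⁄Qb)⁄F).toAffine.Point),
        (Q : ℤ) • (f a i).f F P = sm (c.w (E⁄Qb)) F (M a i) P := by
      intro a i F _ _ P
      have h1 := hM3 (a, i) F P
      rw [tr_self] at h1
      rw [natCast_zsmul]
      exact h1
    have h1 : ∀ p : PC (E⁄Qb) r D, IsOfFinAddOrder (((Q : ℤ) * 1) ^ (2 * D) •
        (QuotientAddGroup.mk (cyc (imgH f (pntH (Algebra.ofId Qb F) ξ (org _)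
          (hN (c.w (E⁄Qb)) p.1) p.2))) : CH (fun _ : Fin D => E⁄Qb) (pt0 Qb) D) -
        clC c.w (Algebra.ofId Qb F) D (fun _ => Hm.id (E⁄Qb)) ξ (org _)
          (mulP (c.t (E⁄Qb)) (c.n (E⁄Qb)) M p.1)
          (fun a => ∑ i, (f a i).toHm.k0 (p.2 i))) := by
      intro p
      refine dir_step c hE ξ hξ f M Q hf _ p.1 1 (fun i a F _ _ P => ?_) p.2
      rw [one_smul]
      show sm (c.w (E⁄Qb)) F (p.1 i a) (tr (E⁄Qb) (E⁄Qb) P) = _
      rw [tr_self]
    have h2 : ∀ n, n = 0 + D → IsOfFinAddOrder (∑ j : b.support, b j.1 •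
        clC c.w (Algebra.ofId Qb F) n (fun _ => Hm.id (E⁄Qb)) ξ (org (fun _ : Fin D => E⁄Qb))
          (mulP (c.t (E⁄Qb)) (c.n (E⁄Qb)) M j.1.1)
          (fun a => ∑ i, (f a i).toHm.k0 (j.1.2 i))) := by
      rintro n rfl
      refine all_dimC hΓ hF c D (fun _ => E⁄Qb) (fun _ => E⁄Qb) (fun _ => Hm.id _) (fun _ => hE)
        (fun _ => hE) D (fun _ => E⁄Qb) (fun _ => hE) (pt0 Qb) 0 Qb (org _) F
        (Algebra.ofId Qb F) ξ hξ b.support (fun j => b j.1)
        (fun j => mulP (c.t (E⁄Qb)) (c.n (E⁄Qb)) M j.1.1)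
        (fun j a => ∑ i, (f a i).toHm.k0 (j.1.2 i)) ?_ ?_ ?_ ?_
      · intro j i a
        refine ⟨fun h => absurd rfl h, fun h => ?_⟩
        exact mulP_real M j.1.1 (fun a i => hM2 (a, i) h)
          (fun i a => ((hb.1 j.1 j.2).1 i a).2 h) i a
      · intro j a
        exact sum_mem fun i _ => hF _ _ _ _ (hle ((hb.1 j.1 j.2).2 i))
      · intro M'' hM''
        have h3 := hb.2.2 M.transpose (fun i a => ⟨fun h => absurd rfl h, hM2 (a, i)⟩)
        have h4 : nmb c M.transpose b = ∑ j : b.support, (b j.1 : ℝ) *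
            Complex.normSq ((cx c (fun _ => E⁄Qb) M.transpose).transpose *
              cx c (fun _ => E⁄Qb) j.1.1).det := by
          rw [nmb, Finsupp.liftAddHom_apply, Finsupp.sum, ← Finset.sum_coe_sort]
          refine Finset.sum_congr rfl fun j _ => ?_
          rw [zmultiplesHom_apply, zsmul_eq_mul]
        have h5 : ∀ j : b.support, Complex.normSq ((cx c (fun _ : Fin D => E⁄Qb) M'').transpose *
            cx c (fun _ : Fin D => E⁄Qb) (mulP (c.t (E⁄Qb)) (c.n (E⁄Qb)) M j.1.1)).det =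
            Complex.normSq (cx c (fun _ : Fin D => E⁄Qb) M'').det *
              Complex.normSq ((cx c (fun _ => E⁄Qb) M.transpose).transpose *
                cx c (fun _ => E⁄Qb) j.1.1).det := by
          intro j
          have h6 : cx c (fun _ : Fin D => E⁄Qb) (mulP (c.t (E⁄Qb)) (c.n (E⁄Qb)) M j.1.1) =
              (cx c (fun _ => E⁄Qb) M.transpose).transpose * cx c (fun _ => E⁄Qb) j.1.1 :=
            mulP_tc (c.trace _) (c.norm _) M j.1.1
          rw [h6, Matrix.det_mul, Matrix.det_transpose, map_mul]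
        rw [h4] at h3
        have h7 := congrArg
          (fun x => Complex.normSq (cx c (fun _ : Fin D => E⁄Qb) M'').det * x) h3
        simp only [mul_zero, Finset.mul_sum] at h7
        rw [← h7]
        refine Finset.sum_congr rfl fun j _ => ?_
        rw [h5]
        ring
      · intro M'' _ E' s _ lam _
        refine Finset.sum_eq_zero fun j _ => ?_
        rw [det_zero, mul_zero, mul_zero]
    -- the sum
    have h8 : dirF f ξ (b.mapDomain φ) = ∑ j : b.support, b j.1 •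
        (QuotientAddGroup.mk (cyc (imgH f (pntH (Algebra.ofId Qb F) ξ (org _)
          (hN (c.w (E⁄Qb)) j.1.1) j.1.2))) : CH (fun _ : Fin D => E⁄Qb) (pt0 Qb) D) := by
      refine (sum_map φ b _).trans ?_
      rw [Finsupp.sum, ← Finset.sum_coe_sort]
    have h9 := (h2 D (Nat.zero_add D).symm)
    have h10 : IsOfFinAddOrder (((Q : ℤ) * 1) ^ (2 * D) • dirF f ξ (b.mapDomain φ)) := by
      have h11 : ((Q : ℤ) * 1) ^ (2 * D) • dirF f ξ (b.mapDomain φ) =
          (∑ j : b.support, b j.1 • (((Q : ℤ) * 1) ^ (2 * D) •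
            (QuotientAddGroup.mk (cyc (imgH f (pntH (Algebra.ofId Qb F) ξ (org _)
              (hN (c.w (E⁄Qb)) j.1.1) j.1.2))) : CH (fun _ : Fin D => E⁄Qb) (pt0 Qb) D) -
            clC c.w (Algebra.ofId Qb F) D (fun _ => Hm.id (E⁄Qb)) ξ (org _)
              (mulP (c.t (E⁄Qb)) (c.n (E⁄Qb)) M j.1.1)
              (fun a => ∑ i, (f a i).toHm.k0 (j.1.2 i)))) +
          ∑ j : b.support, b j.1 •
            clC c.w (Algebra.ofId Qb F) D (fun _ => Hm.id (E⁄Qb)) ξ (org _)
              (mulP (c.t (E⁄Qb)) (c.n (E⁄Qb)) M j.1.1)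
              (fun a => ∑ i, (f a i).toHm.k0 (j.1.2 i)) := by
        rw [h8, Finset.smul_sum, ← Finset.sum_add_distrib]
        refine Finset.sum_congr rfl fun j _ => ?_
        exact alg_step _ _ _ _
      rw [h11]
      refine IsOfFinAddOrder.add ?_ h9
      exact (AddCommGroup.torsion _).sum_mem fun j _ =>
        (AddCommGroup.torsion _).zsmul_mem (h1 j.1) _
    rw [isOfFinAddOrder_iff_zsmul_eq_zero] at h10 ⊢
    obtain ⟨n, hn, h12⟩ := h10
    refine ⟨n * ((Q : ℤ) * 1) ^ (2 * D), mul_ne_zero hn (pow_ne_zero _ ?_), ?_⟩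
    · rw [mul_one]
      exact_mod_cast hQ.ne'
    · rw [mul_smul]
      exact h12
  · -- the class
    show clCF c r ξ b = clF ξ (b.mapDomain φ)
    refine Eq.symm ((sum_map φ b _).trans ?_)
    rw [clCF, Finsupp.liftAddHom_apply]
    refine Finsupp.sum_congr fun p _ => ?_
    rw [zmultiplesHom_apply]
    unfold clC
    rw [← pntH_linC]

end Pool.Agent.LibER34
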