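import Pool.Agent.LibAC34.HG2
import Pool.Agent.LibAC34.CFin
import Pool.Agent.LibGG.Defs

/-!
The conjugate of a homomorphism of elliptic curves under an automorphism of the ground field.
-/

open WeierstrassCurve Pool.Agent.LibBH2 Pool.Agent.LibIG50 Pool.Agent.LibCHd Pool.Agent.LibGG
  Pool.Agent.LibAC34
open scoped Classical

namespace Pool.Agent.LibER34

section cast

variable {F : Type} [Field F] {W W' : WeierstrassCurve F}

/-- transport of points along an equality of curves -/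
noncomputable def castPt (h : W = W') : W.toAffine.Point →+ W'.toAffine.Point := by
  subst h
  exact AddMonoidHom.id _

theorem castPt_some (h : W = W') {x y : F} (hxy : W.toAffine.Nonsingular x y) :
    castPt h (.some x y hxy) = .some x y (h ▸ hxy) := by
  subst h
  rfl

theorem castPt_zero (h : W = W') : castPt h (.zero : W.toAffine.Point) = .zero := by
  subst h
  rfl

theorem castPt_cast (h : W = W') (P : W.toAffine.Point) : castPt h.symm (castPt h P) = P := by
  subst h
  rfl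

theorem castPt_cast' (h : W = W') (P : W'.toAffine.Point) : castPt h (castPt h.symm P) = P := by
  subst h
  rfl

end cast

section tw

variable {K : Type} [Field K] [Algebra K Qb]

/-- base change along a given structure -/
noncomputable abbrev bc (W : WeierstrassCurve Qb) (F : Type) [Field F] (A : Algebra Qb F) : WeierstrassCurve F :=
  @WeierstrassCurve.baseChange Qb _ W F _ A

theorem tw_curve (σ : Qb ≃ₐ[K] Qb) (E : WeierstrassCurve K) {F : Type} [Field F]
    (A A2 : Algebra Qb F) (h : ∀ c, @algebraMap Qb F _ _ A2 c = @algebraMap Qb F _ _ A (σ c)) :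
    bc (E⁄Qb) F A = bc (E⁄Qb) F A2 := by
  rw [bc, bc, WeierstrassCurve.baseChange, WeierstrassCurve.baseChange,
    WeierstrassCurve.baseChange, WeierstrassCurve.map_map, WeierstrassCurve.map_map]
  congr 1
  refine RingHom.ext fun c => ?_
  rw [RingHom.comp_apply, RingHom.comp_apply, h, σ.commutes]

/-- the conjugate homomorphism, computed with the structure `A2` -/
noncomputable def tf (σ : Qb ≃ₐ[K] Qb) {E E' : WeierstrassCurve K} (φ : Hm (E⁄Qb) (E'⁄Qb))
    (F : Type) [Field F] (A A2 : Algebra Qb F)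
    (h : ∀ c, @algebraMap Qb F _ _ A2 c = @algebraMap Qb F _ _ A (σ c)) :
    (bc (E⁄Qb) F A).toAffine.Point →+ (bc (E'⁄Qb) F A).toAffine.Point :=
  (castPt (tw_curve σ E' A A2 h).symm).comp
    ((@Hm.f Qb _ _ _ φ F _ A2).comp (castPt (tw_curve σ E A A2 h)))

theorem tf_indep (σ : Qb ≃ₐ[K] Qb) {E E' : WeierstrassCurve K} (φ : Hm (E⁄Qb) (E'⁄Qb))
    (F : Type) [Field F] (A A2 A3 : Algebra Qb F)
    (h2 : ∀ c, @algebraMap Qb F _ _ A2 c = @algebraMap Qb F _ _ A (σ c))
    (h3 : ∀ c, @algebraMap Qb F _ _ A3 c = @algebraMap Qb F _ _ A (σ c)) :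
    tf σ φ F A A2 h2 = tf σ φ F A A3 h3 := by
  have h : A2 = A3 := Algebra.algebra_ext _ _ fun c => (h2 c).trans (h3 c).symm
  subst h
  rfl

/-- the twisted structure -/
@[reducible]
noncomputable def twA (σ : Qb ≃ₐ[K] Qb) (F : Type) [Field F] (A : Algebra Qb F) : Algebra Qb F :=
  ((@algebraMap Qb F _ _ A).comp (σ : Qb →+* Qb)).toAlgebra

theorem twA_map (σ : Qb ≃ₐ[K] Qb) (F : Type) [Field F] (A : Algebra Qb F) (c : Qb) :
    @algebraMap Qb F _ _ (twA σ F A) c = @algebraMap Qb F _ _ A (σ c) := rfl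

theorem cast_mp {F G : Type} [Field F] [Field G] {W : WeierstrassCurve Qb}
    (A A' : Algebra Qb F) (B B' : Algebra Qb G)
    (hA : bc W F A = bc W F A') (hB : bc W G B = bc W G B')
    (τ : @AlgHom Qb F G _ _ _ A B) (τ' : @AlgHom Qb F G _ _ _ A' B')
    (h : ∀ x, τ x = τ' x) (P : (bc W F A).toAffine.Point) :
    castPt hB (@mp Qb _ F G _ A _ B W τ P) = @mp Qb _ F G _ A' _ B' W τ' (castPt hA P) := by
  match P with
  | .zero =>
    rw [castPt_zero]
    exact castPt_zero hB
  | .some x y hxy =>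
    have hxy' : (bc W F A').toAffine.Nonsingular x y := hA ▸ hxy
    have e0 : castPt hA (.some x y hxy) = .some x y hxy' := castPt_some hA hxy
    rw [e0]
    obtain ⟨h1, e1⟩ := @mp_some Qb _ F G _ A _ B W τ x y hxy
    obtain ⟨h2, e2⟩ := @mp_some Qb _ F G _ A' _ B' W τ' x y hxy'
    rw [e1, castPt_some]
    refine Eq.trans ?_ e2.symm
    congr 1
    · exact h x
    · exact h y

/-- the place with the twisted structure -/
noncomputable def twP (σ : Qb ≃ₐ[K] Qb) (F : Type) [Field F] (A : Algebra Qb F) (v : @Place Qb F _ _ A) :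
    @Place Qb F _ _ (twA σ F A) :=
  @Place.mk Qb F _ _ (twA σ F A) v.ord v.ord_zero v.ord_mul v.ord_add
    (fun c hc => v.ord_const (σ c) (by
      intro h
      exact hc (by simpa using h))) v.exists_uniformizer

theorem RF_alg {F : Type} [Field F] (A : Algebra Qb F) (v : @Place Qb F _ _ A) (c : Qb) :
    algebraMap Qb (RF v) c = IsLocalRing.residue (VR v) ⟨algebraMap Qb F c, v.reg_const c⟩ := rfl

/-- the structure on the residue field coming from the twisted structure -/
@[reducible]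
noncomputable def rfA (σ : Qb ≃ₐ[K] Qb) {F : Type} [Field F] (A : Algebra Qb F)
    (v : @Place Qb F _ _ A) : Algebra Qb (RF v) :=
  (inferInstance : Algebra Qb (@RF Qb _ F _ (twA σ F A) (twP σ F A v)))

theorem rfA_map (σ : Qb ≃ₐ[K] Qb) {F : Type} [Field F] (A : Algebra Qb F)
    (v : @Place Qb F _ _ A) (c : Qb) :
    @algebraMap Qb (RF v) _ _ (rfA σ A v) c = algebraMap Qb (RF v) (σ c) := rfl

theorem spR_cast (σ : Qb ≃ₐ[K] Qb) {F : Type} [Field F] (A : Algebra Qb F)
    (v : @Place Qb F _ _ A) {W : WeierstrassCurve Qb}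
    (h1 : bc W F A = bc W F (twA σ F A))
    (h2 : bc W (RF v) inferInstance = bc W (RF v) (rfA σ A v))
    (P : (bc W F A).toAffine.Point) (p : (bc W (RF v) inferInstance).toAffine.Point) :
    @SpR Qb _ F _ A v W P p ↔
      @SpR Qb _ F _ (twA σ F A) (twP σ F A v) W (castPt h1 P) (castPt h2 p) := by
  match P, p with
  | .zero, .zero =>
    rw [castPt_zero, castPt_zero]
    exact ⟨fun _ => rfl, fun _ => rfl⟩
  | .zero, .some x₀ y₀ h₀ =>
    have e0 : castPt h2 (.some x₀ y₀ h₀) = .some x₀ y₀ (h2 ▸ h₀) := castPt_some h2 h₀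
    rw [castPt_zero, e0]
    constructor
    · intro h
      exact absurd h (by intro h'; cases h')
    · intro h
      exact absurd h (by intro h'; cases h')
  | .some x y h, .zero =>
    have e0 : castPt h1 (.some x y h) = .some x y (h1 ▸ h) := castPt_some h1 h
    rw [castPt_zero, e0]
    exact Iff.rfl
  | .some x y h, .some x₀ y₀ h₀ =>
    have e0 : castPt h1 (.some x y h) = .some x y (h1 ▸ h) := castPt_some h1 h
    have e1 : castPt h2 (.some x₀ y₀ h₀) = .some x₀ y₀ (h2 ▸ h₀) := castPt_some h2 h₀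
    rw [e0, e1]
    exact Iff.rfl

/-- the conjugate homomorphism -/
noncomputable def twH (σ : Qb ≃ₐ[K] Qb) {E E' : WeierstrassCurve K} (φ : Hm (E⁄Qb) (E'⁄Qb)) :
    Hm (E⁄Qb) (E'⁄Qb) where
  f F _ A := tf σ φ F A (twA σ F A) (twA_map σ F A)
  nat F G _ A _ B τ P := by
    obtain ⟨τ', hτ⟩ : ∃ τ' : @AlgHom Qb F G _ _ _ (twA σ F A) (twA σ G B), ∀ x, τ x = τ' x :=
      ⟨@AlgHom.mk Qb F G _ _ _ (twA σ F A) (twA σ G B) (τ : F →+* G)
        (fun c => τ.commutes (σ c)), fun _ => rfl⟩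
    have h1 := cast_mp A (twA σ F A) B (twA σ G B)
      (tw_curve σ E A (twA σ F A) (twA_map σ F A)) (tw_curve σ E B (twA σ G B) (twA_map σ G B))
      τ τ' hτ P
    have h2 := cast_mp A (twA σ F A) B (twA σ G B)
      (tw_curve σ E' A (twA σ F A) (twA_map σ F A))
      (tw_curve σ E' B (twA σ G B) (twA_map σ G B)) τ τ' hτ
      (tf σ φ F A (twA σ F A) (twA_map σ F A) P)
    have h3 : castPt (tw_curve σ E' A (twA σ F A) (twA_map σ F A))
        (tf σ φ F A (twA σ F A) (twA_map σ F A) P) =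
        @Hm.f Qb _ _ _ φ F _ (twA σ F A) (castPt (tw_curve σ E A (twA σ F A) (twA_map σ F A)) P) :=
      castPt_cast' _ _
    rw [h3] at h2
    have h4 := @Hm.nat Qb _ _ _ φ F G _ (twA σ F A) _ (twA σ G B) τ'
      (castPt (tw_curve σ E A (twA σ F A) (twA_map σ F A)) P)
    change castPt (tw_curve σ E' B (twA σ G B) (twA_map σ G B)).symm
      (@Hm.f Qb _ _ _ φ G _ (twA σ G B)
        (castPt (tw_curve σ E B (twA σ G B) (twA_map σ G B)) (mp τ P))) = _
    rw [h1, h4, ← h2]
    exact castPt_cast _ _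
  sp F _ A v P p h := by
    have e1 : tf σ φ (RF v) inferInstance (twA σ (RF v) inferInstance) (twA_map σ (RF v) _) =
        tf σ φ (RF v) inferInstance (rfA σ A v) (rfA_map σ A v) := tf_indep _ _ _ _ _ _ _ _
    rw [e1]
    rw [spR_cast σ A v (tw_curve σ E' A (twA σ F A) (twA_map σ F A))
      (tw_curve σ E' _ (rfA σ A v) (rfA_map σ A v))]
    have h3 : castPt (tw_curve σ E' A (twA σ F A) (twA_map σ F A))
        (tf σ φ F A (twA σ F A) (twA_map σ F A) P) =
        @Hm.f Qb _ _ _ φ F _ (twA σ F A) (castPt (tw_curve σ E A (twA σ F A) (twA_map σ F A)) P) :=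
      castPt_cast' _ _
    have h4 : castPt (tw_curve σ E' _ (rfA σ A v) (rfA_map σ A v))
        (tf σ φ (RF v) inferInstance (rfA σ A v) (rfA_map σ A v) p) =
        @Hm.f Qb _ _ _ φ (RF v) _ (rfA σ A v)
          (castPt (tw_curve σ E _ (rfA σ A v) (rfA_map σ A v)) p) :=
      castPt_cast' _ _
    rw [h3, h4]
    have h5 := (spR_cast σ A v (tw_curve σ E A (twA σ F A) (twA_map σ F A))
      (tw_curve σ E _ (rfA σ A v) (rfA_map σ A v)) P p).1 h
    exact @Hm.sp Qb _ _ _ φ F _ (twA σ F A) (twP σ F A v) _ _ h5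

theorem cast_const (σ : Qb ≃ₐ[K] Qb) (E : WeierstrassCurve K) (A A2 : Algebra Qb Qb)
    (h : ∀ c, @algebraMap Qb Qb _ _ A2 c = @algebraMap Qb Qb _ _ A (σ c))
    (P : (E⁄Qb).toAffine.Point) :
    castPt (tw_curve σ E A A2 h) (@constPt Qb _ Qb _ A _ (gal σ P)) = @constPt Qb _ Qb _ A2 _ P := by
  match P with
  | .zero => exact castPt_zero _
  | .some x y hxy =>
    refine (castPt_some _ _).trans ?_
    congr 1
    · exact (h x).symm
    · exact (h y).symm

theorem exists_tw {K : Type} [Field K] [Algebra K Qb] (E E' : WeierstrassCurve K)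
    (σ : Qb ≃ₐ[K] Qb) (φ : Hm (E⁄Qb) (E'⁄Qb)) :
    ∃ φ' : Hm (E⁄Qb) (E'⁄Qb), ∀ P, φ'.k0 (gal σ P) = gal σ (φ.k0 P) := by
  refine ⟨twH σ φ, fun P => ?_⟩
  refine constPt_inj (F := Qb) ?_
  rw [← (twH σ φ).const]
  have h1 := cast_const σ E (Algebra.id Qb) (twA σ Qb (Algebra.id Qb))
    (twA_map σ Qb (Algebra.id Qb)) P
  have h2 := cast_const σ E' (Algebra.id Qb) (twA σ Qb (Algebra.id Qb))
    (twA_map σ Qb (Algebra.id Qb)) (φ.k0 P)
  have h3 := @Hm.const Qb _ _ _ φ Qb _ (twA σ Qb (Algebra.id Qb)) P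
  change castPt _ (@Hm.f Qb _ _ _ φ Qb _ (twA σ Qb (Algebra.id Qb))
    (castPt _ (constPt Qb (gal σ P)))) = _
  rw [h1, h3, ← h2]
  exact castPt_cast _ _

end tw

end Pool.Agent.LibER34
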