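import Pool.Agent.LibER34.Tst
import Pool.Agent.LibAF11.Bridge
import Pool.Agent.LibAF11.Red2

/-!
The Galois conjugates of the endomorphism `w`.
-/

open WeierstrassCurve Pool.Agent.LibBH2 Pool.Agent.LibIG50 Pool.Agent.LibCHd Pool.Agent.LibGG
  Pool.Agent.LibAC34 Pool.Agent.LibAF11
open scoped Classical ComplexConjugate

namespace Pool.Agent.LibER34

/-- the points of an elliptic curve over `Qb` form a divisible group -/
theorem exists_divZ (E : WeierstrassCurve Qb) [E.IsElliptic] (q : ℤ) (hq : q ≠ 0)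
    (P : E.toAffine.Point) : ∃ R : E.toAffine.Point, q • R = P := by
  have hk : ∀ R : E.toAffine.Point, (pr (Hm.id E) (q, 0) : Hm E E).k0 R = q • R := by
    intro R
    apply k0_of_f
    rw [pr_f, tr_self, sm_apply, HG_const_zsmul, zero_smul, add_zero]
  obtain ⟨S, hS⟩ := exists_nontors E
  obtain ⟨R, hR⟩ := k0_surj (pr (Hm.id E) (q, 0)) ⟨S, by rw [hk]; exact hS q hq⟩ P
  exact ⟨R, by rw [← hk, hR]⟩

/-- an integral relation `a + b w = 0` on all the points is trivial -/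
theorem rel_zero (c : CM) (E : WeierstrassCurve Qb) [E.IsElliptic] (him : (c.ω E).im ≠ 0)
    {a b : ℤ} (h : ∀ P : E.toAffine.Point, a • P + b • (c.w E).k0 P = 0) : a = 0 ∧ b = 0 := by
  obtain ⟨P, hP⟩ := exists_nontors E
  -- multiply by the conjugate
  have h1 : (a ^ 2 + a * b * c.t E + b ^ 2 * c.n E) • P = 0 := by
    have e1 := h ((c.w E).k0 P)
    rw [c.k0_quad, smul_sub, smul_smul, smul_smul] at e1
    have e0 := h P
    have e2 : (a ^ 2 + a * b * c.t E + b ^ 2 * c.n E) • P =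
        (a + b * c.t E) • (a • P + b • (c.w E).k0 P) -
          b • (a • (c.w E).k0 P + ((b * c.t E) • (c.w E).k0 P - (b * c.n E) • P)) := by
      simp only [smul_add, smul_sub, smul_smul]
      module
    rw [e2, e0, e1]
    have hz : ∀ (m : ℤ), m • (0 : E.toAffine.Point) = 0 := fun m => zsmul_zero m
    rw [hz b, sub_zero]
    exact hz _
  have h2 : a ^ 2 + a * b * c.t E + b ^ 2 * c.n E = 0 := by
    by_contra h4
    exact hP _ h4 h1
  have h3 : ((a : ℂ) + b * c.ω E) * conj ((a : ℂ) + b * c.ω E) = 0 := by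
    rw [map_add, map_mul, map_intCast, map_intCast]
    have h5 : ((a : ℂ) ^ 2 + a * b * c.t E + b ^ 2 * c.n E) = 0 := by exact_mod_cast h2
    rw [← c.trace, ← c.norm] at h5
    linear_combination h5
  have h5 : (a : ℂ) + b * c.ω E = 0 := by
    rcases mul_eq_zero.1 h3 with h5 | h5
    · exact h5
    · exact (map_eq_zero _).1 h5
  have h6 := congrArg Complex.im h5
  simp only [Complex.add_im, Complex.intCast_im, Complex.mul_im, Complex.intCast_re,
    Complex.zero_im, zero_mul, add_zero, zero_add] at h6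
  have hb : b = 0 := by
    rcases mul_eq_zero.1 h6 with h7 | h7
    · exact_mod_cast h7
    · exact absurd h7 him
  subst hb
  refine ⟨?_, rfl⟩
  rw [Int.cast_zero, zero_mul, add_zero] at h5
  exact_mod_cast h5

/-- `4 n - t ^ 2` is positive -/
theorem disc_pos (c : CM) (E : WeierstrassCurve Qb) (him : (c.ω E).im ≠ 0) :
    0 < 4 * c.n E - c.t E ^ 2 := by
  have h1 := congrArg Complex.re (c.trace E)
  have h2 := congrArg Complex.re (c.norm E)
  rw [Complex.add_re, Complex.conj_re, Complex.intCast_re] at h1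
  rw [Complex.mul_re, Complex.conj_re, Complex.conj_im, Complex.intCast_re] at h2
  have h3 : ((4 * c.n E - c.t E ^ 2 : ℤ) : ℝ) = 4 * (c.ω E).im ^ 2 := by
    push_cast
    rw [← h1, ← h2]
    ring
  have h4 : 0 < 4 * (c.ω E).im ^ 2 := by positivity
  rw [← h3] at h4
  exact_mod_cast h4

theorem gal_symm_apply {K : Type} [Field K] [Algebra K Qb] {E : WeierstrassCurve K}
    (σ : Qb ≃ₐ[K] Qb) (R : (E⁄Qb).toAffine.Point) : gal σ (gal σ.symm R) = R := by
  unfold gal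
  rw [Affine.Point.map_map]
  have h : (σ : Qb →ₐ[K] Qb).comp (σ.symm : Qb →ₐ[K] Qb) = AlgHom.id K Qb := by
    ext x
    simp
  rw [h]
  match R with
  | .zero => rfl
  | .some x y hxy => rfl

/-- The Galois conjugate of the endomorphism `w` is `w` or `t - w`. -/
theorem w_conj_of {c : CM} (hc : Full c) {K : Type} [Field K] [Algebra K Qb]
    (E : WeierstrassCurve K) [hE : (E⁄Qb).IsElliptic] (him : (c.ω (E⁄Qb)).im ≠ 0)
    (σ : Qb ≃ₐ[K] Qb) (φ' : Hm (E⁄Qb) (E⁄Qb))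
    (hφ : ∀ P, φ'.k0 (gal σ P) = gal σ ((c.w (E⁄Qb)).k0 P)) :
    (∀ P, gal σ ((c.w (E⁄Qb)).k0 P) = (c.w (E⁄Qb)).k0 (gal σ P)) ∨
      ∀ P, gal σ ((c.w (E⁄Qb)).k0 P) =
        c.t (E⁄Qb) • gal σ P - (c.w (E⁄Qb)).k0 (gal σ P) := by
  obtain ⟨Q', x, y, hQ', -, hf⟩ := hc (E⁄Qb) hE φ'
  obtain ⟨Q, hQ⟩ : ∃ Q : ℤ, Q = (Q' : ℤ) := ⟨_, rfl⟩
  obtain ⟨t, ht⟩ : ∃ t : ℤ, t = c.t (E⁄Qb) := ⟨_, rfl⟩
  obtain ⟨n, hn⟩ : ∃ n : ℤ, n = c.n (E⁄Qb) := ⟨_, rfl⟩
  have hquad : ∀ R, (c.w (E⁄Qb)).k0 ((c.w (E⁄Qb)).k0 R) = t • (c.w (E⁄Qb)).k0 R - n • R := by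
    intro R
    rw [ht, hn, c.k0_quad]
  have hQ0 : Q ≠ 0 := by rw [hQ]; exact_mod_cast hQ'.ne'
  have h1 : ∀ R : (E⁄Qb).toAffine.Point, Q • φ'.k0 R = x • R + y • (c.w (E⁄Qb)).k0 R := by
    intro R
    apply constPt_inj (F := Qb)
    have h := hf Qb (constPt Qb R)
    rw [← natCast_zsmul, ← hQ, φ'.const, (c.w (E⁄Qb)).const] at h
    rw [HG_const_zsmul, HG_const_add, HG_const_zsmul, HG_const_zsmul]
    exact h
  -- the quadratic relation of the conjugate
  have h2 : ∀ R : (E⁄Qb).toAffine.Point, φ'.k0 (φ'.k0 R) = t • φ'.k0 R - n • R := by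
    intro R
    obtain ⟨P, rfl⟩ : ∃ P, gal σ P = R := ⟨gal σ.symm R, gal_symm_apply σ R⟩
    rw [hφ, hφ, hquad, map_sub, map_zsmul, map_zsmul]
  -- the relation of integers
  have h3 : ∀ R : (E⁄Qb).toAffine.Point, (x ^ 2 - n * y ^ 2 - t * Q * x + n * Q ^ 2) • R +
      (y * (2 * x + t * y - t * Q)) • (c.w (E⁄Qb)).k0 R = 0 := by
    intro R
    have hwR := h1 ((c.w (E⁄Qb)).k0 R)
    have hadd : φ'.k0 (x • R + y • (c.w (E⁄Qb)).k0 R) =
        x • φ'.k0 R + y • φ'.k0 ((c.w (E⁄Qb)).k0 R) := by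
      change φ'.k0H _ = x • φ'.k0H _ + y • φ'.k0H _
      rw [map_add, map_zsmul, map_zsmul]
    have e1 : Q • Q • φ'.k0 (φ'.k0 R) = x • (x • R + y • (c.w (E⁄Qb)).k0 R) +
        y • (x • (c.w (E⁄Qb)).k0 R + y • (t • (c.w (E⁄Qb)).k0 R - n • R)) := by
      have e2 : Q • φ'.k0 (φ'.k0 R) = x • φ'.k0 R + y • φ'.k0 ((c.w (E⁄Qb)).k0 R) := by
        rw [← k0_zsmul, h1, hadd]
      rw [e2, smul_add, smul_comm Q x, h1, smul_comm Q y, hwR, hquad]
    have e3 : Q • Q • φ'.k0 (φ'.k0 R) = (t * Q) • (x • R + y • (c.w (E⁄Qb)).k0 R) -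
        (n * Q ^ 2) • R := by
      rw [h2, ← h1 R]
      module
    have e4 := e1.symm.trans e3
    have e5 : (x ^ 2 - n * y ^ 2 - t * Q * x + n * Q ^ 2) • R +
        (y * (2 * x + t * y - t * Q)) • (c.w (E⁄Qb)).k0 R =
        (x • (x • R + y • (c.w (E⁄Qb)).k0 R) +
          y • (x • (c.w (E⁄Qb)).k0 R + y • (t • (c.w (E⁄Qb)).k0 R - n • R))) -
        ((t * Q) • (x • R + y • (c.w (E⁄Qb)).k0 R) - (n * Q ^ 2) • R) := by
      module
    rw [e5, e4, sub_self]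
  obtain ⟨ha, hb⟩ := rel_zero c (E⁄Qb) him h3
  have hd : 0 < 4 * n - t ^ 2 := by rw [ht, hn]; exact disc_pos c (E⁄Qb) him
  have hy : y ≠ 0 := by
    intro hy
    subst hy
    have h6 : (2 * x - t * Q) ^ 2 + (4 * n - t ^ 2) * Q ^ 2 = 0 := by linear_combination 4 * ha
    have h7 : 0 < (4 * n - t ^ 2) * Q ^ 2 := by positivity
    nlinarith [sq_nonneg (2 * x - t * Q)]
  have hb' : 2 * x + t * y - t * Q = 0 := by
    rcases mul_eq_zero.1 hb with h | h
    · exact absurd h hy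
    · exact h
  have h8 : (4 * n - t ^ 2) * ((Q - y) * (Q + y)) = 0 := by
    have hx2 : 2 * x = t * (Q - y) := by linarith
    linear_combination 4 * ha + (-2 * x + t * Q + t * y) * hx2
  have h9 : (Q - y) * (Q + y) = 0 := by
    rcases mul_eq_zero.1 h8 with h | h
    · exact absurd h hd.ne'
    · exact h
  rcases mul_eq_zero.1 h9 with h | h
  · left
    have hyQ : y = Q := by linarith
    have hx : x = 0 := by rw [hyQ] at hb'; linarith
    intro P
    rw [← hφ]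
    obtain ⟨R, hR⟩ := exists_divZ (E⁄Qb) Q hQ0 (gal σ P)
    rw [← hR, k0_zsmul, h1, hx, hyQ, k0_zsmul]
    simp
  · right
    have hyQ : y = -Q := by linarith
    have hx : x = t * Q := by
      rw [hyQ] at hb'
      linarith
    intro P
    rw [← hφ, ← ht]
    obtain ⟨R, hR⟩ := exists_divZ (E⁄Qb) Q hQ0 (gal σ P)
    rw [← hR, k0_zsmul, h1, hx, hyQ, k0_zsmul, neg_smul, ← sub_eq_add_neg, smul_smul]

end Pool.Agent.LibER34
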