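import Pool.Agent.LibER34.NoCM
import Pool.Agent.LibER34.LaCM
import Pool.Agent.LibER34.LaR
import Pool.Agent.LibER34.Rk
import Pool.Agent.LibER34.Tr1
import Pool.Agent.LibER34.Tr2
import Pool.Agent.LibER34.TwH
import Pool.Agent.LibER34.WConj
import Pool.Agent.LibAF11.PwIff
import Pool.Agent.LibAF11.Sat

/-!
The theorem on the ranks.
-/

open WeierstrassCurve Pool.Agent.LibBH2 Pool.Agent.LibIG50 Pool.Agent.LibCHd Pool.Agent.LibGG
  Pool.Agent.LibAC34 Pool.Agent.LibAF11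
open scoped Classical ComplexConjugate

namespace Pool.Agent.LibER34

theorem rk_GK {K : Type} [Field K] [Algebra K Qb] (Γ : Grid) (E : WeierstrassCurve K) :
    rk (GK Γ E) = Module.rank ℤ (GKg Γ E) := by
  have h1 : AddSubgroup.closure (GK Γ E) = GKg Γ E := AddSubgroup.closure_eq (GKg Γ E)
  rw [rk, h1]

theorem exists_e {c : CM} (hc : Full c) {K : Type} [Field K] [Algebra K Qb]
    (E : WeierstrassCurve K) [hE : (E⁄Qb).IsElliptic] : ∃ e, GalW c E e := by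
  by_cases him : (c.ω (E⁄Qb)).im = 0
  · refine ⟨fun _ => false, fun σ P => ?_⟩
    rw [c.k0_real _ him, map_zero, pc_false, smk, c.k0_real _ him, zero_smul, smul_zero, add_zero]
  · have h : ∀ σ : Qb ≃ₐ[K] Qb, ∃ ε : Bool, ∀ P : (E⁄Qb).toAffine.Point,
        gal σ ((c.w (E⁄Qb)).k0 P) =
          smk (c.w (E⁄Qb)) (pc (c.t (E⁄Qb)) ε (0, 1)) (gal σ P) := by
      intro σ
      obtain ⟨φ', hφ⟩ := exists_tw E E σ (c.w (E⁄Qb))
      rcases w_conj_of hc E him σ φ' hφ with h1 | h1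
      · refine ⟨false, fun P => ?_⟩
        rw [h1, pc_false, smk, zero_smul, one_smul, zero_add]
      · refine ⟨true, fun P => ?_⟩
        rw [h1, pc_true, smk]
        simp only [mul_one, zero_add]
        rw [neg_one_zsmul, sub_eq_add_neg]
    choose e he using h
    exact ⟨e, he⟩

theorem ranks (K : Type) [Field K] [Algebra K Qb] {Γ : Grid} (h : PwC Γ) : Ranks K Γ := by
  intro E hE r D F _ _ ξ hξ
  have hE' : (E⁄Qb).IsElliptic := inferInstanceAs (E.map (algebraMap K Qb)).IsElliptic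
  obtain ⟨c, hc⟩ := exists_CM
  obtain ⟨ε, he⟩ := exists_e hc E
  have hO : Orth (satH Γ) := pw_orth (satH_pw (pw_of_pwC h))
  have hF : Fun (satH Γ) := satH_fun Γ
  have hle : Γ (E⁄Qb) ≤ satH Γ (E⁄Qb) := le_satH Γ _ hE'
  have e : rk (clF ξ '' ZE Γ E r ξ) = rkC Γ c E ε r ξ :=
    le_antisymm (ZE_le hc E he hE' ξ hξ) (le_ZE hO hF hc E he hle hE' ξ hξ)
  refine ⟨fun h1 => ?_, fun h1 h3 => ?_⟩
  · have h3 := (noCM_iff hc (E⁄Qb)).1 h1
    have h4 : c.ω (E⁄Qb) = 0 := (c.real _ h3).1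
    have h5 : LA (c.ω (E⁄Qb)) r D (Fin (LibMul34.mul r D)) := by
      rw [h4]
      exact la_real r D
    have h6 : ∀ P ∈ Γ (E⁄Qb), (c.w (E⁄Qb)).k0 P ∈ Γ (E⁄Qb) := fun P _ => by
      rw [c.k0_real _ h3]
      exact zero_mem _
    rw [e, rkC_eq hO hF c E hle h6 hE' he ξ hξ h5, rk_GK, Fintype.card_fin, LibMul34.mul_eq]
  · have h4 : (c.ω (E⁄Qb)).im ≠ 0 := fun h4 => h1 ((noCM_iff hc (E⁄Qb)).2 h4)
    rw [e, rkC_eq hO hF c E hle (k0_mem_of_stb h3 _) hE' he ξ hξ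
      (la_cm _ _ _ (c.trace _) (c.norm _) h4 r D), rk_GK, Fintype.card_prod, card_Sb, card_Sb]

end Pool.Agent.LibER34
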