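import Pool.Agent.LibER34.Tst
import Pool.Agent.LibAF11.Red6

/-!
The criterion for torsion.
-/

open WeierstrassCurve Pool.Agent.LibBH2 Pool.Agent.LibIG50 Pool.Agent.LibCHd Pool.Agent.LibGG
  Pool.Agent.LibAC34 Pool.Agent.LibAF11
open scoped Classical ComplexConjugate

namespace Pool.Agent.LibER34

variable {r D : ℕ}

variable {K : Type} [Field K] [Algebra K Qb]

/-- the criterion -/
theorem crit {Γ : Grid} (hΓ : Orth Γ) (hF : Fun Γ) (c : CM) (E : WeierstrassCurve K)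
    (hE : (E⁄Qb).IsElliptic) {F : Type} [Field F] [Algebra Qb F]
    (ξ : ∀ _ : Fin D, ((E⁄Qb)⁄F).toAffine.Point)
    (hξ : IsGen 0 (Algebra.ofId Qb F) (fun _ : Fin D => E⁄Qb) ξ)
    (e : (Qb ≃ₐ[K] Qb) → Bool) (b : PC (E⁄Qb) r D →₀ ℤ) (hb : b ∈ ZC0 Γ c E e r D) :
    IsOfFinAddOrder (clCF c r ξ b) ↔ ∀ s, IsOfFinAddOrder (tS c (E⁄Qb) s b) := by
  set ω := c.ω (E⁄Qb) with hω
  have hmat : ∀ M : Matrix (Fin r) (Fin D) (ℤ × ℤ), (ω.im = 0 → ∀ i a, (M i a).2 = 0) →
      MatC c (fun _ : Fin D => E⁄Qb) (fun _ : Fin r => E⁄Qb) M :=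
    fun M h i a => ⟨fun h' => absurd rfl h', fun h' => h h' i a⟩
  have htS : ∀ (lam : (E⁄Qb).toAffine.Point →+ ℂ),
      (∀ P, lam ((c.w (E⁄Qb)).k0 P) = c.ω (E⁄Qb) * lam P) → ∀ s, lam (tS c (E⁄Qb) s b) =
      ∑ j : b.support, (b j.1 : ℂ) * Xv (j.1.1.map (tc ω)) (fun i => lam (j.1.2 i)) s := by
    intro lam hlam s
    rw [lam_tS c _ s lam hlam, Finsupp.sum, ← Finset.sum_coe_sort]
  -- the numbers
  have hnum : ∀ (M : Matrix (Fin r) (Fin D) (ℤ × ℤ)) (z : Fin r → ℤ)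
      (lam : (E⁄Qb).toAffine.Point →+ ℂ),
      (∀ P, lam ((c.w (E⁄Qb)).k0 P) = c.ω (E⁄Qb) * lam P) →
      ∑ j : b.support, (b j.1 : ℂ) * (conj ((cx c (fun _ : Fin r => E⁄Qb) M).transpose *
        cx c (fun _ : Fin r => E⁄Qb) j.1.1).det *
        ((Matrix.fromCols (cx c (fun _ : Fin r => E⁄Qb) M)
          (Matrix.replicateCol Unit fun i => (z i : ℂ))).transpose *
          Matrix.fromCols (cx c (fun _ : Fin r => E⁄Qb) j.1.1)
            (Matrix.replicateCol Unit fun i => lam (trk (E⁄Qb) (E⁄Qb) (j.1.2 i)))).det) =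
      ∑ s, Xv (M.map (tc ω)) (fun i => (z i : ℂ)) s * lam (tS c (E⁄Qb) s b) := by
    intro M z lam hlam
    have h1 : ∀ j : b.support, (b j.1 : ℂ) * (conj ((cx c (fun _ : Fin r => E⁄Qb) M).transpose *
        cx c (fun _ : Fin r => E⁄Qb) j.1.1).det *
        ((Matrix.fromCols (cx c (fun _ : Fin r => E⁄Qb) M)
          (Matrix.replicateCol Unit fun i => (z i : ℂ))).transpose *
          Matrix.fromCols (cx c (fun _ : Fin r => E⁄Qb) j.1.1)
            (Matrix.replicateCol Unit fun i => lam (trk (E⁄Qb) (E⁄Qb) (j.1.2 i)))).det) =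
        ∑ s, Xv (M.map (tc ω)) (fun i => (z i : ℂ)) s *
          ((b j.1 : ℂ) * Xv (j.1.1.map (tc ω)) (fun i => lam (j.1.2 i)) s) := by
      intro j
      simp only [trk_self]
      rw [num_eq, Finset.mul_sum]
      refine Finset.sum_congr rfl fun s _ => ?_
      have e1 : cx c (fun _ : Fin r => E⁄Qb) M = M.map (tc ω) := rfl
      have e2 : cx c (fun _ : Fin r => E⁄Qb) j.1.1 = j.1.1.map (tc ω) := rfl
      rw [e1, e2]
      ring
    rw [Finset.sum_congr rfl fun j _ => h1 j, Finset.sum_comm]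
    refine Finset.sum_congr rfl fun s _ => ?_
    rw [htS lam hlam, Finset.mul_sum]
  rw [clCF_eq]
  constructor
  · intro htor s
    have h1 := (convC c (fun _ : Fin r => E⁄Qb) (fun _ => hE) (fun _ : Fin D => E⁄Qb)
      (fun _ => hE) F ξ hξ b.support (fun j => b j.1) (fun j => j.1.1) (fun j => j.1.2)
      (fun j => (hb.1 j.1 j.2).1) htor).2
    refine sep c (E⁄Qb) _ fun lam hlam => ?_
    rw [htS lam hlam]
    refine nondeg (n := c.n (E⁄Qb)) ω (c.trace (E⁄Qb)) (fun h => (c.real (E⁄Qb) h).1)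
      (fun j : b.support => (b j.1 : ℂ)) (fun j => j.1.1) (fun j i => lam (j.1.2 i))
      (fun j h i a => ((hb.1 j.1 j.2).1 i a).2 h) (fun M hM z => ?_) s
    have h2 := h1 M (hmat M hM) (E⁄Qb) z (fun i hi => absurd rfl hi) lam hlam
    rw [hnum M z lam hlam] at h2
    rw [← h2]
    refine Finset.sum_congr rfl fun s _ => ?_
    rw [htS lam hlam]
  · intro htor
    have h1 := all_dimC hΓ hF c r (fun _ : Fin r => E⁄Qb) (fun _ : Fin r => E⁄Qb)
      (fun _ => Hm.id (E⁄Qb)) (fun _ => hE) (fun _ => hE) D (fun _ : Fin D => E⁄Qb)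
      (fun _ => hE) (pt0 Qb) 0 Qb (org _) F (Algebra.ofId Qb F) ξ hξ b.support
      (fun j => b j.1) (fun j => j.1.1) (fun j => j.1.2) (fun j => (hb.1 j.1 j.2).1)
      (fun j => (hb.1 j.1 j.2).2) (fun M hM => ?_) (fun M hM E' z hz lam hlam => ?_)
    · unfold clC at h1 ⊢
      rwa [cast_tors _ _ (zero_add D)] at h1
    · have h2 := hb.2.2 M hM
      have h3 : nmb c M b = b.sum fun p m => m •
        (Complex.normSq ((cx c (fun _ => E⁄Qb) M).transpose * cx c (fun _ => E⁄Qb) p.1).det) := rfl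
      rw [h3, Finsupp.sum, ← Finset.sum_coe_sort] at h2
      rw [← h2]
      refine Finset.sum_congr rfl fun j _ => ?_
      rw [zsmul_eq_mul]
    · by_cases hEE : E' = (E⁄Qb)
      · subst hEE
        rw [hnum M z lam hlam]
        refine Finset.sum_eq_zero fun s _ => ?_
        rw [zero_of_tors lam (htor s), mul_zero]
      · have hz0 : ∀ i, z i = 0 := fun i => hz i (Ne.symm hEE)
        refine Finset.sum_eq_zero fun j _ => ?_
        rw [num_eq]
        have h2 : ∀ s, Xv (cx c (fun _ : Fin r => E⁄Qb) M) (fun i => (z i : ℂ)) s = 0 := by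
          intro s
          rw [Xv_lin]
          refine Finset.sum_eq_zero fun i _ => ?_
          rw [hz0 i, Int.cast_zero, zero_mul]
        simp only [h2, zero_mul, Finset.sum_const_zero, mul_zero]

end Pool.Agent.LibER34
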