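import Pool.Agent.LibAF11.Defs

/-!
The ranks of the groups of homologically trivial cycles over a number field on the powers of an
elliptic curve: definitions.
-/

open WeierstrassCurve Pool.Agent.LibBH2 Pool.Agent.LibIG50 Pool.Agent.LibCHd Pool.Agent.LibGG
  Pool.Agent.LibAC34 Pool.Agent.LibAF11
open scoped Classical

namespace Pool.Agent.LibER34

/-- the rank of the subgroup generated by the set `S` -/
noncomputable def rk {G : Type} [AddCommGroup G] (S : Set G) : Cardinal :=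
  Module.rank ℤ (AddSubgroup.closure S)

section cycles

variable {k : Type} [Field k] {F : Type} [Field F] [Algebra k F] {D r s : ℕ}
  {V : Fin D → WeierstrassCurve k} {W : Fin r → WeierstrassCurve k}
  {W' : Fin s → WeierstrassCurve k}

/-- The class in `CH_D (A)` of the cycle `c = ∑ m (N_* B + g)` on `A = W 1 × ... × W r`, a formal
integral combination of pairs `(N, g)` of homomorphisms `N` from `B = V 1 × ... × V D` to `A` and points
`g` of `A`; `ξ` is the generic point of `B`. -/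
noncomputable def clF (ξ : ∀ a, ((V a)⁄F).toAffine.Point) (c : (Homs V W × Pts W) →₀ ℤ) :
    CH W (pt0 k) D :=
  c.sum fun p m => m • QuotientAddGroup.mk (cyc (pntH (Algebra.ofId k F) ξ (org W) p.1 p.2))

/-- the class of `f_* c` in `CH_D (A')`, for a homomorphism `f` from `A` to `A'` -/
noncomputable def dirF (f : Homs W W') (ξ : ∀ a, ((V a)⁄F).toAffine.Point)
    (c : (Homs V W × Pts W) →₀ ℤ) : CH W' (pt0 k) D :=
  c.sum fun p m => m • QuotientAddGroup.mk
    (cyc (imgH f (pntH (Algebra.ofId k F) ξ (org W) p.1 p.2)))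

end cycles

/-- the homomorphism `φ` maps the point `P` to the point `Q` -/
def Sd {E E' : WeierstrassCurve Qb} (φ : Hom E E') (P : E.toAffine.Point)
    (Q : E'.toAffine.Point) : Prop :=
  φ.f Qb (constPt Qb P) = constPt Qb Q

/-- the homomorphisms from `E` to `E'` map `Γ E` to `Γ E'` -/
def Stb (Γ : Grid) (E E' : WeierstrassCurve Qb) : Prop :=
  ∀ (φ : Hom E E') (P : E.toAffine.Point) (Q : E'.toAffine.Point), P ∈ Γ E → Sd φ P Q → Q ∈ Γ E'

/-- `End (E) ⊗ ℚ = ℚ`: some multiple of every endomorphism of `E` is multiplication by an integer -/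
def NoCM (E : WeierstrassCurve Qb) : Prop :=
  ∀ φ : Hom E E, ∃ q n : ℤ, q ≠ 0 ∧
    ∀ (F : Type) [Field F] [Algebra Qb F] (P : (E⁄F).toAffine.Point), q • φ.f F P = n • P

/-- pairs of a homomorphism from `E ^ D` to `E ^ r` and a point of `E ^ r` -/
abbrev Prs (E : WeierstrassCurve Qb) (D r : ℕ) : Type 1 :=
  Homs (fun _ : Fin D => E) (fun _ : Fin r => E) × Pts (fun _ : Fin r => E)

variable {K : Type} [Field K] [Algebra K Qb]

/-- the conjugate `σ P` of the point `P` -/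
noncomputable def gl {E : WeierstrassCurve K} (σ : Qb ≃ₐ[K] Qb) (P : (E⁄Qb).toAffine.Point) :
    (E⁄Qb).toAffine.Point :=
  gal σ P

/-- `φ'` is the conjugate of the endomorphism `φ` under `σ`: if `φ` maps `P` to `Q` then `φ'` maps
`σ P` to `σ Q` -/
def Cj {E : WeierstrassCurve K} (σ : Qb ≃ₐ[K] Qb) (φ φ' : Hom (E⁄Qb) (E⁄Qb)) : Prop :=
  ∀ P Q : (E⁄Qb).toAffine.Point, Sd φ P Q → Sd φ' (gl σ P) (gl σ Q)

/-- all endomorphisms of the curve `E` are defined over `K` -/
def EndK (E : WeierstrassCurve K) : Prop :=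
  ∀ (φ : Hom (E⁄Qb) (E⁄Qb)) (σ : Qb ≃ₐ[K] Qb), Cj σ φ φ

/-- the points of `E` over `K` which belong to the group `Γ E` -/
def GK (Γ : Grid) (E : WeierstrassCurve K) : Set (E⁄Qb).toAffine.Point :=
  {R | R ∈ Γ (E⁄Qb) ∧ ∀ σ : Qb ≃ₐ[K] Qb, gl σ R = R}

/-- the pair `p' = (N', g')` is the conjugate of the pair `p = (N, g)` under `σ` -/
def Conj {E : WeierstrassCurve K} {D r : ℕ} (σ : Qb ≃ₐ[K] Qb) (p p' : Prs (E⁄Qb) D r) : Prop :=
  (∀ i a, Cj σ (p.1 i a) (p'.1 i a)) ∧ ∀ i, p'.2 i = gl σ (p.2 i)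

/-- The cycles `c = ∑ m (N_* B + g)` on `A = E ^ r`, with homomorphisms `N` from `B = E ^ D` to `A` and
points `g` of `A` with components in `Γ E`, which are defined over `K` (the elements of the Galois group
of `K` permute the terms of `c`) and homologically trivial (`f_* c` is torsion for all homomorphisms
`f` from `E ^ r` to `E ^ D`). -/
def ZE (Γ : Grid) (E : WeierstrassCurve K) {D : ℕ} (r : ℕ) {F : Type} [Field F] [Algebra Qb F]
    (ξ : ∀ _ : Fin D, ((E⁄Qb)⁄F).toAffine.Point) : Set (Prs (E⁄Qb) D r →₀ ℤ) :=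
  {c | (∀ p ∈ c.support, ∀ i, p.2 i ∈ Γ (E⁄Qb)) ∧
    (∀ σ : Qb ≃ₐ[K] Qb, ∃ φ : Prs (E⁄Qb) D r → Prs (E⁄Qb) D r,
      (∀ p ∈ c.support, Conj σ p (φ p)) ∧ c.mapDomain φ = c) ∧
    ∀ f : Homs (fun _ : Fin r => E⁄Qb) (fun _ : Fin D => E⁄Qb), IsOfFinAddOrder (dirF f ξ c)}

/-- For every elliptic curve `E` over `K` and all `r` and `D` the classes in `CH_D (E ^ r)` of the
homologically trivial cycles over `K` which are combinations of translates, by points with components in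
`Γ E`, of the images of `E ^ D` under homomorphisms generate a group of rank
* `(C(r,D) C(r,D+1) - C(r,D-1) C(r,D+2)) * rank (E(K) ∩ Γ E)` if `End (E) ⊗ ℚ = ℚ` (where
  `C(r,D-1) = C(r,r+1-D)`),
* `C(r,D) C(r,D+1) * rank (E(K) ∩ Γ E)` if `E` has complex multiplications and `Γ E` is preserved by
  them. -/
def Ranks (K : Type) [Field K] [Algebra K Qb] (Γ : Grid) : Prop :=
  ∀ (E : WeierstrassCurve K), E.IsElliptic → ∀ (r D : ℕ) (F : Type) [Field F] [Algebra Qb F]
    (ξ : ∀ _ : Fin D, ((E⁄Qb)⁄F).toAffine.Point),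
    IsGen 0 (Algebra.ofId Qb F) (fun _ => E⁄Qb) ξ →
      (NoCM (E⁄Qb) → rk (clF ξ '' ZE Γ E r ξ) =
        (r.choose D * r.choose (D + 1) - r.choose (r + 1 - D) * r.choose (D + 2) : ℕ) *
          rk (GK Γ E)) ∧
      (¬ NoCM (E⁄Qb) → Stb Γ (E⁄Qb) (E⁄Qb) → rk (clF ξ '' ZE Γ E r ξ) =
        (r.choose D * r.choose (D + 1) : ℕ) * rk (GK Γ E))

/-- all the groups `Γ W`, `W` elliptic, have infinite rank and are saturated -/
def Inf (Γ : Grid) : Prop :=
  ∀ W : WeierstrassCurve Qb, W.IsElliptic →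
    Cardinal.aleph0 ≤ rk (Γ W : Set W.toAffine.Point) ∧
    ∀ (R : W.toAffine.Point) (n : ℕ), n ≠ 0 → n • R ∈ Γ W → R ∈ Γ W

/-- the groups `Γ E` of the elliptic curves over `K` are stable under the Galois group of `K` -/
def GalS (K : Type) [Field K] [Algebra K Qb] (Γ : Grid) : Prop :=
  ∀ E : WeierstrassCurve K, E.IsElliptic → ∀ (σ : Qb ≃ₐ[K] Qb), ∀ R ∈ Γ (E⁄Qb),
    gl σ R ∈ Γ (E⁄Qb)

end Pool.Agent.LibER34
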