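import Pool.Agent.LibER34.Main
import Pool.Agent.LibER34.One
import Pool.Agent.LibAC34.CGam

/-!
The final theorem.
-/

open WeierstrassCurve Pool.Agent.LibBH2 Pool.Agent.LibIG50 Pool.Agent.LibCHd Pool.Agent.LibGG
  Pool.Agent.LibAC34 Pool.Agent.LibAF11
open scoped Classical

namespace Pool.Agent.LibER34

theorem exact_ranks :
    (∀ Γ : Grid, PwC Γ → ∀ (K : Type) [Field K] [Algebra K Qb], Ranks K Γ) ∧
    (∀ (K : Type) [Field K] [NumberField K] [Algebra K Qb] (E : WeierstrassCurve K)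
      [E.IsElliptic], Module.rank ℤ E.toAffine.Point ≤ 1 ∨
        (¬ NoCM (E⁄Qb) ∧ EndK E ∧ Module.rank ℤ E.toAffine.Point ≤ 2) →
      ∃ Γ : Grid, PwC Γ ∧ (∀ E E' : WeierstrassCurve Qb, Stb Γ E E') ∧
        rk (GK Γ E) = Module.rank ℤ E.toAffine.Point ∧
        ∀ P : E.toAffine.Point, constPt Qb P ∈ Γ (E⁄Qb)) ∧
    ∀ (K : Type) [Field K] [NumberField K] [Algebra K Qb] (E₀ : WeierstrassCurve K)
      [E₀.IsElliptic] (T P : E₀.toAffine.Point), T ≠ 0 → 2 • T = 0 →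
      ∃ Γ : Grid, PwC Γ ∧ (∀ E E' : WeierstrassCurve Qb, Stb Γ E E') ∧
        constPt Qb P ∈ Γ (E₀⁄Qb) ∧ Inf Γ ∧ GalS K Γ :=
  ⟨fun _ h K _ _ => ranks K h, fun K _ _ _ E _ h => exists_one K E h,
    fun K _ _ _ E₀ _ T P hT hT' => by
      obtain ⟨Γ, h1, h2, h3, h4, h5⟩ := gg4 K E₀ T P hT hT'
      refine ⟨Γ, pwC_of_pw h1, stb_of_fun h2, h3, fun W hW => ⟨?_, (h4 W hW).2⟩,
        fun E hE σ R hR => (h5 E hE).1 σ R hR⟩
      obtain ⟨Q, hQ⟩ := (h4 W hW).1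
      have h6 := hQ.cardinal_le_rank
      rw [Cardinal.mk_nat] at h6
      rw [rk, AddSubgroup.closure_eq]
      exact h6⟩

end Pool.Agent.LibER34
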