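import Pool.Agent.LibER34.CDefs

/-!
The linear algebra of the vectors `Xv`: definition.
-/

open scoped Classical ComplexConjugate

namespace Pool.Agent.LibER34

/-- The linear algebra over the order `ℤ[ω]`: coordinates `ι` which determine all the coordinates of the
vectors `Xv N v` up to multiples, and integral combinations `x` of vectors with independent values
`κ`. -/
def LA (ω : ℂ) (r D : ℕ) (B : Type) [Fintype B] : Prop :=
  (∃ ι : B → Sb r D × Sb r (D + 1), ∀ s, ∃ (n : ℤ) (a : B → ℤ), n ≠ 0 ∧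
    ∀ (N : Matrix (Fin r) (Fin D) (ℤ × ℤ)) (v : Fin r → ℂ),
      n * Xv (N.map (tc ω)) v s = ∑ β, a β * Xv (N.map (tc ω)) v (ι β)) ∧
  ∃ (x : B → (Matrix (Fin r) (Fin D) (ℤ × ℤ) × (Fin r → ℤ × ℤ)) →₀ ℤ)
    (κ : B → Sb r D × Sb r (D + 1) → ℤ),
    (ω.im = 0 → ∀ β, ∀ p ∈ (x β).support, ∀ i, (p.2 i).2 = 0 ∧ ∀ a, (p.1 i a).2 = 0) ∧
    (∀ β s, ((x β).sum fun p m =>
      (m : ℂ) * Xv (p.1.map (tc ω)) (fun i => tc ω (p.2 i)) s) = κ β s) ∧
    ∀ e : B → ℤ, (∀ s, ∑ β, e β * κ β s = 0) → ∀ β, e β = 0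

theorem card_Sb (r D : ℕ) : Fintype.card (Sb r D) = r.choose D := by
  rw [Fintype.card_finset_len, Fintype.card_fin]

/-- `mJ` is linear in the vector -/
theorem mJ_lin {r D : ℕ} (N : Matrix (Fin r) (Fin D) ℂ) (v : Fin r → ℂ) (J : Sb r (D + 1)) :
    mJ N v J = ∑ i, v i * mJ N (Pi.single i 1) J := by
  have key : ∀ w : Fin r → ℂ, mJ N w J =
      Matrix.cramer ((Matrix.fromCols N (Matrix.replicateCol Unit (0 : Fin r → ℂ))).submatrix
        (J.1.orderEmbOfFin J.2 ∘ LibMul34.ix D) id)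
        (fun a => w ((J.1.orderEmbOfFin J.2 ∘ LibMul34.ix D) a)) (Sum.inr ()) := by
    intro w
    rw [Matrix.cramer_apply]
    unfold mJ
    congr 1
    ext a b
    rcases b with b | ⟨⟩
    · rw [Matrix.updateCol_ne (by simp)]
      rfl
    · rw [Matrix.updateCol_self]
      rfl
  have h1 : (fun a => v ((J.1.orderEmbOfFin J.2 ∘ LibMul34.ix D) a)) =
      ∑ i, v i • (fun a => (Pi.single i (1 : ℂ) : Fin r → ℂ)
        ((J.1.orderEmbOfFin J.2 ∘ LibMul34.ix D) a)) := by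
    funext a
    rw [Finset.sum_apply]
    simp only [Pi.smul_apply, smul_eq_mul, Pi.single_apply, mul_ite, mul_one, mul_zero,
      Finset.sum_ite_eq, Finset.mem_univ, if_true]
  rw [key, h1, map_sum, Finset.sum_apply]
  refine Finset.sum_congr rfl fun i _ => ?_
  rw [map_smul, Pi.smul_apply, smul_eq_mul, ← key]

/-- `Xv` is linear in the vector -/
theorem Xv_lin {r D : ℕ} (N : Matrix (Fin r) (Fin D) ℂ) (v : Fin r → ℂ)
    (s : Sb r D × Sb r (D + 1)) : Xv N v s = ∑ i, v i * Xv N (Pi.single i 1) s := by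
  unfold Xv
  rw [mJ_lin, Finset.mul_sum]
  exact Finset.sum_congr rfl fun i _ => by ring

end Pool.Agent.LibER34
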